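import Mathlib

set_option autoImplicit false

namespace Pool.Agent.Helper517.FIrr

open Finset

/-- `φ` is an injective homomorphism from `F` to `G`. -/
def IsEmb {n : ℕ} (F : SimpleGraph (Fin n)) {V : Type} (G : SimpleGraph V) (φ : Fin n → V) : Prop :=
  Function.Injective φ ∧ ∀ a b, F.Adj a b → G.Adj (φ a) (φ b)

open Classical in
/-- injective homomorphisms whose image contains `v` -/
noncomputable def Eset {n : ℕ} (F : SimpleGraph (Fin n)) {V : Type} [Fintype V]
    (G : SimpleGraph V) (v : V) : Finset (Fin n → V) :=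
  univ.filter (fun φ : Fin n → V => IsEmb F G φ ∧ ∃ a, φ a = v)

theorem mem_Eset {n : ℕ} {F : SimpleGraph (Fin n)} {V : Type} [Fintype V]
    {G : SimpleGraph V} {v : V} {φ : Fin n → V} :
    φ ∈ Eset F G v ↔ IsEmb F G φ ∧ ∃ a, φ a = v := by
  simp [Eset]

/-- number of injective homomorphisms whose image contains `v` -/
noncomputable def Nf {n : ℕ} (F : SimpleGraph (Fin n)) {V : Type} [Fintype V]
    (G : SimpleGraph V) (v : V) : ℕ := (Eset F G v).card

/-- the image subgraph -/
def toSub {n : ℕ} (F : SimpleGraph (Fin n)) {V : Type} (G : SimpleGraph V) (φ : Fin n → V) :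
    G.Subgraph where
  verts := Set.range φ
  Adj x y := G.Adj x y ∧ ∃ a b, F.Adj a b ∧ φ a = x ∧ φ b = y
  adj_sub := fun h => h.1
  edge_vert := by
    rintro x y ⟨_, a, b, _, ha, _⟩
    exact ⟨a, ha⟩
  symm := ⟨by
    rintro x y ⟨h, a, b, hab, ha, hb⟩
    exact ⟨h.symm, b, a, hab.symm, hb, ha⟩⟩

theorem toSub_adj {n : ℕ} {F : SimpleGraph (Fin n)} {V : Type} {G : SimpleGraph V}
    {φ : Fin n → V} (h : IsEmb F G φ) (a b : Fin n) :
    (toSub F G φ).Adj (φ a) (φ b) ↔ F.Adj a b := by
  constructor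
  · rintro ⟨_, a', b', hab, ha, hb⟩
    rw [h.1 ha, h.1 hb] at hab
    exact hab
  · intro hab
    exact ⟨h.2 a b hab, a, b, hab, rfl, rfl⟩

/-- the subgraph of an embedding is isomorphic to `F` -/
theorem toSub_iso {n : ℕ} {F : SimpleGraph (Fin n)} {V : Type} {G : SimpleGraph V}
    {φ : Fin n → V} (h : IsEmb F G φ) : Nonempty ((toSub F G φ).coe ≃g F) := by
  refine ⟨(RelIso.symm ⟨Equiv.ofInjective φ h.1, ?_⟩)⟩
  intro a b
  exact toSub_adj h a b

/-- every subgraph isomorphic to `F` comes from an embedding -/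
theorem exists_emb {n : ℕ} {F : SimpleGraph (Fin n)} {V : Type} {G : SimpleGraph V}
    (H : G.Subgraph) (e : H.coe ≃g F) : ∃ φ, IsEmb F G φ ∧ toSub F G φ = H := by
  refine ⟨fun a => (e.symm a : V), ⟨?_, ?_⟩, ?_⟩
  · intro a b hab
    exact e.symm.injective (Subtype.ext hab)
  · intro a b hab
    have : H.coe.Adj (e.symm a) (e.symm b) := e.symm.map_rel_iff.2 hab
    exact H.adj_sub this
  · ext x y
    · constructor
      · rintro ⟨a, rfl⟩
        exact (e.symm a).2
      · intro hx
        exact ⟨e ⟨x, hx⟩, by simp⟩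
    · constructor
      · rintro ⟨_, a, b, hab, rfl, rfl⟩
        exact e.symm.map_rel_iff.2 hab
      · intro hxy
        refine ⟨H.adj_sub hxy, e ⟨x, H.edge_vert hxy⟩, e ⟨y, H.edge_vert hxy.symm⟩, ?_, by simp,
          by simp⟩
        apply e.map_rel_iff.2
        exact hxy

/-- automorphisms of `F` as permutations -/
def Aut {n : ℕ} (F : SimpleGraph (Fin n)) (σ : Equiv.Perm (Fin n)) : Prop :=
  ∀ a b, F.Adj (σ a) (σ b) ↔ F.Adj a b

theorem emb_comp {n : ℕ} {F : SimpleGraph (Fin n)} {V : Type} {G : SimpleGraph V}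
    {φ : Fin n → V} (h : IsEmb F G φ) {σ : Equiv.Perm (Fin n)} (hσ : Aut F σ) :
    IsEmb F G (φ ∘ σ) ∧ toSub F G (φ ∘ σ) = toSub F G φ := by
  refine ⟨⟨h.1.comp σ.injective, fun a b hab => h.2 _ _ ((hσ a b).2 hab)⟩, ?_⟩
  ext x y
  · simp only [toSub]
    constructor
    · rintro ⟨a, rfl⟩
      exact ⟨σ a, rfl⟩
    · rintro ⟨a, rfl⟩
      exact ⟨σ.symm a, by simp⟩
  · constructor
    · rintro ⟨hG, a, b, hab, rfl, rfl⟩
      exact ⟨hG, σ a, σ b, (hσ a b).2 hab, rfl, rfl⟩
    · rintro ⟨hG, a, b, hab, rfl, rfl⟩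
      refine ⟨hG, σ.symm a, σ.symm b, ?_, by simp, by simp⟩
      rw [← hσ]
      simpa using hab

theorem exists_aut {n : ℕ} {F : SimpleGraph (Fin n)} {V : Type} {G : SimpleGraph V}
    {φ ψ : Fin n → V} (h : IsEmb F G φ) (h' : IsEmb F G ψ) (heq : toSub F G ψ = toSub F G φ) :
    ∃ σ : Equiv.Perm (Fin n), Aut F σ ∧ φ ∘ σ = ψ := by
  have hr : Set.range ψ = Set.range φ := congrArg SimpleGraph.Subgraph.verts heq
  have hex : ∀ a, ∃ b, φ b = ψ a := by
    intro a
    have : ψ a ∈ Set.range φ := hr ▸ ⟨a, rfl⟩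
    exact this
  choose s hs using hex
  have hinj : Function.Injective s := by
    intro a b hab
    apply h'.1
    rw [← hs a, ← hs b, hab]
  have hbij : Function.Bijective s := Finite.injective_iff_bijective.1 hinj
  refine ⟨Equiv.ofBijective s hbij, ?_, ?_⟩
  · intro a b
    simp only [Equiv.ofBijective_apply]
    rw [← toSub_adj h, hs, hs, ← heq, toSub_adj h']
  · funext a
    simp [hs]

theorem Nf_eq {n : ℕ} (F : SimpleGraph (Fin n)) {V : Type} [Fintype V] (G : SimpleGraph V)
    (v : V) : Nf F G v =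
      {H : G.Subgraph | Nonempty (H.coe ≃g F) ∧ v ∈ H.verts}.ncard *
        Nat.card {σ : Equiv.Perm (Fin n) // Aut F σ} := by
  classical
  have hfin : {H : G.Subgraph | Nonempty (H.coe ≃g F) ∧ v ∈ H.verts}.Finite := Set.toFinite _
  rw [Set.ncard_eq_toFinset_card _ hfin, Nf]
  rw [Finset.card_eq_sum_card_fiberwise (f := toSub F G) (t := hfin.toFinset)]
  · rw [← smul_eq_mul, ← Finset.sum_const]
    refine Finset.sum_congr rfl (fun H hH => ?_)
    rw [Set.Finite.mem_toFinset] at hH
    obtain ⟨⟨e⟩, hv⟩ := hH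
    obtain ⟨φ, hφ, hH⟩ := exists_emb H e
    rw [Nat.card_eq_fintype_card, Fintype.card_subtype]
    symm
    refine Finset.card_bij (fun σ _ => φ ∘ σ) ?_ ?_ ?_
    · intro σ hσ
      rw [mem_filter] at hσ
      obtain ⟨h1, h2⟩ := emb_comp hφ hσ.2
      rw [mem_filter, mem_Eset]
      refine ⟨⟨h1, ?_⟩, h2.trans hH⟩
      have : v ∈ (toSub F G (φ ∘ σ)).verts := by
        rw [h2, hH]
        exact hv
      exact this
    · intro σ _ τ _ hst
      ext a
      have := congrFun hst a
      exact congrArg Fin.val (hφ.1 this)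
    · intro ψ hψ
      rw [mem_filter, mem_Eset] at hψ
      obtain ⟨⟨h1, _⟩, h2⟩ := hψ
      obtain ⟨σ, hσ, hσ'⟩ := exists_aut hφ h1 (h2.trans hH.symm)
      exact ⟨σ, mem_filter.2 ⟨mem_univ _, hσ⟩, hσ'⟩
  · intro φ hφ
    rw [Finset.mem_coe, mem_Eset] at hφ
    rw [Finset.mem_coe, Set.Finite.mem_toFinset]
    exact ⟨toSub_iso hφ.1, hφ.2⟩

/-- transfer to `Fin m` -/
theorem exists_fin {n : ℕ} (F : SimpleGraph (Fin n)) {V : Type} [Fintype V] (G : SimpleGraph V)
    (hinj : Function.Injective (Nf F G)) (h2 : 2 ≤ Fintype.card V) :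
    ∃ (m : ℕ) (G' : SimpleGraph (Fin m)), 2 ≤ m ∧
        Function.Injective
          (fun v : Fin m =>
            {H : G'.Subgraph | Nonempty (H.coe ≃g F) ∧ v ∈ H.verts}.ncard) := by
  classical
  set e := Fintype.equivFin V with he
  refine ⟨Fintype.card V, G.comap e.symm, h2, ?_⟩
  have hN : ∀ v, Nf F (G.comap e.symm) v = Nf F G (e.symm v) := by
    intro v
    unfold Nf
    refine Finset.card_bij (fun φ _ => e.symm ∘ φ) ?_ ?_ ?_
    · intro φ hφ
      rw [mem_Eset] at hφ ⊢
      obtain ⟨⟨h1, h2⟩, a, ha⟩ := hφ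
      exact ⟨⟨e.symm.injective.comp h1, fun a b hab => h2 a b hab⟩, a, by simp [ha]⟩
    · intro φ _ ψ _ h
      funext a
      exact e.symm.injective (congrFun h a)
    · intro ψ hψ
      rw [mem_Eset] at hψ
      obtain ⟨⟨h1, h2⟩, a, ha⟩ := hψ
      refine ⟨e ∘ ψ, ?_, by funext a; simp⟩
      rw [mem_Eset]
      refine ⟨⟨e.injective.comp h1, fun a b hab => ?_⟩, a, by simp [ha]⟩
      simpa using h2 a b hab
  intro u v huv
  have : Nf F (G.comap e.symm) u = Nf F (G.comap e.symm) v := by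
    rw [Nf_eq, Nf_eq]
    simp only at huv
    rw [huv]
  rw [hN, hN] at this
  exact e.symm.injective (hinj this)

section diff

variable {n : ℕ} (F : SimpleGraph (Fin n)) {V : Type} [Fintype V] (G : SimpleGraph V)

open Classical in
/-- embeddings through `v`, not through `u`, that do not survive replacing `v` by `u` -/
noncomputable def bad (v u : V) : Finset (Fin n → V) :=
  univ.filter (fun φ : Fin n → V => IsEmb F G φ ∧ (∃ a, φ a = v) ∧ (∀ a, φ a ≠ u) ∧
    ∃ a b, F.Adj a b ∧ φ a = v ∧ ¬ G.Adj u (φ b))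

open Classical in
theorem Nf_split (v u : V) : Nf F G v =
    (univ.filter (fun φ : Fin n → V => IsEmb F G φ ∧ (∃ a, φ a = v) ∧ (∃ a, φ a = u))).card +
    (univ.filter (fun φ : Fin n → V => IsEmb F G φ ∧ (∃ a, φ a = v) ∧ (∀ a, φ a ≠ u) ∧
      ∀ a b, F.Adj a b → φ a = v → G.Adj u (φ b))).card + (bad F G v u).card := by
  rw [← Finset.card_union_of_disjoint, ← Finset.card_union_of_disjoint]
  · unfold Nf
    congr 1
    ext φ
    rw [mem_Eset]
    simp only [bad, mem_filter, mem_univ, true_and, mem_union]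
    constructor
    · rintro ⟨h1, h2⟩
      by_cases hu : ∃ a, φ a = u
      · exact Or.inl (Or.inl ⟨h1, h2, hu⟩)
      · have hu' : ∀ a, φ a ≠ u := fun a ha => hu ⟨a, ha⟩
        by_cases hg : ∀ a b, F.Adj a b → φ a = v → G.Adj u (φ b)
        · exact Or.inl (Or.inr ⟨h1, h2, hu', hg⟩)
        · push Not at hg
          obtain ⟨a, b, hab, ha, hb⟩ := hg
          exact Or.inr ⟨h1, h2, hu', a, b, hab, ha, hb⟩
    · rintro ((h | h) | h)
      · exact ⟨h.1, h.2.1⟩
      · exact ⟨h.1, h.2.1⟩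
      · exact ⟨h.1, h.2.1⟩
  · rw [Finset.disjoint_left]
    intro φ h1 h2
    simp only [bad, mem_filter, mem_univ, true_and, mem_union] at h1 h2
    obtain ⟨_, _, hu, a, b, hab, ha, hb⟩ := h2
    rcases h1 with ⟨_, _, c, hc⟩ | ⟨_, _, _, h⟩
    · exact hu c hc
    · exact hb (h a b hab ha)
  · rw [Finset.disjoint_left]
    intro φ h1 h2
    simp only [mem_filter, mem_univ, true_and] at h1 h2
    obtain ⟨_, _, c, hc⟩ := h1
    exact h2.2.2.1 c hc

omit [Fintype V] in
theorem swap_emb [DecidableEq V] {v u : V} {φ : Fin n → V} (h : IsEmb F G φ)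
    (hu : ∀ a, φ a ≠ u) (hg : ∀ a b, F.Adj a b → φ a = v → G.Adj u (φ b)) :
    IsEmb F G (Equiv.swap u v ∘ φ) := by
  refine ⟨(Equiv.swap u v).injective.comp h.1, fun a b hab => ?_⟩
  simp only [Function.comp]
  by_cases ha : φ a = v
  · have hb : φ b ≠ v := by
      intro hb
      exact hab.ne (h.1 (ha.trans hb.symm))
    rw [ha, Equiv.swap_apply_right, Equiv.swap_apply_of_ne_of_ne (hu b) hb]
    exact hg a b hab ha
  · by_cases hb : φ b = v
    · rw [hb, Equiv.swap_apply_right, Equiv.swap_apply_of_ne_of_ne (hu a) ha]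
      exact (hg b a hab.symm hb).symm
    · rw [Equiv.swap_apply_of_ne_of_ne (hu a) ha, Equiv.swap_apply_of_ne_of_ne (hu b) hb]
      exact h.2 a b hab

open Classical in
theorem good_le (v u : V) (huv : u ≠ v) :
    (univ.filter (fun φ : Fin n → V => IsEmb F G φ ∧ (∃ a, φ a = v) ∧ (∀ a, φ a ≠ u) ∧
      ∀ a b, F.Adj a b → φ a = v → G.Adj u (φ b))).card ≤
    (univ.filter (fun φ : Fin n → V => IsEmb F G φ ∧ (∃ a, φ a = u) ∧ (∀ a, φ a ≠ v) ∧
      ∀ a b, F.Adj a b → φ a = u → G.Adj v (φ b))).card := by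
  apply Finset.card_le_card_of_injOn (fun φ => Equiv.swap u v ∘ φ)
  · intro φ hφ
    rw [Finset.mem_coe, mem_filter] at hφ ⊢
    obtain ⟨_, h1, ⟨a, ha⟩, hu, hg⟩ := hφ
    have hv' : ∀ b, (Equiv.swap u v ∘ φ) b ≠ v := by
      intro b hb
      simp only [Function.comp] at hb
      rw [Equiv.swap_apply_eq_iff, Equiv.swap_apply_right] at hb
      exact hu b hb
    refine ⟨mem_univ _, swap_emb F G h1 hu hg, ⟨a, by simp [ha]⟩, hv', ?_⟩
    intro c d hcd hc
    simp only [Function.comp] at hc ⊢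
    rw [Equiv.swap_apply_eq_iff, Equiv.swap_apply_left] at hc
    have hd : φ d ≠ v := by
      intro hd
      exact hcd.ne (h1.1 (hc.trans hd.symm))
    rw [Equiv.swap_apply_of_ne_of_ne (hu d) hd, ← hc]
    exact h1.2 c d hcd
  · intro φ _ ψ _ h
    funext a
    exact (Equiv.swap u v).injective (congrFun h a)

/-- the basic comparison -/
theorem Nf_diff (v u : V) (huv : u ≠ v) :
    Nf F G u + (bad F G v u).card = Nf F G v + (bad F G u v).card := by
  classical
  have h1 := Nf_split F G v u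
  have h2 := Nf_split F G u v
  have h3 := good_le F G v u huv
  have h4 := good_le F G u v huv.symm
  have h5 : (univ.filter (fun φ : Fin n → V => IsEmb F G φ ∧ (∃ a, φ a = v) ∧ (∃ a, φ a = u))).card
      = (univ.filter (fun φ : Fin n → V => IsEmb F G φ ∧ (∃ a, φ a = u) ∧ (∃ a, φ a = v))).card := by
    congr 1
    ext φ
    simp only [mem_filter, mem_univ, true_and]
    tauto
  omega

theorem Nf_lt_of_bad (v u : V) (huv : u ≠ v) (h : (bad F G u v).card < (bad F G v u).card) :
    Nf F G u < Nf F G v := by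
  have := Nf_diff F G v u huv
  omega

/-- vicinal domination, strict version -/
theorem Nf_lt_of_dom (v u : V) (huv : u ≠ v) (hdom : ∀ x, x ≠ v → G.Adj u x → G.Adj v x)
    (hex : ∃ φ, IsEmb F G φ ∧ (∀ a, φ a ≠ u) ∧ ∃ a b, F.Adj a b ∧ φ a = v ∧ ¬ G.Adj u (φ b)) :
    Nf F G u < Nf F G v := by
  classical
  apply Nf_lt_of_bad F G v u huv
  have h0 : (bad F G u v).card = 0 := by
    rw [Finset.card_eq_zero, Finset.eq_empty_iff_forall_notMem]
    intro φ hφ
    simp only [bad, mem_filter, mem_univ, true_and] at hφ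
    obtain ⟨h1, _, hv, a, b, hab, ha, hb⟩ := hφ
    apply hb
    apply hdom _ (hv b)
    rw [← ha]
    exact h1.2 a b hab
  rw [h0, Finset.card_pos]
  obtain ⟨φ, h1, h2, a, b, hab, ha, hb⟩ := hex
  refine ⟨φ, ?_⟩
  simp only [bad, mem_filter, mem_univ, true_and]
  exact ⟨h1, ⟨a, ha⟩, h2, a, b, hab, ha, hb⟩

end diff

section counting

variable {n : ℕ} {V : Type} [Fintype V] [DecidableEq V]

/-- few functions have many values in a small set -/
theorem card_many (S : Finset V) (r : ℕ) :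
    (univ.filter (fun φ : Fin n → V => r ≤ (univ.filter (fun a => φ a ∈ S)).card)).card ≤
      n.choose r * (S.card ^ r * (Fintype.card V) ^ (n - r)) := by
  classical
  have hsub : (univ.filter (fun φ : Fin n → V => r ≤ (univ.filter (fun a => φ a ∈ S)).card)) ⊆
      (powersetCard r (univ : Finset (Fin n))).biUnion
        (fun P => Fintype.piFinset (fun a => if a ∈ P then S else univ)) := by
    intro φ hφ
    rw [mem_filter] at hφ
    obtain ⟨P, hP, hc⟩ := Finset.exists_subset_card_eq hφ.2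
    rw [mem_biUnion]
    refine ⟨P, mem_powersetCard.2 ⟨subset_univ _, hc⟩, ?_⟩
    rw [Fintype.mem_piFinset]
    intro a
    split_ifs with ha
    · exact (mem_filter.1 (hP ha)).2
    · exact mem_univ _
  refine (Finset.card_le_card hsub).trans (Finset.card_biUnion_le.trans ?_)
  have hc : ∀ P ∈ powersetCard r (univ : Finset (Fin n)),
      (Fintype.piFinset (fun a => if a ∈ P then S else (univ : Finset V))).card =
        S.card ^ r * (Fintype.card V) ^ (n - r) := by
    intro P hP
    rw [mem_powersetCard] at hP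
    rw [Fintype.card_piFinset]
    have : ∀ a, (if a ∈ P then S else (univ : Finset V)).card =
        if a ∈ P then S.card else Fintype.card V := by
      intro a
      split_ifs <;> simp
    simp_rw [this]
    rw [Finset.prod_ite, Finset.prod_const, Finset.prod_const]
    congr 2
    · rw [← hP.2]
      congr 1
      ext a
      simp
    · have : (univ.filter (fun a => a ∉ P)) = Pᶜ := by
        ext a
        simp
      rw [this, Finset.card_compl, Fintype.card_fin, hP.2]
  rw [Finset.sum_congr rfl hc, Finset.sum_const, Finset.card_powersetCard, Finset.card_univ,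
    Fintype.card_fin, smul_eq_mul]

omit [Fintype V] [DecidableEq V] in
/-- embeddings with prescribed values on `P` and the other values in a clique `T` -/
theorem card_pinned (F : SimpleGraph (Fin n)) (G : SimpleGraph V) (P : Finset (Fin n))
    (φ0 : Fin n → V) (T : Finset V)
    (h1 : ∀ a ∈ P, ∀ b ∈ P, φ0 a = φ0 b → a = b) (h2 : ∀ a ∈ P, φ0 a ∉ T)
    (h3 : ∀ a ∈ P, ∀ b ∈ P, F.Adj a b → G.Adj (φ0 a) (φ0 b))
    (h4 : ∀ a ∈ P, ∀ b, b ∉ P → F.Adj a b → ∀ t ∈ T, G.Adj (φ0 a) t)
    (h5 : ∀ s ∈ T, ∀ t ∈ T, s ≠ t → G.Adj s t)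
    (A : Finset (Fin n → V)) (hA : ∀ φ, IsEmb F G φ → (∀ a ∈ P, φ a = φ0 a) →
      (∀ a, a ∉ P → φ a ∈ T) → φ ∈ A) :
    T.card.descFactorial (n - P.card) ≤ A.card := by
  classical
  have hcard : Fintype.card ({a : Fin n // a ∉ P} ↪ {t : V // t ∈ T}) =
      T.card.descFactorial (n - P.card) := by
    rw [Fintype.card_embedding_eq, Fintype.card_coe]
    congr 1
    rw [Fintype.card_subtype]
    have : (univ.filter (fun a => a ∉ P)) = Pᶜ := by
      ext a
      simp
    rw [this, Finset.card_compl, Fintype.card_fin]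
  rw [← hcard, ← Finset.card_univ]
  let f : ({a : Fin n // a ∉ P} ↪ {t : V // t ∈ T}) → (Fin n → V) := fun g a =>
    if h : a ∈ P then φ0 a else (g ⟨a, h⟩ : V)
  have fP : ∀ g a, a ∈ P → f g a = φ0 a := by
    intro g a ha
    simp [f, ha]
  have fn : ∀ g a (ha : a ∉ P), f g a = (g ⟨a, ha⟩ : V) := by
    intro g a ha
    simp [f, ha]
  apply Finset.card_le_card_of_injOn f
  · intro g _
    rw [Finset.mem_coe]
    apply hA
    · refine ⟨?_, ?_⟩
      · intro a b hab
        by_cases ha : a ∈ P <;> by_cases hb : b ∈ P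
        · rw [fP g a ha, fP g b hb] at hab
          exact h1 a ha b hb hab
        · rw [fP g a ha, fn g b hb] at hab
          exact absurd (hab ▸ (g ⟨b, hb⟩).2) (h2 a ha)
        · rw [fn g a ha, fP g b hb] at hab
          exact absurd (hab ▸ (g ⟨a, ha⟩).2) (h2 b hb)
        · rw [fn g a ha, fn g b hb] at hab
          have := g.injective (Subtype.ext hab)
          exact congrArg Subtype.val this
      · intro a b hab
        by_cases ha : a ∈ P <;> by_cases hb : b ∈ P
        · rw [fP g a ha, fP g b hb]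
          exact h3 a ha b hb hab
        · rw [fP g a ha, fn g b hb]
          exact h4 a ha b hb hab _ (g ⟨b, hb⟩).2
        · rw [fn g a ha, fP g b hb]
          exact (h4 b hb a ha hab.symm _ (g ⟨a, ha⟩).2).symm
        · rw [fn g a ha, fn g b hb]
          apply h5 _ (g ⟨a, ha⟩).2 _ (g ⟨b, hb⟩).2
          intro h
          have := g.injective (Subtype.ext h)
          exact hab.ne (congrArg Subtype.val this)
    · exact fun a ha => fP g a ha
    · intro a ha
      rw [fn g a ha]
      exact (g ⟨a, ha⟩).2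
  · intro g _ g' _ h
    ext ⟨a, ha⟩
    have := congrFun h a
    rw [fn g a ha, fn g' a ha] at this
    exact this

end counting

end Pool.Agent.Helper517.FIrr
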