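import Pool.Agent.Helper517.FIrrA

set_option autoImplicit false

namespace Pool.Agent.Helper517.FIrr

open Finset

section star

variable {n : ℕ} {V : Type}

open Classical in
/-- neighbours of a vertex of `F` -/
noncomputable def nb (F : SimpleGraph (Fin n)) (a : Fin n) : Finset (Fin n) :=
  univ.filter (fun b => F.Adj a b)

theorem mem_nb {F : SimpleGraph (Fin n)} {a b : Fin n} : b ∈ nb F a ↔ F.Adj a b := by
  simp [nb]

theorem not_mem_nb_self (F : SimpleGraph (Fin n)) (a : Fin n) : a ∉ nb F a := by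
  rw [mem_nb]
  exact fun h => h.ne rfl

theorem card_star [DecidableEq V] (F : SimpleGraph (Fin n)) (G : SimpleGraph V) (y0 : Fin n)
    (c : V) (S T : Finset V) (hS : S.card = (nb F y0).card)
    (hcS : c ∉ S) (hcT : c ∉ T) (hST : Disjoint S T)
    (h1 : ∀ x ∈ S, G.Adj c x) (h2 : ∀ x ∈ S, ∀ y ∈ S, x ≠ y → G.Adj x y)
    (h3 : ∀ x ∈ S, ∀ y ∈ T, G.Adj x y) (h4 : ∀ s ∈ T, ∀ t ∈ T, s ≠ t → G.Adj s t)
    (A : Finset (Fin n → V)) (hA : ∀ φ, IsEmb F G φ → φ y0 = c →
      (∀ x ∈ S, ∃ a, F.Adj y0 a ∧ φ a = x) → (∀ a, φ a = c ∨ φ a ∈ S ∨ φ a ∈ T) → φ ∈ A) :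
    T.card.descFactorial (n - ((nb F y0).card + 1)) ≤ A.card := by
  classical
  have e := Finset.equivOfCardEq hS.symm
  set P : Finset (Fin n) := insert y0 (nb F y0) with hP
  have hPc : P.card = (nb F y0).card + 1 := by
    rw [hP, Finset.card_insert_of_notMem (not_mem_nb_self F y0)]
  let φ0 : Fin n → V := fun a => if h : a ∈ nb F y0 then (e ⟨a, h⟩ : V) else c
  have f1 : φ0 y0 = c := by
    simp [φ0, not_mem_nb_self]
  have f2 : ∀ a (ha : a ∈ nb F y0), φ0 a = (e ⟨a, ha⟩ : V) := by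
    intro a ha
    simp [φ0, ha]
  have f3 : ∀ a ∈ nb F y0, φ0 a ∈ S := by
    intro a ha
    rw [f2 a ha]
    exact (e ⟨a, ha⟩).2
  have f4 : ∀ a ∈ nb F y0, ∀ b ∈ nb F y0, φ0 a = φ0 b → a = b := by
    intro a ha b hb hab
    rw [f2 a ha, f2 b hb] at hab
    have := e.injective (Subtype.ext hab)
    exact congrArg Subtype.val this
  rw [← hPc]
  apply card_pinned F G P φ0 T
  · intro a ha b hb hab
    rw [hP, mem_insert] at ha hb
    rcases ha with rfl | ha <;> rcases hb with rfl | hb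
    · rfl
    · rw [f1] at hab
      exact absurd (hab ▸ f3 b hb) hcS
    · rw [f1] at hab
      exact absurd (hab ▸ f3 a ha) hcS
    · exact f4 a ha b hb hab
  · intro a ha
    rw [hP, mem_insert] at ha
    rcases ha with rfl | ha
    · rwa [f1]
    · exact Finset.disjoint_left.1 hST (f3 a ha)
  · intro a ha b hb hab
    rw [hP, mem_insert] at ha hb
    rcases ha with rfl | ha <;> rcases hb with rfl | hb
    · exact absurd rfl hab.ne
    · rw [f1]
      exact h1 _ (f3 b hb)
    · rw [f1]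
      exact (h1 _ (f3 a ha)).symm
    · exact h2 _ (f3 a ha) _ (f3 b hb) (fun h => hab.ne (f4 a ha b hb h))
  · intro a ha b hb hab t ht
    rw [hP, mem_insert] at ha hb
    rcases ha with rfl | ha
    · exact absurd (Or.inr (mem_nb.2 hab)) hb
    · exact h3 _ (f3 a ha) t ht
  · exact h4
  · intro φ hφ hφP hφT
    apply hA φ hφ
    · rw [hφP y0 (mem_insert_self _ _), f1]
    · intro x hx
      obtain ⟨a, ha⟩ := e.surjective ⟨x, hx⟩
      refine ⟨a.1, mem_nb.1 a.2, ?_⟩
      rw [hφP a.1 (mem_insert_of_mem a.2), f2 a.1 a.2]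
      exact congrArg Subtype.val ha
    · intro a
      by_cases ha : a ∈ P
      · rw [hφP a ha]
        rw [hP, mem_insert] at ha
        rcases ha with rfl | ha
        · exact Or.inl f1
        · exact Or.inr (Or.inl (f3 a ha))
      · exact Or.inr (Or.inr (hφT a ha))

theorem star_exists [Fintype V] [DecidableEq V] (F : SimpleGraph (Fin n)) (G : SimpleGraph V)
    (y0 : Fin n) (c : V) (S T : Finset V) (hS : S.card = (nb F y0).card)
    (hcS : c ∉ S) (hcT : c ∉ T) (hST : Disjoint S T)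
    (h1 : ∀ x ∈ S, G.Adj c x) (h2 : ∀ x ∈ S, ∀ y ∈ S, x ≠ y → G.Adj x y)
    (h3 : ∀ x ∈ S, ∀ y ∈ T, G.Adj x y) (h4 : ∀ s ∈ T, ∀ t ∈ T, s ≠ t → G.Adj s t)
    (hT : n ≤ T.card + 1) :
    ∃ φ, IsEmb F G φ ∧ φ y0 = c ∧
      (∀ x ∈ S, ∃ a, F.Adj y0 a ∧ φ a = x) ∧ (∀ a, φ a = c ∨ φ a ∈ S ∨ φ a ∈ T) := by
  classical
  have h := card_star F G y0 c S T hS hcS hcT hST h1 h2 h3 h4
    (univ.filter (fun φ => IsEmb F G φ ∧ φ y0 = c ∧
      (∀ x ∈ S, ∃ a, F.Adj y0 a ∧ φ a = x) ∧ (∀ a, φ a = c ∨ φ a ∈ S ∨ φ a ∈ T)))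
    (fun φ g1 g2 g3 g4 => mem_filter.2 ⟨mem_univ _, g1, g2, g3, g4⟩)
  have hpos : 0 < T.card.descFactorial (n - ((nb F y0).card + 1)) :=
    Nat.descFactorial_pos.2 (by omega)
  obtain ⟨φ, hφ⟩ := Finset.card_pos.1 (hpos.trans_le h)
  exact ⟨φ, (mem_filter.1 hφ).2⟩

end star

/-- the vertices of the construction -/
inductive Vtx (D O : Type) (b : ℕ) : Type
  | d (q : D) | o (c : O) | s | t (i : Fin (b + 1)) | w (j : Fin (b + 1))
  deriving DecidableEq, Fintype

def vequiv (D O : Type) (b : ℕ) : Vtx D O b ≃ (D ⊕ O) ⊕ (Unit ⊕ (Fin (b+1) ⊕ Fin (b+1))) where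
  toFun v := match v with
    | .d q => Sum.inl (Sum.inl q)
    | .o c => Sum.inl (Sum.inr c)
    | .s => Sum.inr (Sum.inl ())
    | .t i => Sum.inr (Sum.inr (Sum.inl i))
    | .w j => Sum.inr (Sum.inr (Sum.inr j))
  invFun v := match v with
    | Sum.inl (Sum.inl q) => .d q
    | Sum.inl (Sum.inr c) => .o c
    | Sum.inr (Sum.inl ()) => .s
    | Sum.inr (Sum.inr (Sum.inl i)) => .t i
    | Sum.inr (Sum.inr (Sum.inr j)) => .w j
  left_inv := by rintro (_ | _ | _ | _ | _) <;> rfl
  right_inv := by rintro ((_ | _) | (_ | (_ | _))) <;> rfl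

theorem card_vtx (D O : Type) [Fintype D] [Fintype O] (b : ℕ) :
    Fintype.card (Vtx D O b) = Fintype.card D + Fintype.card O + 1 + 2 * (b + 1) := by
  rw [Fintype.card_congr (vequiv D O b)]
  simp only [Fintype.card_sum, Fintype.card_unit, Fintype.card_fin]
  ring

/-- adjacency of the construction -/
def vadj {D O : Type} {b : ℕ} (R : O → Finset D) (S : Finset D) :
    Vtx D O b → Vtx D O b → Prop
  | .d q, .d q' => q ≠ q'
  | .d q, .o c => q ∈ R c
  | .o c, .d q => q ∈ R c
  | .d q, .s => q ∈ S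
  | .s, .d q => q ∈ S
  | .d _, .t _ => True
  | .t _, .d _ => True
  | .d _, .w _ => True
  | .w _, .d _ => True
  | .t i, .t i' => i ≠ i'
  | .t i, .w j => i.1 < j.1
  | .w j, .t i => i.1 < j.1
  | .t i, .s => i.1 = b
  | .s, .t i => i.1 = b
  | _, _ => False

/-- the graph of the construction -/
def VG {D O : Type} (b : ℕ) (R : O → Finset D) (S : Finset D) : SimpleGraph (Vtx D O b) where
  Adj := vadj R S
  symm := ⟨by
    rintro (_ | _ | _ | _ | _) (_ | _ | _ | _ | _) h <;>
      first | exact h | exact Ne.symm h⟩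
  loopless := ⟨by
    rintro (_ | _ | _ | _ | _) h <;> first | exact h | exact h rfl⟩

section graph

variable {D O : Type} {b : ℕ} {R : O → Finset D} {S : Finset D}

theorem adj_iff (u v : Vtx D O b) : (VG b R S).Adj u v ↔ vadj R S u v := Iff.rfl

/-- a set of `t`-vertices -/
def TS [DecidableEq D] [DecidableEq O] (I : Finset (Fin (b + 1))) : Finset (Vtx D O b) :=
  I.image Vtx.t

/-- a set of `d`-vertices -/
def DS [DecidableEq D] [DecidableEq O] (Q : Finset D) : Finset (Vtx D O b) :=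
  Q.image Vtx.d

variable [DecidableEq D] [DecidableEq O]

theorem card_TS (I : Finset (Fin (b + 1))) : (TS I : Finset (Vtx D O b)).card = I.card :=
  Finset.card_image_of_injective _ (fun _ _ h => by injection h)

theorem card_DS (Q : Finset D) : (DS Q : Finset (Vtx D O b)).card = Q.card :=
  Finset.card_image_of_injective _ (fun _ _ h => by injection h)

theorem mem_TS {I : Finset (Fin (b + 1))} {v : Vtx D O b} :
    v ∈ TS I ↔ ∃ i ∈ I, Vtx.t i = v := by
  simp [TS]

theorem mem_DS {Q : Finset D} {v : Vtx D O b} : v ∈ DS Q ↔ ∃ q ∈ Q, Vtx.d q = v := by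
  simp [DS]

theorem TS_clique (I : Finset (Fin (b + 1))) :
    ∀ x ∈ (TS I : Finset (Vtx D O b)), ∀ y ∈ (TS I : Finset (Vtx D O b)), x ≠ y →
      (VG b R S).Adj x y := by
  intro x hx y hy hxy
  obtain ⟨i, _, rfl⟩ := mem_TS.1 hx
  obtain ⟨j, _, rfl⟩ := mem_TS.1 hy
  exact fun h => hxy (by rw [h])

theorem DS_clique (Q : Finset D) :
    ∀ x ∈ (DS Q : Finset (Vtx D O b)), ∀ y ∈ (DS Q : Finset (Vtx D O b)), x ≠ y →
      (VG b R S).Adj x y := by
  intro x hx y hy hxy
  obtain ⟨i, _, rfl⟩ := mem_DS.1 hx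
  obtain ⟨j, _, rfl⟩ := mem_DS.1 hy
  exact fun h => hxy (by rw [h])

theorem DS_TS (Q : Finset D) (I : Finset (Fin (b + 1))) :
    ∀ x ∈ (DS Q : Finset (Vtx D O b)), ∀ y ∈ (TS I : Finset (Vtx D O b)), (VG b R S).Adj x y := by
  intro x hx y hy
  obtain ⟨i, _, rfl⟩ := mem_DS.1 hx
  obtain ⟨j, _, rfl⟩ := mem_TS.1 hy
  trivial

theorem DS_TS_disjoint (Q : Finset D) (I : Finset (Fin (b + 1))) :
    Disjoint (DS Q : Finset (Vtx D O b)) (TS I) := by
  rw [Finset.disjoint_left]
  intro x hx hy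
  obtain ⟨i, _, rfl⟩ := mem_DS.1 hx
  obtain ⟨j, _, h⟩ := mem_TS.1 hy
  cases h

variable [Fintype D] [Fintype O]

/-- star embeddings with the neighbours in `D` -/
theorem star_D {n : ℕ} (F : SimpleGraph (Fin n)) (y0 : Fin n) (c : Vtx D O b) (Q : Finset D)
    (I : Finset (Fin (b + 1))) (hQ : Q.card = (nb F y0).card) (hc : c ∉ TS I)
    (h1 : ∀ q ∈ Q, (VG b R S).Adj c (.d q)) (hI : n ≤ I.card + 1) :
    ∃ φ, IsEmb F (VG b R S) φ ∧ φ y0 = c ∧
      (∀ q ∈ Q, ∃ a, F.Adj y0 a ∧ φ a = .d q) ∧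
      (∀ a, φ a = c ∨ (∃ q ∈ Q, .d q = φ a) ∨ (∃ i ∈ I, .t i = φ a)) := by
  obtain ⟨φ, g1, g2, g3, g4⟩ := star_exists F (VG b R S) y0 c (DS Q) (TS I)
    (by rw [card_DS, hQ]) (by
      intro h
      obtain ⟨q, hq, rfl⟩ := mem_DS.1 h
      exact (h1 q hq).ne rfl) hc (DS_TS_disjoint Q I)
    (by
      intro x hx
      obtain ⟨q, hq, rfl⟩ := mem_DS.1 hx
      exact h1 q hq) (DS_clique Q) (DS_TS Q I) (TS_clique I) (by rw [card_TS]; exact hI)
  refine ⟨φ, g1, g2, ?_, ?_⟩
  · intro q hq
    exact g3 _ (mem_DS.2 ⟨q, hq, rfl⟩)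
  · intro a
    rcases g4 a with h | h | h
    · exact Or.inl h
    · exact Or.inr (Or.inl (mem_DS.1 h))
    · exact Or.inr (Or.inr (mem_TS.1 h))

/-- star embeddings with one neighbour `t k` and the other neighbours in `D` -/
theorem star_tD {n : ℕ} (F : SimpleGraph (Fin n)) (y0 : Fin n) (c : Vtx D O b) (Q : Finset D)
    (k : Fin (b + 1))
    (I : Finset (Fin (b + 1))) (hQ : Q.card + 1 = (nb F y0).card) (hc : c ∉ TS I) (hk : k ∉ I)
    (h1 : ∀ q ∈ Q, (VG b R S).Adj c (.d q)) (h2 : (VG b R S).Adj c (.t k))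
    (hI : n ≤ I.card + 1) :
    ∃ φ, IsEmb F (VG b R S) φ ∧ φ y0 = c ∧ (∃ a, F.Adj y0 a ∧ φ a = .t k) ∧
      (∀ q ∈ Q, ∃ a, F.Adj y0 a ∧ φ a = .d q) ∧
      (∀ a, φ a = c ∨ (∃ q ∈ Q, .d q = φ a) ∨ φ a = .t k ∨ (∃ i ∈ I, .t i = φ a)) := by
  have hk' : (Vtx.t k : Vtx D O b) ∉ DS Q := by
    intro h
    obtain ⟨q, _, h⟩ := mem_DS.1 h
    cases h
  obtain ⟨φ, g1, g2, g3, g4⟩ := star_exists F (VG b R S) y0 c (insert (.t k) (DS Q)) (TS I)
    (by rw [Finset.card_insert_of_notMem hk', card_DS, hQ]) (by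
      intro h
      rw [mem_insert] at h
      rcases h with rfl | h
      · exact h2.ne rfl
      · obtain ⟨q, hq, rfl⟩ := mem_DS.1 h
        exact (h1 q hq).ne rfl) hc
    (by
      rw [Finset.disjoint_insert_left]
      refine ⟨?_, DS_TS_disjoint Q I⟩
      intro h
      obtain ⟨i, hi, h⟩ := mem_TS.1 h
      injection h with h
      exact hk (h ▸ hi))
    (by
      intro x hx
      rw [mem_insert] at hx
      rcases hx with rfl | hx
      · exact h2
      · obtain ⟨q, hq, rfl⟩ := mem_DS.1 hx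
        exact h1 q hq)
    (by
      intro x hx y hy hxy
      rw [mem_insert] at hx hy
      rcases hx with rfl | hx <;> rcases hy with rfl | hy
      · exact absurd rfl hxy
      · obtain ⟨q, hq, rfl⟩ := mem_DS.1 hy
        trivial
      · obtain ⟨q, hq, rfl⟩ := mem_DS.1 hx
        trivial
      · exact DS_clique Q x hx y hy hxy)
    (by
      intro x hx y hy
      rw [mem_insert] at hx
      rcases hx with rfl | hx
      · obtain ⟨i, hi, rfl⟩ := mem_TS.1 hy
        intro h
        exact hk (h ▸ hi)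
      · exact DS_TS Q I x hx y hy) (TS_clique I) (by rw [card_TS]; exact hI)
  refine ⟨φ, g1, g2, g3 _ (mem_insert_self _ _), ?_, ?_⟩
  · intro q hq
    exact g3 _ (mem_insert_of_mem (mem_DS.2 ⟨q, hq, rfl⟩))
  · intro a
    rcases g4 a with h | h | h
    · exact Or.inl h
    · rw [mem_insert] at h
      rcases h with h | h
      · exact Or.inr (Or.inr (Or.inl h))
      · exact Or.inr (Or.inl (mem_DS.1 h))
    · exact Or.inr (Or.inr (Or.inr (mem_TS.1 h)))

/-- indices below `b` outside a small set -/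
def II (b : ℕ) (X : Finset (Fin (b + 1))) : Finset (Fin (b + 1)) :=
  univ.filter (fun i => i.1 < b ∧ i ∉ X)

theorem mem_II {b : ℕ} {X : Finset (Fin (b + 1))} {i : Fin (b + 1)} :
    i ∈ II b X ↔ i.1 < b ∧ i ∉ X := by
  simp [II]

theorem card_II (b : ℕ) (X : Finset (Fin (b + 1))) : b ≤ (II b X).card + X.card := by
  have h1 : (univ : Finset (Fin (b + 1))) ⊆ II b X ∪ X ∪ {Fin.last b} := by
    intro i _
    rw [mem_union, mem_union, mem_II, mem_singleton]
    by_cases hX : i ∈ X
    · exact Or.inl (Or.inr hX)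
    · by_cases hi : i.1 < b
      · exact Or.inl (Or.inl ⟨hi, hX⟩)
      · right
        apply Fin.ext
        rw [Fin.val_last]
        have := i.2
        omega
  have h2 := Finset.card_le_card h1
  have h3 := Finset.card_union_le (II b X ∪ X) {Fin.last b}
  have h4 := Finset.card_union_le (II b X) X
  rw [Finset.card_univ, Fintype.card_fin] at h2
  rw [Finset.card_singleton] at h3
  omega

section compare

variable {n : ℕ} (F : SimpleGraph (Fin n)) (y0 : Fin n)

/-- `w`-chain -/
theorem w_lt (hS : S.card + 1 = (nb F y0).card) (hb : n ≤ b) (j : Fin b) :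
    Nf F (VG b R S : SimpleGraph (Vtx D O b)) (.w j.castSucc) < Nf F (VG b R S) (.w j.succ) := by
  apply Nf_lt_of_dom
  · intro h
    injection h with h
    exact absurd h (Fin.castSucc_lt_succ).ne
  · rintro (q | c | _ | i | k) hx h
    · trivial
    · exact h
    · exact h
    · have h' : i.1 < j.castSucc.1 := h
      show i.1 < j.succ.1
      simp only [Fin.val_castSucc, Fin.val_succ] at h' ⊢
      omega
    · exact h
  · obtain ⟨φ, g1, g2, ⟨a, ha, ha'⟩, _, g5⟩ := star_tD (R := R) (S := S) F y0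
      (.w j.succ) S j.castSucc (II b {j.castSucc}) hS
      (by
        intro h
        obtain ⟨i, _, h⟩ := mem_TS.1 h
        cases h)
      (by
        rw [mem_II]
        simp)
      (fun q _ => trivial)
      (by
        show j.castSucc.1 < j.succ.1
        simp)
      (by
        have := card_II b {j.castSucc}
        rw [Finset.card_singleton] at this
        omega)
    refine ⟨φ, g1, ?_, y0, a, ha, g2, ?_⟩
    · intro x hx
      rcases g5 x with h | ⟨q, _, h⟩ | h | ⟨i, _, h⟩
      · rw [hx] at h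
        injection h with h
        exact absurd h (Fin.castSucc_lt_succ).ne
      · rw [hx] at h
        cases h
      · rw [hx] at h
        cases h
      · rw [hx] at h
        cases h
    · rw [ha']
      intro h
      have h' : j.castSucc.1 < j.castSucc.1 := h
      omega

/-- the centre -/
theorem wt_lt (hS : S.card + 1 = (nb F y0).card) (hb : n ≤ b) :
    Nf F (VG b R S : SimpleGraph (Vtx D O b)) (.w (Fin.last b)) <
      Nf F (VG b R S) (.t (Fin.last b)) := by
  apply Nf_lt_of_dom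
  · intro h
    cases h
  · rintro (q | c | _ | i | k) hx h
    · trivial
    · exact h
    · exact h.elim
    · have h' : i.1 < (Fin.last b).1 := h
      show Fin.last b ≠ i
      intro hh
      rw [hh] at h'
      omega
    · exact h.elim
  · obtain ⟨φ, g1, g2, ⟨a, ha, ha'⟩, _, g5⟩ := star_tD (R := R) (S := S) F y0
      .s S (Fin.last b) (II b ∅) hS
      (by
        intro h
        obtain ⟨i, _, h⟩ := mem_TS.1 h
        cases h)
      (by
        rw [mem_II]
        simp)
      (fun q hq => hq)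
      rfl
      (by
        have := card_II b ∅
        rw [Finset.card_empty] at this
        omega)
    refine ⟨φ, g1, ?_, a, y0, ha.symm, ha', ?_⟩
    · intro x hx
      rcases g5 x with h | ⟨q, _, h⟩ | h | ⟨i, _, h⟩ <;>
      · rw [hx] at h
        cases h
    · rw [g2]
      exact fun h => h

/-- `t`-chain -/
theorem t_lt (hS : S.card + 1 = (nb F y0).card) (hb : n + 1 ≤ b) (i : Fin b) (hi : i.1 + 1 < b) :
    Nf F (VG b R S : SimpleGraph (Vtx D O b)) (.t i.succ) < Nf F (VG b R S) (.t i.castSucc) := by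
  apply Nf_lt_of_dom
  · intro h
    injection h with h
    exact absurd h.symm (Fin.castSucc_lt_succ).ne
  · rintro (q | c | _ | k | k) hx h
    · trivial
    · exact h
    · have h' : i.succ.1 = b := h
      rw [Fin.val_succ] at h'
      omega
    · show i.castSucc ≠ k
      intro hh
      exact hx (by rw [hh])
    · have h' : i.succ.1 < k.1 := h
      show i.castSucc.1 < k.1
      simp only [Fin.val_castSucc, Fin.val_succ] at h' ⊢
      omega
  · obtain ⟨φ, g1, g2, ⟨a, ha, ha'⟩, _, g5⟩ := star_tD (R := R) (S := S) F y0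
      (.w i.succ) S i.castSucc (II b {i.castSucc, i.succ}) hS
      (by
        intro h
        obtain ⟨i, _, h⟩ := mem_TS.1 h
        cases h)
      (by
        rw [mem_II]
        simp)
      (fun q hq => trivial)
      (by
        show i.castSucc.1 < i.succ.1
        simp)
      (by
        have := card_II b {i.castSucc, i.succ}
        have h2 := Finset.card_le_two (a := i.castSucc) (b := i.succ)
        omega)
    refine ⟨φ, g1, ?_, a, y0, ha.symm, ha', ?_⟩
    · intro x hx
      rcases g5 x with h | ⟨q, _, h⟩ | h | ⟨k, hk, h⟩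
      · rw [hx] at h
        cases h
      · rw [hx] at h
        cases h
      · rw [hx] at h
        injection h with h
        exact absurd h.symm (Fin.castSucc_lt_succ).ne
      · rw [hx] at h
        injection h with h
        rw [mem_II, h] at hk
        exact hk.2 (by simp)
    · rw [g2]
      intro h
      have h' : i.succ.1 < i.succ.1 := h
      omega

omit [DecidableEq D] [Fintype D] in
theorem exists_Q (q : D) (Q : Finset D) (hq : q ∈ Q) (m : ℕ) (hm : 1 ≤ m) (hQ : m ≤ Q.card) :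
    ∃ Q' : Finset D, q ∈ Q' ∧ Q' ⊆ Q ∧ Q'.card = m := by
  obtain ⟨Q', h1, h2, h3⟩ := Finset.exists_subsuperset_card_eq
    (Finset.singleton_subset_iff.2 hq) (by rw [Finset.card_singleton]; exact hm) hQ
  exact ⟨Q', Finset.singleton_subset_iff.1 h1, h2, h3⟩

/-- `t 0` below `D` -/
theorem td_lt (hδ : 1 ≤ (nb F y0).card) (hD : (nb F y0).card ≤ Fintype.card D) (hb : n ≤ b)
    (hb1 : 1 ≤ b) (q : D) :
    Nf F (VG b R S : SimpleGraph (Vtx D O b)) (.t 0) < Nf F (VG b R S) (.d q) := by
  apply Nf_lt_of_dom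
  · intro h
    cases h
  · rintro (q' | c | _ | k | k) hx h
    · show q ≠ q'
      intro hh
      exact hx (by rw [hh])
    · exact h.elim
    · have h' : (0 : Fin (b + 1)).1 = b := h
      simp at h'
      omega
    · trivial
    · trivial
  · obtain ⟨Q, hq, _, hQ⟩ := exists_Q q univ (mem_univ q) _ hδ hD
    obtain ⟨φ, g1, g2, g3, g4⟩ := star_D (R := R) (S := S) F y0
      (.w 0) Q (II b {0}) hQ
      (by
        intro h
        obtain ⟨i, _, h⟩ := mem_TS.1 h
        cases h)
      (fun q _ => trivial)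
      (by
        have := card_II b {0}
        rw [Finset.card_singleton] at this
        omega)
    obtain ⟨a, ha, ha'⟩ := g3 q hq
    refine ⟨φ, g1, ?_, a, y0, ha.symm, ha', ?_⟩
    · intro x hx
      rcases g4 x with h | ⟨q, _, h⟩ | ⟨k, hk, h⟩
      · rw [hx] at h
        cases h
      · rw [hx] at h
        cases h
      · rw [hx] at h
        injection h with h
        rw [mem_II, h] at hk
        exact hk.2 (by simp)
    · rw [g2]
      intro h
      have h' : (0 : Fin (b + 1)).1 < (0 : Fin (b + 1)).1 := h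
      omega

/-- `O` below `w 0` -/
theorem ow_lt (hδ : 1 ≤ (nb F y0).card) (hD : (nb F y0).card ≤ Fintype.card D) (hb : n ≤ b)
    (c : O) (hc : ∃ q, q ∉ R c) :
    Nf F (VG b R S : SimpleGraph (Vtx D O b)) (.o c) < Nf F (VG b R S) (.w 0) := by
  obtain ⟨q, hqc⟩ := hc
  apply Nf_lt_of_dom
  · intro h
    cases h
  · rintro (q' | c | _ | k | k) hx h
    · trivial
    · exact h.elim
    · exact h.elim
    · exact h.elim
    · exact h.elim
  · obtain ⟨Q, hq, _, hQ⟩ := exists_Q q univ (mem_univ q) _ hδ hD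
    obtain ⟨φ, g1, g2, g3, g4⟩ := star_D (R := R) (S := S) F y0
      (.w 0) Q (II b ∅) hQ
      (by
        intro h
        obtain ⟨i, _, h⟩ := mem_TS.1 h
        cases h)
      (fun q _ => trivial)
      (by
        have := card_II b ∅
        rw [Finset.card_empty] at this
        omega)
    obtain ⟨a, ha, ha'⟩ := g3 q hq
    refine ⟨φ, g1, ?_, y0, a, ha, g2, ?_⟩
    · intro x hx
      rcases g4 x with h | ⟨q, _, h⟩ | ⟨k, hk, h⟩ <;>
      · rw [hx] at h
        cases h
    · rw [ha']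
      exact hqc

/-- two `d`-vertices, nested case -/
theorem dd_lt_sup (hδ : 1 ≤ (nb F y0).card) (hb : n ≤ b) (q q' : D)
    (hsub : ∀ c, q' ∈ R c → q ∈ R c) (h0 : q' ∈ S → q ∈ S) (c : O) (hc : q ∈ R c)
    (hc' : q' ∉ R c) (hcol : (nb F y0).card ≤ (R c).card) :
    Nf F (VG b R S : SimpleGraph (Vtx D O b)) (.d q') < Nf F (VG b R S) (.d q) := by
  apply Nf_lt_of_dom
  · intro h
    injection h with h
    rw [h] at hc'
    exact hc' hc
  · rintro (p | c | _ | k | k) hx h
    · show q ≠ p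
      intro hh
      exact hx (by rw [hh])
    · exact hsub c h
    · exact h0 h
    · trivial
    · trivial
  · obtain ⟨Q, hq, hQ1, hQ⟩ := exists_Q q (R c) hc _ hδ hcol
    obtain ⟨φ, g1, g2, g3, g4⟩ := star_D (R := R) (S := S) F y0
      (.o c) Q (II b ∅) hQ
      (by
        intro h
        obtain ⟨i, _, h⟩ := mem_TS.1 h
        cases h)
      (fun q hq => hQ1 hq)
      (by
        have := card_II b ∅
        rw [Finset.card_empty] at this
        omega)
    obtain ⟨a, ha, ha'⟩ := g3 q hq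
    refine ⟨φ, g1, ?_, a, y0, ha.symm, ha', ?_⟩
    · intro x hx
      rcases g4 x with h | ⟨p, hp, h⟩ | ⟨k, hk, h⟩
      · rw [hx] at h
        cases h
      · rw [hx] at h
        injection h with h
        rw [h] at hp
        exact hc' (hQ1 hp)
      · rw [hx] at h
        cases h
    · rw [g2]
      exact hc'

end compare

end graph

end Pool.Agent.Helper517.FIrr
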