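import Pool.Agent.Helper517.FIrrB

set_option autoImplicit false

namespace Pool.Agent.Helper517.FIrr

open Finset

section counting

variable {D O : Type} {b : ℕ} {R : O → Finset D} {S : Finset D}
variable [DecidableEq D] [DecidableEq O] [Fintype D] [Fintype O]

/-- special vertices -/
def sp : Vtx D O b → Bool
  | .d _ => true
  | .o _ => true
  | .s => true
  | .t i => decide (i.1 = b)
  | .w _ => false

/-- the set of special vertices -/
def Sg : Finset (Vtx D O b) := univ.filter (fun v => sp v = true)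

theorem mem_Sg {v : Vtx D O b} : v ∈ (Sg : Finset (Vtx D O b)) ↔ sp v = true := by
  simp [Sg]

theorem card_Sg : (Sg : Finset (Vtx D O b)).card ≤ Fintype.card D + Fintype.card O + 2 := by
  have h1 : (Sg : Finset (Vtx D O b)) ⊆
      (univ.image Vtx.d ∪ univ.image Vtx.o) ∪ {Vtx.s, Vtx.t (Fin.last b)} := by
    intro v hv
    rw [mem_Sg] at hv
    rcases v with q | c | _ | i | k
    · simp
    · simp
    · simp
    · simp only [sp, decide_eq_true_eq] at hv
      have : i = Fin.last b := Fin.ext hv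
      simp [this]
    · simp [sp] at hv
  have h2 := Finset.card_le_card h1
  have h3 := Finset.card_union_le (univ.image Vtx.d ∪ univ.image Vtx.o)
    ({Vtx.s, Vtx.t (Fin.last b)} : Finset (Vtx D O b))
  have h4 := Finset.card_union_le (univ.image Vtx.d : Finset (Vtx D O b)) (univ.image Vtx.o)
  have h5 : (univ.image Vtx.d : Finset (Vtx D O b)).card ≤ Fintype.card D := by
    refine Finset.card_image_le.trans ?_
    rw [Finset.card_univ]
  have h6 : (univ.image Vtx.o : Finset (Vtx D O b)).card ≤ Fintype.card O := by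
    refine Finset.card_image_le.trans ?_
    rw [Finset.card_univ]
  have h7 := Finset.card_le_two (a := (Vtx.s : Vtx D O b)) (b := Vtx.t (Fin.last b))
  omega

variable {n : ℕ} (F : SimpleGraph (Fin n)) (y0 : Fin n)

open Classical in
/-- Comparison of two families of embeddings by transporting the first into the second. -/
theorem transfer (c c' : Vtx D O b) (A B S' : Finset (Vtx D O b)) (f : Vtx D O b → Vtx D O b)
    (e : Vtx D O b)
    (hA : ∀ x, (VG b R S).Adj c x ↔ x ∈ A) (hB : ∀ x, (VG b R S).Adj c' x ↔ x ∈ B)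
    (hBd : ∀ x ∈ B, ∃ q, x = Vtx.d q) (hASg : A ⊆ Sg) (hcSg : c ∈ (Sg : Finset (Vtx D O b)))
    (hc'Sg : c' ∈ (Sg : Finset (Vtx D O b)))
    (hf : ∀ x ∈ A, f x ∈ B) (hfi : ∀ x ∈ A, ∀ y ∈ A, f x = f y → x = y)
    (he : e ∈ S') (he' : ∀ x ∈ A, f x ≠ e) (hS' : S' ⊆ B) (hS'c : S'.card = (nb F y0).card)
    (hmin : ∀ a, (nb F y0).card ≤ (nb F a).card)
    (hbound : n.choose ((nb F y0).card + 2) *
      ((Sg : Finset (Vtx D O b)).card ^ ((nb F y0).card + 2) *
        (Fintype.card (Vtx D O b)) ^ (n - ((nb F y0).card + 2))) <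
      b.descFactorial (n - ((nb F y0).card + 1)))
    (𝒜 ℬ : Finset (Fin n → Vtx D O b))
    (h𝒜 : ∀ φ ∈ 𝒜, IsEmb F (VG b R S) φ ∧ ∃ a, φ a = c)
    (hmap : ∀ φ ∈ 𝒜, (∀ a, φ a = c ∨ φ a ∈ A ∨ φ a ∉ (Sg : Finset (Vtx D O b))) →
      IsEmb F (VG b R S) (fun a => if φ a = c then c' else if φ a ∈ A then f (φ a) else φ a) →
      (fun a => if φ a = c then c' else if φ a ∈ A then f (φ a) else φ a) ∈ ℬ)
    (hstar : ∀ φ, IsEmb F (VG b R S) φ → φ y0 = c' → (∀ x ∈ S', ∃ a, F.Adj y0 a ∧ φ a = x) →
      (∀ a, φ a = c' ∨ φ a ∈ S' ∨ φ a ∈ (TS (II b ∅) : Finset (Vtx D O b))) → φ ∈ ℬ) :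
    𝒜.card < ℬ.card := by
  set π : Vtx D O b → Vtx D O b := fun x => if x = c then c' else if x ∈ A then f x else x with hπ
  have hcA : c ∉ A := by
    intro h
    exact ((hA c).2 h).ne rfl
  have hc'B : c' ∉ B := by
    intro h
    exact ((hB c').2 h).ne rfl
  have hBSg : ∀ x ∈ B, x ∈ (Sg : Finset (Vtx D O b)) := by
    intro x hx
    obtain ⟨q, rfl⟩ := hBd x hx
    exact mem_Sg.2 rfl
  have πc : π c = c' := by simp [hπ]
  have πA : ∀ x ∈ A, π x = f x := by
    intro x hx
    have : x ≠ c := fun h => hcA (h ▸ hx)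
    simp [hπ, this, hx]
  have πN : ∀ x, x ∉ (Sg : Finset (Vtx D O b)) → π x = x := by
    intro x hx
    have h1 : x ≠ c := fun h => hx (h ▸ hcSg)
    have h2 : x ∉ A := fun h => hx (hASg h)
    simp [hπ, h1, h2]
  -- simple elements
  set Sim : Finset (Fin n → Vtx D O b) :=
    𝒜.filter (fun φ => ∀ a, φ a = c ∨ φ a ∈ A ∨ φ a ∉ (Sg : Finset (Vtx D O b))) with hSim
  set Many : Finset (Fin n → Vtx D O b) := univ.filter (fun φ : Fin n → Vtx D O b =>
    (nb F y0).card + 2 ≤ (univ.filter (fun a => φ a ∈ (Sg : Finset (Vtx D O b)))).card) with hMany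
  have step1 : 𝒜.card ≤ Sim.card + Many.card := by
    refine (Finset.card_le_card ?_).trans (Finset.card_union_le _ _)
    intro φ hφ
    rw [mem_union]
    by_cases hs : ∀ a, φ a = c ∨ φ a ∈ A ∨ φ a ∉ (Sg : Finset (Vtx D O b))
    · exact Or.inl (mem_filter.2 ⟨hφ, hs⟩)
    · right
      push Not at hs
      obtain ⟨z, hz1, hz2, hz3⟩ := hs
      obtain ⟨hemb, a0, ha0⟩ := h𝒜 φ hφ
      rw [hMany, mem_filter]
      refine ⟨mem_univ _, ?_⟩
      have hsub : insert z (insert a0 (nb F a0)) ⊆
          univ.filter (fun a => φ a ∈ (Sg : Finset (Vtx D O b))) := by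
        intro a ha
        rw [mem_insert, mem_insert] at ha
        rw [mem_filter]
        refine ⟨mem_univ _, ?_⟩
        rcases ha with rfl | rfl | ha
        · exact hz3
        · rw [ha0]
          exact hcSg
        · apply hASg
          rw [← hA, ← ha0]
          exact hemb.2 _ _ (mem_nb.1 ha)
      have hz : z ∉ insert a0 (nb F a0) := by
        rw [mem_insert]
        rintro (rfl | h)
        · exact hz1 ha0
        · apply hz2
          rw [← hA, ← ha0]
          exact hemb.2 _ _ (mem_nb.1 h)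
      have h1 := Finset.card_le_card hsub
      rw [Finset.card_insert_of_notMem hz,
        Finset.card_insert_of_notMem (not_mem_nb_self F a0)] at h1
      have h2 := hmin a0
      omega
  have step2 : Many.card < b.descFactorial (n - ((nb F y0).card + 1)) :=
    (card_many _ _).trans_lt hbound
  -- transported elements
  set Im : Finset (Fin n → Vtx D O b) := Sim.image (fun φ => π ∘ φ) with hIm
  have hImc : Im.card = Sim.card := by
    apply Finset.card_image_of_injOn
    intro φ hφ ψ hψ hh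
    rw [Finset.mem_coe, hSim, mem_filter] at hφ hψ
    funext a
    have h := congrFun hh a
    simp only [Function.comp] at h
    rcases hφ.2 a with h1 | h1 | h1 <;> rcases hψ.2 a with h2 | h2 | h2
    · rw [h1, h2]
    · rw [h1, πc, πA _ h2] at h
      exact absurd (h ▸ hf _ h2) hc'B
    · rw [h1, πc, πN _ h2] at h
      exact absurd (h ▸ hc'Sg) h2
    · rw [h2, πc, πA _ h1] at h
      exact absurd (h ▸ hf _ h1) hc'B
    · rw [πA _ h1, πA _ h2] at h
      exact hfi _ h1 _ h2 h
    · rw [πA _ h1, πN _ h2] at h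
      exact absurd (h ▸ hBSg _ (hf _ h1)) h2
    · rw [h2, πc, πN _ h1] at h
      exact absurd (h ▸ hc'Sg) h1
    · rw [πN _ h1, πA _ h2] at h
      exact absurd (h ▸ hBSg _ (hf _ h2)) h1
    · rw [πN _ h1, πN _ h2] at h
      exact h
  have hImB : Im ⊆ ℬ := by
    intro ψ hψ
    rw [hIm, mem_image] at hψ
    obtain ⟨φ, hφ, rfl⟩ := hψ
    rw [hSim, mem_filter] at hφ
    obtain ⟨hφA, hs⟩ := hφ
    apply hmap φ hφA hs
    have hemb := (h𝒜 φ hφA).1
    refine ⟨?_, ?_⟩
    · intro a a' h
      have h : π (φ a) = π (φ a') := h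
      apply hemb.1
      rcases hs a with h1 | h1 | h1 <;> rcases hs a' with h2 | h2 | h2
      · rw [h1, h2]
      · rw [h1, πc, πA _ h2] at h
        exact absurd (h ▸ hf _ h2) hc'B
      · rw [h1, πc, πN _ h2] at h
        exact absurd (h ▸ hc'Sg) h2
      · rw [h2, πc, πA _ h1] at h
        exact absurd (h ▸ hf _ h1) hc'B
      · rw [πA _ h1, πA _ h2] at h
        exact hfi _ h1 _ h2 h
      · rw [πA _ h1, πN _ h2] at h
        exact absurd (h ▸ hBSg _ (hf _ h1)) h2
      · rw [h2, πc, πN _ h1] at h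
        exact absurd (h ▸ hc'Sg) h1
      · rw [πN _ h1, πA _ h2] at h
        exact absurd (h ▸ hBSg _ (hf _ h2)) h1
      · rw [πN _ h1, πN _ h2] at h
        exact h
    · -- homomorphism
      have bulk : ∀ q : D, ∀ x : Vtx D O b, x ∉ (Sg : Finset (Vtx D O b)) →
          (VG b R S).Adj (.d q) x := by
        intro q x hx
        rw [mem_Sg] at hx
        rcases x with q' | c1 | _ | i | k
        · exact absurd rfl hx
        · exact absurd rfl hx
        · exact absurd rfl hx
        · trivial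
        · trivial
      intro a a' haa
      show (VG b R S).Adj (π (φ a)) (π (φ a'))
      have hG := hemb.2 a a' haa
      rcases hs a with h1 | h1 | h1 <;> rcases hs a' with h2 | h2 | h2
      · rw [h1, h2] at hG
        exact absurd rfl hG.ne
      · rw [h1, πc, πA _ h2]
        exact (hB _).2 (hf _ h2)
      · rw [h1] at hG
        exact absurd (hASg ((hA _).1 hG)) h2
      · rw [h2, πc, πA _ h1]
        exact ((hB _).2 (hf _ h1)).symm
      · rw [πA _ h1, πA _ h2]
        obtain ⟨q, hq⟩ := hBd _ (hf _ h1)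
        obtain ⟨q', hq'⟩ := hBd _ (hf _ h2)
        rw [hq, hq']
        show q ≠ q'
        intro hh
        apply hG.ne
        apply hfi _ h1 _ h2
        rw [hq, hq', hh]
      · rw [πA _ h1, πN _ h2]
        obtain ⟨q, hq⟩ := hBd _ (hf _ h1)
        rw [hq]
        exact bulk q _ h2
      · rw [h2] at hG
        exact absurd (hASg ((hA _).1 hG.symm)) h1
      · rw [πN _ h1, πA _ h2]
        obtain ⟨q, hq⟩ := hBd _ (hf _ h2)
        rw [hq]
        exact (bulk q _ h1).symm
      · rw [πN _ h1, πN _ h2]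
        exact hG
  -- star elements
  set X : Finset (Fin n → Vtx D O b) := ℬ.filter (fun φ => ∃ a, φ a = e) with hX
  have heB : e ∈ B := hS' he
  have hXc : b.descFactorial (n - ((nb F y0).card + 1)) ≤ X.card := by
    have hT : b ≤ (TS (II b ∅) : Finset (Vtx D O b)).card := by
      rw [card_TS]
      have := card_II b ∅
      rw [Finset.card_empty] at this
      omega
    refine le_trans (Nat.descFactorial_le _ hT) ?_
    apply card_star F (VG b R S) y0 c' S' (TS (II b ∅)) hS'c
    · exact fun h => hc'B (hS' h)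
    · intro h
      obtain ⟨i, hi, hi'⟩ := mem_TS.1 h
      rw [mem_II] at hi
      rw [← hi', mem_Sg] at hc'Sg
      simp only [sp, decide_eq_true_eq] at hc'Sg
      omega
    · rw [Finset.disjoint_left]
      intro x hx hx'
      obtain ⟨q, rfl⟩ := hBd x (hS' hx)
      obtain ⟨i, hi, hi'⟩ := mem_TS.1 hx'
      cases hi'
    · intro x hx
      exact (hB x).2 (hS' hx)
    · intro x hx y hy hxy
      obtain ⟨q, rfl⟩ := hBd x (hS' hx)
      obtain ⟨q', rfl⟩ := hBd y (hS' hy)
      show q ≠ q'
      intro hh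
      exact hxy (by rw [hh])
    · intro x hx y hy
      obtain ⟨q, rfl⟩ := hBd x (hS' hx)
      obtain ⟨i, hi, rfl⟩ := mem_TS.1 hy
      trivial
    · exact TS_clique _
    · intro φ h1 h2 h3 h4
      rw [hX, mem_filter]
      refine ⟨hstar φ h1 h2 h3 h4, ?_⟩
      obtain ⟨a, _, ha⟩ := h3 e he
      exact ⟨a, ha⟩
  have hdisj : Disjoint Im X := by
    rw [Finset.disjoint_left]
    intro ψ hψ hψ'
    rw [hIm, mem_image] at hψ
    obtain ⟨φ, hφ, rfl⟩ := hψ
    rw [hSim, mem_filter] at hφ
    rw [hX, mem_filter] at hψ'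
    obtain ⟨_, a, ha⟩ := hψ'
    simp only [Function.comp] at ha
    rcases hφ.2 a with h1 | h1 | h1
    · rw [h1, πc] at ha
      exact hc'B (ha ▸ heB)
    · rw [πA _ h1] at ha
      exact he' _ h1 ha
    · rw [πN _ h1] at ha
      exact h1 (ha ▸ hBSg _ heB)
  have hfin : Im.card + X.card ≤ ℬ.card := by
    rw [← Finset.card_union_of_disjoint hdisj]
    exact Finset.card_le_card (Finset.union_subset hImB (Finset.filter_subset _ _))
  omega

end counting

end Pool.Agent.Helper517.FIrr
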