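import Pool.Agent.Helper517.FIrrC

set_option autoImplicit false

namespace Pool.Agent.Helper517.FIrr

open Finset

/-- an injection between finite sets with one prescribed value -/
theorem exists_inj {V : Type} [DecidableEq V] (A B : Finset V) (h : A.card ≤ B.card) (a b : V)
    (ha : a ∈ A) (hb : b ∈ B) :
    ∃ f : V → V, (∀ x ∈ A, f x ∈ B) ∧ (∀ x ∈ A, ∀ y ∈ A, f x = f y → x = y) ∧ f a = b := by
  obtain ⟨g⟩ := Function.Embedding.nonempty_of_card_le (α := A) (β := B) (by simpa using h)
  let f0 : V → V := fun x => if hx : x ∈ A then (g ⟨x, hx⟩ : V) else x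
  have e0 : ∀ x (hx : x ∈ A), f0 x = (g ⟨x, hx⟩ : V) := by
    intro x hx
    simp [f0, hx]
  refine ⟨fun x => Equiv.swap (f0 a) b (f0 x), ?_, ?_, ?_⟩
  · intro x hx
    have h1 : f0 x ∈ B := by
      rw [e0 x hx]
      exact (g ⟨x, hx⟩).2
    have h2 : f0 a ∈ B := by
      rw [e0 a ha]
      exact (g ⟨a, ha⟩).2
    simp only
    by_cases hxa : f0 x = f0 a
    · rw [hxa, Equiv.swap_apply_left]
      exact hb
    · by_cases hxb : f0 x = b
      · rw [hxb, Equiv.swap_apply_right]
        exact h2
      · rw [Equiv.swap_apply_of_ne_of_ne hxa hxb]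
        exact h1
  · intro x hx y hy hxy
    have h1 := (Equiv.swap (f0 a) b).injective hxy
    rw [e0 x hx, e0 y hy] at h1
    have := g.injective (Subtype.ext h1)
    exact congrArg Subtype.val this
  · simp

section apply

variable {D O : Type} {b : ℕ} {R : O → Finset D} {S : Finset D}
variable [DecidableEq D] [DecidableEq O] [Fintype D] [Fintype O]
variable {n : ℕ} (F : SimpleGraph (Fin n)) (y0 : Fin n)

omit [Fintype D] [Fintype O] in
theorem adj_o (c : O) (x : Vtx D O b) : (VG b R S).Adj (.o c) x ↔ x ∈ DS (R c) := by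
  rw [mem_DS]
  constructor
  · intro h
    rcases x with q | c | _ | i | k
    · exact ⟨q, h, rfl⟩
    · exact h.elim
    · exact h.elim
    · exact h.elim
    · exact h.elim
  · rintro ⟨q, hq, rfl⟩
    exact hq

omit [Fintype D] [Fintype O] in
theorem adj_s (x : Vtx D O b) :
    (VG b R S).Adj .s x ↔ x ∈ insert (.t (Fin.last b)) (DS S) := by
  rw [mem_insert, mem_DS]
  constructor
  · intro h
    rcases x with q | c | _ | i | k
    · exact Or.inr ⟨q, h, rfl⟩
    · exact h.elim
    · exact h.elim
    · left
      have h' : i.1 = b := h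
      have : i = Fin.last b := Fin.ext h'
      rw [this]
    · exact h.elim
  · rintro (rfl | ⟨q, hq, rfl⟩)
    · rfl
    · exact hq

/-- low vertices are ordered by degree -/
theorem low_lt (c : Vtx D O b) (c' : O) (A : Finset (Vtx D O b))
    (hA : ∀ x, (VG b R S).Adj c x ↔ x ∈ A) (hASg : A ⊆ Sg)
    (hcSg : c ∈ (Sg : Finset (Vtx D O b))) (hAne : A.Nonempty)
    (hcard : A.card < (R c').card) (hδ : 1 ≤ (nb F y0).card)
    (hcol : (nb F y0).card ≤ (R c').card)
    (hmin : ∀ a, (nb F y0).card ≤ (nb F a).card)
    (hbound : n.choose ((nb F y0).card + 2) *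
      ((Sg : Finset (Vtx D O b)).card ^ ((nb F y0).card + 2) *
        (Fintype.card (Vtx D O b)) ^ (n - ((nb F y0).card + 2))) <
      b.descFactorial (n - ((nb F y0).card + 1))) :
    Nf F (VG b R S) c < Nf F (VG b R S) (.o c') := by
  set B : Finset (Vtx D O b) := DS (R c') with hB
  have hBc : B.card = (R c').card := card_DS _
  obtain ⟨a, ha⟩ := hAne
  have hBne : 0 < B.card := by omega
  obtain ⟨b0, hb0⟩ := Finset.card_pos.1 hBne
  obtain ⟨f, hf1, hf2, _⟩ := exists_inj A B (by omega) a b0 ha hb0
  -- an element outside the image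
  have hex : ∃ e ∈ B, e ∉ A.image f := by
    by_contra hcon
    push Not at hcon
    have h1 := Finset.card_le_card (show B ⊆ A.image f from hcon)
    have h2 := Finset.card_image_le (s := A) (f := f)
    omega
  obtain ⟨e, heB, he⟩ := hex
  obtain ⟨S', hS1, hS2, hS3⟩ := Finset.exists_subsuperset_card_eq (n := (nb F y0).card)
    (Finset.singleton_subset_iff.2 heB) (by rw [Finset.card_singleton]; exact hδ)
    (by rw [hBc]; exact hcol)
  apply transfer F y0 c (.o c') A B S' f e hA (adj_o c')
  · intro x hx
    obtain ⟨q, _, rfl⟩ := mem_DS.1 hx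
    exact ⟨q, rfl⟩
  · exact hASg
  · exact hcSg
  · exact mem_Sg.2 rfl
  · exact hf1
  · exact hf2
  · exact Finset.singleton_subset_iff.1 hS1
  · intro x hx hh
    exact he (mem_image.2 ⟨x, hx, hh⟩)
  · exact hS2
  · exact hS3
  · exact hmin
  · exact hbound
  · intro φ hφ
    exact mem_Eset.1 hφ
  · intro φ hφ hs hemb
    rw [mem_Eset]
    obtain ⟨_, a0, ha0⟩ := mem_Eset.1 hφ
    exact ⟨hemb, a0, by simp [ha0]⟩
  · intro φ h1 h2 _ _
    exact mem_Eset.2 ⟨h1, y0, h2⟩

/-- `d`-vertices, exchange of one neighbour -/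
theorem dd_lt_exch (q q' : D) (u0 v0 : O) (hqv : q ∈ R v0) (hq'v : q' ∉ R v0)
    (hq'u : q' ∈ R u0)
    (hrest : ∀ c, c ≠ u0 → q' ∈ R c → q ∈ R c) (h0 : q' ∈ S → q ∈ S)
    (hcard : (R u0).card < (R v0).card) (hδ : 2 ≤ (nb F y0).card)
    (hcol : (nb F y0).card ≤ (R v0).card)
    (hmin : ∀ a, (nb F y0).card ≤ (nb F a).card)
    (hbound : n.choose ((nb F y0).card + 2) *
      ((Sg : Finset (Vtx D O b)).card ^ ((nb F y0).card + 2) *
        (Fintype.card (Vtx D O b)) ^ (n - ((nb F y0).card + 2))) <
      b.descFactorial (n - ((nb F y0).card + 1))) :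
    Nf F (VG b R S : SimpleGraph (Vtx D O b)) (.d q') < Nf F (VG b R S) (.d q) := by
  set A : Finset (Vtx D O b) := DS (R u0) with hA
  set B : Finset (Vtx D O b) := DS (R v0) with hB
  have hAc : A.card = (R u0).card := card_DS _
  have hBc : B.card = (R v0).card := card_DS _
  have hq'A : (Vtx.d q' : Vtx D O b) ∈ A := mem_DS.2 ⟨q', hq'u, rfl⟩
  have hqB : (Vtx.d q : Vtx D O b) ∈ B := mem_DS.2 ⟨q, hqv, rfl⟩
  have hq'B : (Vtx.d q' : Vtx D O b) ∉ B := by
    intro h
    obtain ⟨p, hp, h⟩ := mem_DS.1 h
    injection h with h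
    rw [h] at hp
    exact hq'v hp
  obtain ⟨f, hf1, hf2, hf3⟩ := exists_inj A B (by omega) _ _ hq'A hqB
  have hex : ∃ e ∈ B, e ∉ A.image f := by
    by_contra hcon
    push Not at hcon
    have h1 := Finset.card_le_card (show B ⊆ A.image f from hcon)
    have h2 := Finset.card_image_le (s := A) (f := f)
    omega
  obtain ⟨e, heB, he⟩ := hex
  obtain ⟨S', hS1, hS2, hS3⟩ := Finset.exists_subsuperset_card_eq
    (show {Vtx.d q, e} ⊆ B by
      intro x hx
      rw [mem_insert, mem_singleton] at hx
      rcases hx with rfl | rfl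
      · exact hqB
      · exact heB) (Finset.card_le_two.trans hδ)
    (by rw [hBc]; exact hcol)
  have hqS' : (Vtx.d q : Vtx D O b) ∈ S' := hS1 (by simp)
  have heS' : e ∈ S' := hS1 (by simp)
  apply Nf_lt_of_bad
  · intro h
    injection h with h
    rw [h] at hq'v
    exact hq'v hqv
  apply transfer F y0 (.o u0) (.o v0) A B S' f e (adj_o u0) (adj_o v0)
  · intro x hx
    obtain ⟨q, _, rfl⟩ := mem_DS.1 hx
    exact ⟨q, rfl⟩
  · intro x hx
    obtain ⟨q, _, rfl⟩ := mem_DS.1 hx
    exact mem_Sg.2 rfl
  · exact mem_Sg.2 rfl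
  · exact mem_Sg.2 rfl
  · exact hf1
  · exact hf2
  · exact heS'
  · intro x hx hh
    exact he (mem_image.2 ⟨x, hx, hh⟩)
  · exact hS2
  · exact hS3
  · exact hmin
  · exact hbound
  · -- elements of the smaller bad set pass through `o u0`
    intro φ hφ
    simp only [bad, mem_filter, mem_univ, true_and] at hφ
    obtain ⟨hemb, _, hnq, a, a', haa, ha, ha'⟩ := hφ
    refine ⟨hemb, a', ?_⟩
    have hG := hemb.2 a a' haa
    rw [ha] at hG
    have hne := hnq a'
    rcases hx : φ a' with p | c | _ | i | k
    · rw [hx] at ha' hne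
      exfalso
      apply ha'
      show q ≠ p
      intro hh
      exact hne (by rw [hh])
    · rw [hx] at ha' hG
      by_contra hc
      exact ha' (hrest c (fun h => hc (by rw [h])) hG)
    · rw [hx] at ha' hG
      exact absurd (h0 hG) ha'
    · rw [hx] at ha'
      exact absurd trivial ha'
    · rw [hx] at ha'
      exact absurd trivial ha'
  · intro φ hφ hs hemb
    simp only [bad, mem_filter, mem_univ, true_and] at hφ ⊢
    obtain ⟨hemb', _, hnq, a, a', haa, ha, ha'⟩ := hφ
    have hG := hemb'.2 a a' haa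
    rw [ha] at hG
    have hne := hnq a'
    have hu : φ a' = .o u0 := by
      rcases hx : φ a' with p | c | _ | i | k
      · rw [hx] at ha' hne
        exfalso
        apply ha'
        show q ≠ p
        intro hh
        exact hne (by rw [hh])
      · rw [hx] at ha' hG
        by_contra hc
        exact ha' (hrest c (fun h => hc (by rw [h])) hG)
      · rw [hx] at ha' hG
        exact absurd (h0 hG) ha'
      · rw [hx] at ha'
        exact absurd trivial ha'
      · rw [hx] at ha'
        exact absurd trivial ha'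
    have hval : (if φ a = .o u0 then .o v0 else if φ a ∈ A then f (φ a) else φ a) =
        (.d q : Vtx D O b) := by
      rw [ha, if_neg (by intro h; cases h), if_pos hq'A, hf3]
    refine ⟨hemb, ⟨a, hval⟩, ?_, a, a', haa, hval, ?_⟩
    · intro z hz
      rcases hs z with h1 | h1 | h1
      · rw [if_pos h1] at hz
        cases hz
      · have h2 : φ z ≠ .o u0 := by
          intro h2
          rw [h2] at h1
          obtain ⟨p, _, h⟩ := mem_DS.1 h1
          cases h
        rw [if_neg h2, if_pos h1] at hz
        exact hq'B (hz ▸ hf1 _ h1)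
      · have h2 : φ z ≠ .o u0 := by
          intro h2
          rw [h2] at h1
          exact h1 (mem_Sg.2 rfl)
        have h3 : φ z ∉ A := by
          intro h3
          obtain ⟨p, _, h⟩ := mem_DS.1 h3
          rw [← h] at h1
          exact h1 (mem_Sg.2 rfl)
        rw [if_neg h2, if_neg h3] at hz
        rw [hz] at h1
        exact h1 (mem_Sg.2 rfl)
    · rw [if_pos hu]
      exact hq'v
  · intro φ h1 h2 h3 h4
    simp only [bad, mem_filter, mem_univ, true_and]
    obtain ⟨a, ha, ha'⟩ := h3 _ hqS'
    refine ⟨h1, ⟨a, ha'⟩, ?_, a, y0, ha.symm, ha', ?_⟩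
    · intro z hz
      rcases h4 z with h | h | h
      · rw [hz] at h
        cases h
      · rw [hz] at h
        exact hq'B (hS2 h)
      · rw [hz] at h
        obtain ⟨i, _, h⟩ := mem_TS.1 h
        cases h
    · rw [h2]
      exact hq'v

/-- the lowest two `t`-vertices when the minimum degree is at least two -/
theorem tb_lt (hδ : 2 ≤ (nb F y0).card) (hmin : ∀ a, (nb F y0).card ≤ (nb F a).card)
    (hbound : n.choose 3 * ((Sg : Finset (Vtx D O b)).card ^ 3 *
        (Fintype.card (Vtx D O b)) ^ (n - 3)) < (b - 1).descFactorial (n - 2))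
    (i : Fin b) (hi : i.1 + 1 = b) :
    Nf F (VG b R S : SimpleGraph (Vtx D O b)) (.t i.succ) < Nf F (VG b R S) (.t i.castSucc) := by
  classical
  have hlast : i.succ = Fin.last b := Fin.ext (by rw [Fin.val_succ, Fin.val_last]; exact hi)
  apply Nf_lt_of_bad
  · intro h
    injection h with h
    exact absurd h.symm (Fin.castSucc_lt_succ).ne
  have up : (bad F (VG b R S : SimpleGraph (Vtx D O b)) (.t i.succ) (.t i.castSucc)).card ≤
      n.choose 3 * ((Sg : Finset (Vtx D O b)).card ^ 3 *
        (Fintype.card (Vtx D O b)) ^ (n - 3)) := by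
    refine (Finset.card_le_card ?_).trans (card_many (Sg : Finset (Vtx D O b)) 3)
    intro φ hφ
    simp only [bad, mem_filter, mem_univ, true_and] at hφ
    obtain ⟨hemb, _, hnq, a, a', haa, ha, ha'⟩ := hφ
    have hG := hemb.2 a a' haa
    rw [ha] at hG
    have hne := hnq a'
    have hs : φ a' = .s := by
      rcases hx : φ a' with p | c | _ | k | k
      · rw [hx] at ha'
        exact absurd trivial ha'
      · rw [hx] at hG
        exact hG.elim
      · rfl
      · rw [hx] at ha' hne
        exfalso
        apply ha'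
        show i.castSucc ≠ k
        intro hh
        exact hne (by rw [hh])
      · rw [hx] at hG
        have h' : i.succ.1 < k.1 := hG
        have := k.2
        rw [Fin.val_succ] at h'
        omega
    rw [mem_filter]
    refine ⟨mem_univ _, ?_⟩
    have hsub : insert a' (nb F a') ⊆
        univ.filter (fun a => φ a ∈ (Sg : Finset (Vtx D O b))) := by
      intro z hz
      rw [mem_insert] at hz
      rw [mem_filter]
      refine ⟨mem_univ _, ?_⟩
      rcases hz with rfl | hz
      · rw [hs]
        exact mem_Sg.2 rfl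
      · have h1 := hemb.2 _ _ (mem_nb.1 hz)
        rw [hs, adj_s, mem_insert, mem_DS] at h1
        rcases h1 with h1 | ⟨p, _, h1⟩
        · rw [h1, mem_Sg]
          simp [sp]
        · rw [← h1]
          exact mem_Sg.2 rfl
    have h1 := Finset.card_le_card hsub
    rw [Finset.card_insert_of_notMem (not_mem_nb_self F a')] at h1
    have h2 := hmin a'
    omega
  refine up.trans_lt (hbound.trans_le ?_)
  -- many embeddings through the edge `w last - t castSucc`
  obtain ⟨x0, hx0⟩ := Finset.card_pos.1 (show 0 < (nb F y0).card by omega)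
  rw [mem_nb] at hx0
  have hP : ({y0, x0} : Finset (Fin n)).card = 2 := Finset.card_pair hx0.ne
  have hT : b - 1 ≤ (TS (II b {i.castSucc}) : Finset (Vtx D O b)).card := by
    rw [card_TS]
    have := card_II b {i.castSucc}
    rw [Finset.card_singleton] at this
    omega
  refine (Nat.descFactorial_le _ hT).trans ?_
  rw [← hP]
  apply card_pinned F (VG b R S) {y0, x0}
    (fun a => if a = y0 then .w (Fin.last b) else .t i.castSucc)
  · intro a ha a' ha' h
    rw [mem_insert, mem_singleton] at ha ha'
    rcases ha with rfl | rfl <;> rcases ha' with rfl | rfl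
    · rfl
    · simp [hx0.ne.symm] at h
    · simp [hx0.ne.symm] at h
    · rfl
  · intro a ha h
    rw [mem_TS] at h
    obtain ⟨k, hk, h⟩ := h
    split_ifs at h
    injection h with h
    rw [mem_II, h] at hk
    exact hk.2 (by simp)
  · intro a ha a' ha' haa
    rw [mem_insert, mem_singleton] at ha ha'
    have hw : (VG b R S : SimpleGraph (Vtx D O b)).Adj (.w (Fin.last b)) (.t i.castSucc) := by
      show i.castSucc.1 < (Fin.last b).1
      simp
    rcases ha with rfl | rfl <;> rcases ha' with rfl | rfl
    · exact absurd rfl haa.ne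
    · simp only [if_true, if_neg hx0.ne.symm]
      exact hw
    · simp only [if_true, if_neg hx0.ne.symm]
      exact hw.symm
    · exact absurd rfl haa.ne
  · intro a ha a' _ _ t ht
    obtain ⟨k, hk, rfl⟩ := mem_TS.1 ht
    rw [mem_II] at hk
    split_ifs
    · show k.1 < (Fin.last b).1
      rw [Fin.val_last]
      exact hk.1
    · show i.castSucc ≠ k
      intro hh
      exact hk.2 (by rw [← hh]; simp)
  · exact TS_clique _
  · intro φ h1 h2 h3
    simp only [bad, mem_filter, mem_univ, true_and]
    have e1 : φ y0 = .w (Fin.last b) := by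
      rw [h2 y0 (by simp)]
      simp
    have e2 : φ x0 = .t i.castSucc := by
      rw [h2 x0 (by simp)]
      simp [hx0.ne.symm]
    refine ⟨h1, ⟨x0, e2⟩, ?_, x0, y0, hx0.symm, e2, ?_⟩
    · intro z hz
      by_cases hzP : z ∈ ({y0, x0} : Finset (Fin n))
      · rw [mem_insert, mem_singleton] at hzP
        rcases hzP with rfl | rfl
        · rw [e1] at hz
          cases hz
        · rw [e2] at hz
          injection hz with hz
          exact absurd hz (Fin.castSucc_lt_succ).ne
      · obtain ⟨k, hk, hk'⟩ := mem_TS.1 (h3 z hzP)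
        rw [hz] at hk'
        injection hk' with hk'
        rw [mem_II, hk', Fin.val_succ] at hk
        omega
    · rw [e1]
      intro h
      have h' : i.succ.1 < (Fin.last b).1 := h
      rw [hlast] at h'
      omega

end apply

end Pool.Agent.Helper517.FIrr
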