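import Pool.Agent.Helper517.FIrrD

set_option autoImplicit false

namespace Pool.Agent.Helper517.FIrr

open Finset

/-- abstract transport -/
theorem transport {n : ℕ} {V : Type} [DecidableEq V] (π : V → V) (𝒜 ℬ X M : Finset (Fin n → V))
    (h1 : ∀ φ ∈ 𝒜, φ ∉ M → π ∘ φ ∈ ℬ ∧ π ∘ φ ∉ X)
    (h2 : ∀ φ ∈ 𝒜, φ ∉ M → ∀ ψ ∈ 𝒜, ψ ∉ M → π ∘ φ = π ∘ ψ → φ = ψ)
    (hX : X ⊆ ℬ) (hM : M.card < X.card) : 𝒜.card < ℬ.card := by
  classical
  have e1 : 𝒜.card ≤ (𝒜 \ M).card + M.card := by
    have := Finset.card_le_card (show 𝒜 ⊆ (𝒜 \ M) ∪ M by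
      intro φ hφ
      rw [mem_union, mem_sdiff]
      by_cases h : φ ∈ M
      · exact Or.inr h
      · exact Or.inl ⟨hφ, h⟩)
    exact this.trans (Finset.card_union_le _ _)
  have e2 : ((𝒜 \ M).image (fun φ => π ∘ φ)).card = (𝒜 \ M).card := by
    apply Finset.card_image_of_injOn
    intro φ hφ ψ hψ h
    rw [Finset.mem_coe, mem_sdiff] at hφ hψ
    exact h2 φ hφ.1 hφ.2 ψ hψ.1 hψ.2 h
  have e3 : Disjoint ((𝒜 \ M).image (fun φ => π ∘ φ)) X := by
    rw [Finset.disjoint_left]
    intro φ hφ hφ'
    rw [mem_image] at hφ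
    obtain ⟨ψ, hψ, rfl⟩ := hφ
    rw [mem_sdiff] at hψ
    exact (h1 ψ hψ.1 hψ.2).2 hφ'
  have e4 : ((𝒜 \ M).image (fun φ => π ∘ φ)).card + X.card ≤ ℬ.card := by
    rw [← Finset.card_union_of_disjoint e3]
    apply Finset.card_le_card
    apply Finset.union_subset _ hX
    intro φ hφ
    rw [mem_image] at hφ
    obtain ⟨ψ, hψ, rfl⟩ := hφ
    rw [mem_sdiff] at hψ
    exact (h1 ψ hψ.1 hψ.2).1
  omega

theorem mem_many {n : ℕ} {V : Type} [Fintype V] [DecidableEq V] {φ : Fin n → V}
    (x y z : V) (hxy : x ≠ y) (hxz : x ≠ z) (hyz : y ≠ z) (hx : ∃ a, φ a = x)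
    (hy : ∃ a, φ a = y) (hz : ∃ a, φ a = z) :
    φ ∈ (univ.filter (fun φ : Fin n → V =>
      3 ≤ (univ.filter (fun a => φ a ∈ ({x, y, z} : Finset V))).card)) := by
  obtain ⟨a, ha⟩ := hx
  obtain ⟨b, hb⟩ := hy
  obtain ⟨c, hc⟩ := hz
  rw [mem_filter]
  refine ⟨mem_univ _, ?_⟩
  have hab : a ≠ b := by
    intro h
    exact hxy (by rw [← ha, ← hb, h])
  have hac : a ≠ c := by
    intro h
    exact hxz (by rw [← ha, ← hc, h])
  have hbc : b ≠ c := by
    intro h
    exact hyz (by rw [← hb, ← hc, h])
  have h3 : ({a, b, c} : Finset (Fin n)).card = 3 := by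
    rw [Finset.card_eq_three]
    exact ⟨a, b, c, hab, hac, hbc, rfl⟩
  rw [← h3]
  apply Finset.card_le_card
  intro i hi
  rw [mem_insert, mem_insert, mem_singleton] at hi
  rw [mem_filter]
  refine ⟨mem_univ _, ?_⟩
  rcases hi with rfl | rfl | rfl
  · rw [ha]
    simp
  · rw [hb]
    simp
  · rw [hc]
    simp

theorem card_many3 {n : ℕ} {V : Type} [Fintype V] [DecidableEq V] (x y z : V) (hxy : x ≠ y)
    (hxz : x ≠ z) (hyz : y ≠ z) :
    (univ.filter (fun φ : Fin n → V =>
      3 ≤ (univ.filter (fun a => φ a ∈ ({x, y, z} : Finset V))).card)).card ≤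
      n.choose 3 * (3 ^ 3 * (Fintype.card V) ^ (n - 3)) := by
  have h3 : ({x, y, z} : Finset V).card = 3 := by
    rw [Finset.card_eq_three]
    exact ⟨x, y, z, hxy, hxz, hyz, rfl⟩
  have := card_many (n := n) ({x, y, z} : Finset V) 3
  rw [h3] at this
  exact this

section leaf

variable {b : ℕ} {n : ℕ} (F : SimpleGraph (Fin n)) (y0 x0 z0 : Fin n)

/-- the graph used when `F` has a leaf -/
abbrev LG (b : ℕ) : SimpleGraph (Vtx Empty Empty b) := VG b (fun _ => ∅) ∅

theorem adj_s' (x : Vtx Empty Empty b) : (LG b).Adj .s x ↔ x = .t (Fin.last b) := by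
  rw [adj_s, mem_insert]
  constructor
  · rintro (h | h)
    · exact h
    · obtain ⟨q, _⟩ := mem_DS.1 h
      exact q.elim
  · exact fun h => Or.inl h

/-- the lowest two `t`-vertices when `F` has a leaf -/
theorem tb_lt_leaf (hy : ∀ a, F.Adj y0 a ↔ a = x0) (hz : F.Adj x0 z0) (hzy : z0 ≠ y0)
    (hbound : n.choose 3 * (3 ^ 3 * (Fintype.card (Vtx Empty Empty b)) ^ (n - 3)) <
      (b - 1).descFactorial (n - 2))
    (i : Fin b) (hi : i.1 + 1 = b) :
    Nf F (LG b) (.t i.succ) < Nf F (LG b) (.t i.castSucc) := by
  classical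
  have hlast : i.succ = Fin.last b := Fin.ext (by rw [Fin.val_succ, Fin.val_last]; exact hi)
  have hne : i.succ ≠ i.castSucc := (Fin.castSucc_lt_succ).ne'
  apply Nf_lt_of_bad
  · intro h
    injection h with h
    exact hne h
  have hx0y0 : F.Adj y0 x0 := (hy x0).2 rfl
  -- structure of the smaller bad set
  have hstr : ∀ φ ∈ bad F (LG b) (.t i.succ) (.t i.castSucc), IsEmb F (LG b) φ ∧
      (∀ a, φ a ≠ .t i.castSucc) ∧ ∃ a a', F.Adj a a' ∧ φ a = .t i.succ ∧ φ a' = .s := by
    intro φ hφ
    simp only [bad, mem_filter, mem_univ, true_and] at hφ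
    obtain ⟨hemb, _, hnq, a, a', haa, ha, ha'⟩ := hφ
    have hG := hemb.2 a a' haa
    rw [ha] at hG
    have hne := hnq a'
    refine ⟨hemb, hnq, a, a', haa, ha, ?_⟩
    rcases hx : φ a' with p | c | _ | k | k
    · exact p.elim
    · exact c.elim
    · rfl
    · rw [hx] at ha' hne
      exfalso
      apply ha'
      show i.castSucc ≠ k
      intro hh
      exact hne (by rw [hh])
    · rw [hx] at hG
      have h' : i.succ.1 < k.1 := hG
      have := k.2
      rw [Fin.val_succ] at h'
      omega
  set π : Vtx Empty Empty b → Vtx Empty Empty b := fun x =>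
    if x = .s then .w (Fin.last b) else if x = .t i.succ then .t i.castSucc else x with hπ
  have π1 : π .s = .w (Fin.last b) := by simp [hπ]
  have π2 : π (.t i.succ) = .t i.castSucc := by simp [hπ]
  have π3 : ∀ x, x ≠ .s → x ≠ .t i.succ → π x = x := by
    intro x h1 h2
    simp [hπ, h1, h2]
  set M : Finset (Fin n → Vtx Empty Empty b) := (univ.filter (fun φ =>
      3 ≤ (univ.filter (fun a => φ a ∈ ({.s, .t i.succ, .w (Fin.last b)} :
        Finset (Vtx Empty Empty b)))).card)) with hM
  have hMc : M.card ≤ n.choose 3 * (3 ^ 3 * (Fintype.card (Vtx Empty Empty b)) ^ (n - 3)) :=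
    card_many3 _ _ _ (by intro h; cases h) (by intro h; cases h) (by intro h; cases h)
  have hnotM : ∀ φ ∈ bad F (LG b) (.t i.succ) (.t i.castSucc), φ ∉ M →
      ∀ a, φ a ≠ .w (Fin.last b) := by
    intro φ hφ hφM c hc
    obtain ⟨_, _, a, a', _, ha, ha'⟩ := hstr φ hφ
    exact hφM (mem_many _ _ _ (by intro h; cases h) (by intro h; cases h) (by intro h; cases h)
      ⟨a', ha'⟩ ⟨a, ha⟩ ⟨c, hc⟩)
  -- `π` is injective where needed
  have πinj : ∀ x y, x ≠ .t i.castSucc → x ≠ .w (Fin.last b) → y ≠ .t i.castSucc →
      y ≠ .w (Fin.last b) → π x = π y → x = y := by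
    intro x y hx1 hx2 hy1 hy2 h
    by_cases h1 : x = .s
    · by_cases h2 : y = .s
      · rw [h1, h2]
      · by_cases h3 : y = .t i.succ
        · rw [h1, h3, π1, π2] at h
          cases h
        · rw [h1, π1, π3 y h2 h3] at h
          exact absurd h.symm hy2
    · by_cases h1' : x = .t i.succ
      · by_cases h2 : y = .s
        · rw [h1', h2, π1, π2] at h
          cases h
        · by_cases h3 : y = .t i.succ
          · rw [h1', h3]
          · rw [h1', π2, π3 y h2 h3] at h
            exact absurd h.symm hy1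
      · rw [π3 x h1 h1'] at h
        by_cases h2 : y = .s
        · rw [h2, π1] at h
          exact absurd h hx2
        · by_cases h3 : y = .t i.succ
          · rw [h3, π2] at h
            exact absurd h hx1
          · rw [π3 y h2 h3] at h
            exact h
  -- the set of extra embeddings
  set X : Finset (Fin n → Vtx Empty Empty b) :=
    (bad F (LG b) (.t i.castSucc) (.t i.succ)).filter (fun φ => φ x0 = .w (Fin.last b)) with hX
  apply transport π _ _ X M
  · intro φ hφ hφM
    obtain ⟨hemb, hnq, a, a', haa, ha, ha'⟩ := hstr φ hφ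
    have hnw := hnotM φ hφ hφM
    have hleaf : ∀ c, F.Adj a' c → c = a := by
      intro c hc
      have h1 := hemb.2 _ _ hc
      rw [ha', adj_s', ← hlast, ← ha] at h1
      exact hemb.1 h1
    have hadjt : ∀ c, F.Adj a c → c ≠ a' → ∃ k, φ c = .t k ∧ k ≠ i.succ ∧ k ≠ i.castSucc := by
      intro c hc hca
      have h1 := hemb.2 _ _ hc
      rw [ha] at h1
      rcases hx : φ c with p | p | _ | k | k
      · exact p.elim
      · exact p.elim
      · exact absurd (hemb.1 (hx.trans ha'.symm)) hca
      · refine ⟨k, rfl, ?_, ?_⟩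
        · rintro rfl
          exact hc.ne (hemb.1 (ha.trans hx.symm))
        · rintro rfl
          exact hnq c hx
      · rw [hx] at h1
        have h' : i.succ.1 < k.1 := h1
        have := k.2
        rw [Fin.val_succ] at h'
        omega
    have hπemb : IsEmb F (LG b) (π ∘ φ) := by
      refine ⟨?_, ?_⟩
      · intro c d hcd
        exact hemb.1 (πinj _ _ (hnq c) (hnw c) (hnq d) (hnw d) hcd)
      · have key : ∀ c d, F.Adj c d → c = a → (LG b).Adj (π (φ c)) (π (φ d)) := by
          rintro c d hcd rfl
          rw [ha, π2]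
          by_cases hd : d = a'
          · rw [hd, ha', π1]
            show i.castSucc.1 < (Fin.last b).1
            simp
          · obtain ⟨k, hk1, hk2, hk3⟩ := hadjt d hcd hd
            rw [hk1, π3 _ (by intro h; cases h) (by intro h; injection h with h; exact hk2 h)]
            exact fun h => hk3 h.symm
        intro c d hcd
        show (LG b).Adj (π (φ c)) (π (φ d))
        by_cases hc : c = a
        · exact key c d hcd hc
        · by_cases hd : d = a
          · exact (key d c hcd.symm hd).symm
          · have hc' : c ≠ a' := by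
              rintro rfl
              exact hd (hleaf d hcd)
            have hd' : d ≠ a' := by
              rintro rfl
              exact hc (hleaf c hcd.symm)
            rw [π3 (φ c) (fun h => hc' (hemb.1 (h.trans ha'.symm)))
                (fun h => hc (hemb.1 (h.trans ha.symm))),
              π3 (φ d) (fun h => hd' (hemb.1 (h.trans ha'.symm)))
                (fun h => hd (hemb.1 (h.trans ha.symm)))]
            exact hemb.2 _ _ hcd
    refine ⟨?_, ?_⟩
    · simp only [bad, mem_filter, mem_univ, true_and]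
      refine ⟨hπemb, ⟨a, by simp [ha, π2]⟩, ?_, a, a', haa, by simp [ha, π2], ?_⟩
      · intro c hc
        simp only [Function.comp] at hc
        by_cases h1 : φ c = .s
        · rw [h1, π1] at hc
          cases hc
        · by_cases h2 : φ c = .t i.succ
          · rw [h2, π2] at hc
            injection hc with hc
            exact hne hc.symm
          · rw [π3 _ h1 h2] at hc
            exact h2 hc
      · simp only [Function.comp, ha', π1]
        intro h
        have h' : i.succ.1 < (Fin.last b).1 := h
        rw [hlast] at h'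
        omega
    · rw [hX, mem_filter]
      rintro ⟨_, h⟩
      simp only [Function.comp] at h
      have hx0a' : x0 = a' := by
        by_cases h1 : φ x0 = .s
        · exact hemb.1 (h1.trans ha'.symm)
        · by_cases h2 : φ x0 = .t i.succ
          · rw [h2, π2] at h
            cases h
          · rw [π3 _ h1 h2] at h
            exact absurd h (hnw x0)
      have h1 := hleaf z0 (hx0a' ▸ hz)
      have h2 := hleaf y0 (hx0a' ▸ hx0y0.symm)
      exact hzy (h1.trans h2.symm)
  · intro φ hφ hφM ψ hψ hψM h
    funext c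
    exact πinj _ _ ((hstr φ hφ).2.1 c) (hnotM φ hφ hφM c) ((hstr ψ hψ).2.1 c)
      (hnotM ψ hψ hψM c) (congrFun h c)
  · exact Finset.filter_subset _ _
  · refine (hMc.trans_lt hbound).trans_le ?_
    have hP : ({x0, y0} : Finset (Fin n)).card = 2 := Finset.card_pair hx0y0.ne'
    have hT : b - 1 ≤ (TS (II b {i.castSucc}) : Finset (Vtx Empty Empty b)).card := by
      rw [card_TS]
      have := card_II b {i.castSucc}
      rw [Finset.card_singleton] at this
      omega
    refine (Nat.descFactorial_le _ hT).trans ?_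
    rw [← hP]
    have hyx : y0 ≠ x0 := hx0y0.ne
    apply card_pinned F (LG b) {x0, y0}
      (fun a => if a = x0 then .w (Fin.last b) else .t i.castSucc)
    · intro a ha a' ha' h
      rw [mem_insert, mem_singleton] at ha ha'
      rcases ha with rfl | rfl <;> rcases ha' with rfl | rfl
      · rfl
      · simp [hyx] at h
      · simp [hyx] at h
      · rfl
    · intro a ha h
      rw [mem_TS] at h
      obtain ⟨k, hk, h⟩ := h
      split_ifs at h
      injection h with h
      rw [mem_II, h] at hk
      exact hk.2 (by simp)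
    · intro a ha a' ha' haa
      rw [mem_insert, mem_singleton] at ha ha'
      have hw : (LG b).Adj (.w (Fin.last b)) (.t i.castSucc) := by
        show i.castSucc.1 < (Fin.last b).1
        simp
      rcases ha with rfl | rfl <;> rcases ha' with rfl | rfl
      · exact absurd rfl haa.ne
      · simp only [if_true, if_neg hyx]
        exact hw
      · simp only [if_true, if_neg hyx]
        exact hw.symm
      · exact absurd rfl haa.ne
    · intro a ha a' _ _ t ht
      obtain ⟨k, hk, rfl⟩ := mem_TS.1 ht
      rw [mem_II] at hk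
      split_ifs
      · show k.1 < (Fin.last b).1
        rw [Fin.val_last]
        exact hk.1
      · show i.castSucc ≠ k
        intro hh
        exact hk.2 (by rw [← hh]; simp)
    · exact TS_clique _
    · intro φ h1 h2 h3
      have e1 : φ x0 = .w (Fin.last b) := by
        rw [h2 x0 (by simp)]
        simp
      have e2 : φ y0 = .t i.castSucc := by
        rw [h2 y0 (by simp)]
        simp [hyx]
      rw [hX, mem_filter]
      refine ⟨?_, e1⟩
      simp only [bad, mem_filter, mem_univ, true_and]
      refine ⟨h1, ⟨y0, e2⟩, ?_, y0, x0, hx0y0, e2, ?_⟩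
      · intro z hzz
        by_cases hzP : z ∈ ({x0, y0} : Finset (Fin n))
        · rw [mem_insert, mem_singleton] at hzP
          rcases hzP with rfl | rfl
          · rw [e1] at hzz
            cases hzz
          · rw [e2] at hzz
            injection hzz with hzz
            exact hne hzz.symm
        · obtain ⟨k, hk, hk'⟩ := mem_TS.1 (h3 z hzP)
          rw [hzz] at hk'
          injection hk' with hk'
          rw [mem_II, hk', Fin.val_succ] at hk
          omega
      · rw [e1]
        intro h
        have h' : i.succ.1 < (Fin.last b).1 := h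
        rw [hlast] at h'
        omega

/-- `s` below `w 1` when `F` has a leaf -/
theorem sw_lt_leaf (hy : ∀ a, F.Adj y0 a ↔ a = x0) (hz : F.Adj x0 z0) (hzy : z0 ≠ y0)
    (hiso : ∀ a, ∃ a', F.Adj a a')
    (hbound : n.choose 3 * (3 ^ 3 * (Fintype.card (Vtx Empty Empty b)) ^ (n - 3)) <
      (b / 2) * (b / 2).descFactorial (n - 3)) (hb : 2 ≤ b) (w1 : Fin (b + 1)) (hw1 : w1.1 = 1) :
    Nf F (LG b) .s < Nf F (LG b) (.w w1) := by
  classical
  have hx0y0 : F.Adj y0 x0 := (hy x0).2 rfl
  have hb0 : (0 : Fin (b + 1)).1 = 0 := rfl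
  have hne : Fin.last b ≠ 0 := by
    intro h
    have := congrArg Fin.val h
    rw [Fin.val_last, hb0] at this
    omega
  have hstr : ∀ φ ∈ Eset F (LG b) .s, IsEmb F (LG b) φ ∧
      ∃ a a', F.Adj a a' ∧ φ a = .t (Fin.last b) ∧ φ a' = .s := by
    intro φ hφ
    obtain ⟨hemb, a', ha'⟩ := mem_Eset.1 hφ
    obtain ⟨a, ha⟩ := hiso a'
    have h1 := hemb.2 _ _ ha
    rw [ha', adj_s'] at h1
    exact ⟨hemb, a, a', ha.symm, h1, ha'⟩
  set π : Vtx Empty Empty b → Vtx Empty Empty b := fun x =>
    if x = .s then .w w1 else if x = .t (Fin.last b) then .t 0 else x with hπ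
  have π1 : π .s = .w w1 := by simp [hπ]
  have π2 : π (.t (Fin.last b)) = .t 0 := by simp [hπ]
  have π3 : ∀ x, x ≠ .s → x ≠ .t (Fin.last b) → π x = x := by
    intro x h1 h2
    simp [hπ, h1, h2]
  set M : Finset (Fin n → Vtx Empty Empty b) := (univ.filter (fun φ =>
      3 ≤ (univ.filter (fun a => φ a ∈ ({.s, .t (Fin.last b), .t 0} :
        Finset (Vtx Empty Empty b)))).card)) with hM
  have hMc : M.card ≤ n.choose 3 * (3 ^ 3 * (Fintype.card (Vtx Empty Empty b)) ^ (n - 3)) :=
    card_many3 _ _ _ (by intro h; cases h) (by intro h; cases h)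
      (by intro h; injection h with h; exact hne h)
  have hnotM : ∀ φ ∈ Eset F (LG b) .s, φ ∉ M → ∀ a, φ a ≠ .t 0 := by
    intro φ hφ hφM c hc
    obtain ⟨_, a, a', _, ha, ha'⟩ := hstr φ hφ
    exact hφM (mem_many _ _ _ (by intro h; cases h) (by intro h; cases h)
      (by intro h; injection h with h; exact hne h) ⟨a', ha'⟩ ⟨a, ha⟩ ⟨c, hc⟩)
  have hnotw : ∀ φ ∈ Eset F (LG b) .s, φ ∉ M → ∀ a, φ a ≠ .w w1 := by
    intro φ hφ hφM c hc
    obtain ⟨hemb, _⟩ := hstr φ hφ
    obtain ⟨d, hd⟩ := hiso c
    have h1 := hemb.2 _ _ hd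
    rw [hc] at h1
    rcases hx : φ d with p | p | _ | k | k
    · exact p.elim
    · exact p.elim
    · rw [hx] at h1
      exact h1.elim
    · rw [hx] at h1
      have h2 : k.1 < w1.1 := h1
      have h3 : k = 0 := by
        apply Fin.ext
        rw [hb0]
        omega
      rw [h3] at hx
      exact hnotM φ hφ hφM d hx
    · rw [hx] at h1
      exact h1.elim
  have πinj : ∀ x y, x ≠ .t 0 → x ≠ .w w1 → y ≠ .t 0 → y ≠ .w w1 → π x = π y → x = y := by
    intro x y hx1 hx2 hy1 hy2 h
    by_cases h1 : x = .s
    · by_cases h2 : y = .s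
      · rw [h1, h2]
      · by_cases h3 : y = .t (Fin.last b)
        · rw [h1, h3, π1, π2] at h
          cases h
        · rw [h1, π1, π3 y h2 h3] at h
          exact absurd h.symm hy2
    · by_cases h1' : x = .t (Fin.last b)
      · by_cases h2 : y = .s
        · rw [h1', h2, π1, π2] at h
          cases h
        · by_cases h3 : y = .t (Fin.last b)
          · rw [h1', h3]
          · rw [h1', π2, π3 y h2 h3] at h
            exact absurd h.symm hy1
      · rw [π3 x h1 h1'] at h
        by_cases h2 : y = .s
        · rw [h2, π1] at h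
          exact absurd h hx2
        · by_cases h3 : y = .t (Fin.last b)
          · rw [h3, π2] at h
            exact absurd h hx1
          · rw [π3 y h2 h3] at h
            exact h
  -- the extra embeddings
  set J : Finset (Fin (b + 1)) := univ.filter (fun j => b / 2 < j.1) with hJ
  set I : Finset (Fin (b + 1)) := univ.filter (fun j => 1 ≤ j.1 ∧ j.1 ≤ b / 2) with hI
  have hJc : b / 2 ≤ J.card := by
    have h1 : (Finset.range (b / 2)).card ≤ J.card := by
      apply Finset.card_le_card_of_injOn (fun k => (⟨min (b / 2 + 1 + k) b, by omega⟩ : Fin (b + 1)))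
      · intro k hk
        rw [Finset.mem_coe, Finset.mem_range] at hk
        rw [hJ, Finset.mem_coe, mem_filter]
        refine ⟨mem_univ _, ?_⟩
        show b / 2 < min (b / 2 + 1 + k) b
        omega
      · intro k hk l hl h
        rw [Finset.mem_coe, Finset.mem_range] at hk hl
        have h := congrArg Fin.val h
        simp only at h
        omega
    rwa [Finset.card_range] at h1
  have hIc : b / 2 ≤ (TS I : Finset (Vtx Empty Empty b)).card := by
    rw [card_TS]
    have h1 : (Finset.range (b / 2)).card ≤ I.card := by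
      apply Finset.card_le_card_of_injOn (fun k => (⟨min (1 + k) b, by omega⟩ : Fin (b + 1)))
      · intro k hk
        rw [Finset.mem_coe, Finset.mem_range] at hk
        rw [hI, Finset.mem_coe, mem_filter]
        refine ⟨mem_univ _, ?_⟩
        show 1 ≤ min (1 + k) b ∧ min (1 + k) b ≤ b / 2
        omega
      · intro k hk l hl h
        rw [Finset.mem_coe, Finset.mem_range] at hk hl
        have h := congrArg Fin.val h
        simp only at h
        omega
    rwa [Finset.card_range] at h1
  set Xj : Fin (b + 1) → Finset (Fin n → Vtx Empty Empty b) := fun j =>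
    (Eset F (LG b) (.w w1)).filter (fun φ => φ x0 = .t 0 ∧ φ z0 = .w j) with hXj
  have hX0 : x0 ≠ y0 := hx0y0.ne'
  have hX1 : x0 ≠ z0 := hz.ne
  have hXjc : ∀ j ∈ J, (b / 2).descFactorial (n - 3) ≤ (Xj j).card := by
    intro j hj
    rw [hJ, mem_filter] at hj
    have hP : ({y0, x0, z0} : Finset (Fin n)).card = 3 := by
      rw [Finset.card_eq_three]
      exact ⟨y0, x0, z0, hX0.symm, hzy.symm, hX1, rfl⟩
    refine (Nat.descFactorial_le _ hIc).trans ?_
    rw [← hP]
    set φ0 : Fin n → Vtx Empty Empty b := fun a => if a = x0 then .t 0 else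
      if a = y0 then .w w1 else .w j with hφ0
    have v1 : φ0 x0 = .t 0 := by simp [hφ0]
    have v2 : φ0 y0 = .w w1 := by simp [hφ0, hX0.symm]
    have v3 : φ0 z0 = .w j := by simp [hφ0, hX1.symm, hzy]
    have hjw : j ≠ w1 := by
      intro h
      rw [h] at hj
      omega
    have tw1 : (LG b).Adj (.t 0) (.w w1) := by
      show (0 : Fin (b + 1)).1 < w1.1
      omega
    have twj : (LG b).Adj (.t 0) (.w j) := by
      show (0 : Fin (b + 1)).1 < j.1
      omega
    apply card_pinned F (LG b) {y0, x0, z0} φ0
    · intro a ha a' ha' h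
      rw [mem_insert, mem_insert, mem_singleton] at ha ha'
      rcases ha with ha | ha | ha <;> rcases ha' with ha' | ha' | ha'
      · rw [ha, ha']
      · rw [ha, ha', v1, v2] at h
        cases h
      · rw [ha, ha', v2, v3] at h
        injection h with h
        exact absurd h.symm hjw
      · rw [ha, ha', v1, v2] at h
        cases h
      · rw [ha, ha']
      · rw [ha, ha', v1, v3] at h
        cases h
      · rw [ha, ha', v2, v3] at h
        injection h with h
        exact absurd h hjw
      · rw [ha, ha', v1, v3] at h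
        cases h
      · rw [ha, ha']
    · intro a ha h
      rw [mem_TS] at h
      obtain ⟨k, hk, h⟩ := h
      rw [hI, mem_filter] at hk
      rw [mem_insert, mem_insert, mem_singleton] at ha
      rcases ha with ha | ha | ha
      · rw [ha, v2] at h
        cases h
      · rw [ha, v1] at h
        injection h with h
        rw [h] at hk
        rw [hb0] at hk
        omega
      · rw [ha, v3] at h
        cases h
    · intro a ha a' ha' haa
      rw [mem_insert, mem_insert, mem_singleton] at ha ha'
      rcases ha with ha | ha | ha <;> rcases ha' with ha' | ha' | ha'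
      · rw [ha, ha'] at haa
        exact absurd rfl haa.ne
      · rw [ha, ha', v1, v2]
        exact tw1.symm
      · rw [ha, ha', hy] at haa
        exact absurd haa.symm hX1
      · rw [ha, ha', v1, v2]
        exact tw1
      · rw [ha, ha'] at haa
        exact absurd rfl haa.ne
      · rw [ha, ha', v1, v3]
        exact twj
      · rw [ha, ha'] at haa
        exact absurd ((hy z0).1 haa.symm).symm hX1
      · rw [ha, ha', v1, v3]
        exact twj.symm
      · rw [ha, ha'] at haa
        exact absurd rfl haa.ne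
    · intro a ha a' ha' haa t ht
      obtain ⟨k, hk, rfl⟩ := mem_TS.1 ht
      rw [hI, mem_filter] at hk
      rw [mem_insert, mem_insert, mem_singleton] at ha
      rcases ha with ha | ha | ha
      · rw [ha, hy] at haa
        exfalso
        apply ha'
        rw [haa]
        simp
      · rw [ha, v1]
        show (0 : Fin (b + 1)) ≠ k
        intro h
        rw [← h, hb0] at hk
        omega
      · rw [ha, v3]
        show k.1 < j.1
        omega
    · exact TS_clique _
    · intro φ h1 h2 h3
      rw [hXj]
      simp only [mem_filter]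
      rw [mem_Eset]
      refine ⟨⟨h1, y0, ?_⟩, ?_, ?_⟩
      · rw [h2 y0 (by simp), v2]
      · rw [h2 x0 (by simp), v1]
      · rw [h2 z0 (by simp), v3]
  set X : Finset (Fin n → Vtx Empty Empty b) := J.biUnion Xj with hX
  have hXc : (b / 2) * (b / 2).descFactorial (n - 3) ≤ X.card := by
    rw [hX, Finset.card_biUnion]
    · calc (b / 2) * (b / 2).descFactorial (n - 3) ≤ J.card * (b / 2).descFactorial (n - 3) :=
          Nat.mul_le_mul_right _ hJc
        _ = J.card • (b / 2).descFactorial (n - 3) := (smul_eq_mul _ _).symm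
        _ ≤ _ := Finset.card_nsmul_le_sum _ _ _ hXjc
    · intro j _ k _ hjk
      show Disjoint (Xj j) (Xj k)
      rw [Finset.disjoint_left]
      intro φ h1 h2
      simp only [hXj, mem_filter] at h1 h2
      have := h1.2.2.symm.trans h2.2.2
      injection this with this
      exact hjk this
  apply transport π _ _ X M
  · intro φ hφ hφM
    obtain ⟨hemb, a, a', haa, ha, ha'⟩ := hstr φ hφ
    have hnw := hnotw φ hφ hφM
    have hnt := hnotM φ hφ hφM
    have hleaf : ∀ c, F.Adj a' c → c = a := by
      intro c hc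
      have h1 := hemb.2 _ _ hc
      rw [ha', adj_s', ← ha] at h1
      exact hemb.1 h1
    have hadjt : ∀ c, F.Adj a c → c ≠ a' → ∃ k, φ c = .t k ∧ k ≠ Fin.last b ∧ k ≠ 0 := by
      intro c hc hca
      have h1 := hemb.2 _ _ hc
      rw [ha] at h1
      rcases hx : φ c with p | p | _ | k | k
      · exact p.elim
      · exact p.elim
      · exact absurd (hemb.1 (hx.trans ha'.symm)) hca
      · refine ⟨k, rfl, ?_, ?_⟩
        · rintro rfl
          exact hc.ne (hemb.1 (ha.trans hx.symm))
        · rintro rfl
          exact hnt c hx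
      · rw [hx] at h1
        have h' : (Fin.last b).1 < k.1 := h1
        have := k.2
        rw [Fin.val_last] at h'
        omega
    have hπemb : IsEmb F (LG b) (π ∘ φ) := by
      refine ⟨?_, ?_⟩
      · intro c d hcd
        exact hemb.1 (πinj _ _ (hnt c) (hnw c) (hnt d) (hnw d) hcd)
      · have key : ∀ c d, F.Adj c d → c = a → (LG b).Adj (π (φ c)) (π (φ d)) := by
          rintro c d hcd rfl
          rw [ha, π2]
          by_cases hd : d = a'
          · rw [hd, ha', π1]
            show (0 : Fin (b + 1)).1 < w1.1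
            omega
          · obtain ⟨k, hk1, hk2, hk3⟩ := hadjt d hcd hd
            rw [hk1, π3 _ (by intro h; cases h) (by intro h; injection h with h; exact hk2 h)]
            exact fun h => hk3 h.symm
        intro c d hcd
        show (LG b).Adj (π (φ c)) (π (φ d))
        by_cases hc : c = a
        · exact key c d hcd hc
        · by_cases hd : d = a
          · exact (key d c hcd.symm hd).symm
          · have hc' : c ≠ a' := by
              rintro rfl
              exact hd (hleaf d hcd)
            have hd' : d ≠ a' := by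
              rintro rfl
              exact hc (hleaf c hcd.symm)
            rw [π3 (φ c) (fun h => hc' (hemb.1 (h.trans ha'.symm)))
                (fun h => hc (hemb.1 (h.trans ha.symm))),
              π3 (φ d) (fun h => hd' (hemb.1 (h.trans ha'.symm)))
                (fun h => hd (hemb.1 (h.trans ha.symm)))]
            exact hemb.2 _ _ hcd
    refine ⟨mem_Eset.2 ⟨hπemb, a', by simp [ha', π1]⟩, ?_⟩
    rw [hX, mem_biUnion]
    rintro ⟨j, hj, h⟩
    simp only [hXj, mem_filter, Function.comp] at h
    rw [hJ, mem_filter] at hj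
    obtain ⟨_, h1, h2⟩ := h
    have hx0a : x0 = a := by
      by_cases g1 : φ x0 = .s
      · rw [g1, π1] at h1
        cases h1
      · by_cases g2 : φ x0 = .t (Fin.last b)
        · exact hemb.1 (g2.trans ha.symm)
        · rw [π3 _ g1 g2] at h1
          exact absurd h1 (hnt x0)
    have hz0 : z0 ≠ a' := by
      rintro rfl
      rw [ha', π1] at h2
      injection h2 with h2
      rw [← h2, hw1] at hj
      omega
    obtain ⟨k, hk1, hk2, hk3⟩ := hadjt z0 (hx0a ▸ hz) hz0
    rw [hk1, π3 _ (by intro h; cases h) (by intro h; injection h with h; exact hk2 h)] at h2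
    cases h2
  · intro φ hφ hφM ψ hψ hψM h
    funext c
    exact πinj _ _ (hnotM φ hφ hφM c) (hnotw φ hφ hφM c) (hnotM ψ hψ hψM c)
      (hnotw ψ hψ hψM c) (congrFun h c)
  · intro φ hφ
    rw [hX, mem_biUnion] at hφ
    obtain ⟨j, _, h⟩ := hφ
    exact (mem_filter.1 h).1
  · exact (hMc.trans_lt hbound).trans_le hXc

end leaf

end Pool.Agent.Helper517.FIrr
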