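import Pool.Agent.Helper517.FIrrE

set_option autoImplicit false

namespace Pool.Agent.Helper517.FIrr

open Finset

/-- index set of the dominating vertices -/
abbrev DD (h : ℕ) := Fin h ⊕ (Fin h × Fin (h + 1))

/-- index set of the columns -/
abbrev OO (h : ℕ) := Fin h ⊕ Fin h

/-- incidences of the design -/
def md (h : ℕ) : OO h → DD h → Bool
  | .inl x, .inl s => decide (s ≤ x)
  | .inl x, .inr (_, p) => decide (p.1 + x.1 + 1 = h)
  | .inr _, .inl _ => true
  | .inr j, .inr (i, _) => decide (i < j)

/-- the columns of the design -/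
def Rd (h : ℕ) (c : OO h) : Finset (DD h) := univ.filter (fun q => md h c q = true)

theorem mem_Rd {h : ℕ} {c : OO h} {q : DD h} : q ∈ Rd h c ↔ md h c q = true := by
  simp [Rd]

theorem ll_mem {h : ℕ} {x s : Fin h} : (.inl s : DD h) ∈ Rd h (.inl x) ↔ s ≤ x := by
  simp [mem_Rd, md]

theorem lr_mem {h : ℕ} {x i : Fin h} {p : Fin (h + 1)} :
    (.inr (i, p) : DD h) ∈ Rd h (.inl x) ↔ p.1 + x.1 + 1 = h := by
  simp [mem_Rd, md]

theorem rl_mem {h : ℕ} {j s : Fin h} : (.inl s : DD h) ∈ Rd h (.inr j) := by
  simp [mem_Rd, md]

theorem rr_mem {h : ℕ} {j i : Fin h} {p : Fin (h + 1)} :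
    (.inr (i, p) : DD h) ∈ Rd h (.inr j) ↔ i < j := by
  simp [mem_Rd, md]

theorem card_Rl {h : ℕ} (x : Fin h) : (Rd h (.inl x)).card = x.1 + 1 + h := by
  unfold Rd
  rw [Finset.card_filter, Fintype.sum_sum_type, Fintype.sum_prod_type]
  congr 1
  · rw [← Finset.card_filter]
    have : univ.filter (fun s : Fin h => md h (.inl x) (.inl s) = true) = Finset.Iic x := by
      ext s
      simp [md]
    rw [this, Fin.card_Iic]
  · have hp : ∀ i : Fin h, ∑ p : Fin (h + 1),
        (if md h (.inl x) (.inr (i, p)) = true then 1 else 0) = 1 := by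
      intro i
      rw [← Finset.card_filter, Finset.card_eq_one]
      refine ⟨⟨h - 1 - x.1, by omega⟩, ?_⟩
      ext p
      have := x.2
      simp only [md, mem_filter, mem_univ, true_and, decide_eq_true_eq, mem_singleton, Fin.ext_iff]
      omega
    rw [Finset.sum_congr rfl (fun i _ => hp i)]
    simp

theorem card_Rr {h : ℕ} (j : Fin h) : (Rd h (.inr j)).card = h + j.1 * (h + 1) := by
  unfold Rd
  rw [Finset.card_filter, Fintype.sum_sum_type, Fintype.sum_prod_type]
  congr 1
  · simp [md]
  · have hp : ∀ i : Fin h, ∑ p : Fin (h + 1),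
        (if md h (.inr j) (.inr (i, p)) = true then 1 else 0) =
          (if i < j then 1 else 0) * (h + 1) := by
      intro i
      by_cases hi : i < j
      · simp [md, hi]
      · simp [md, hi]
    rw [Finset.sum_congr rfl (fun i _ => hp i), ← Finset.sum_mul, ← Finset.card_filter]
    congr 1
    have : univ.filter (fun s : Fin h => s < j) = Finset.Iio j := by
      ext s
      simp
    rw [this, Fin.card_Iio]

/-- the neighbourhood of `s` in the design -/
def Sd (h m : ℕ) (hm : m ≤ h) : Finset (DD h) :=
  univ.image (fun k : Fin m => (.inl (Fin.castLE hm k) : DD h))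

theorem l_Sd {h m : ℕ} {hm : m ≤ h} {s : Fin h} : (.inl s : DD h) ∈ Sd h m hm ↔ s.1 < m := by
  simp only [Sd, mem_image, mem_univ, true_and]
  constructor
  · rintro ⟨k, hk⟩
    injection hk with hk
    rw [← hk]
    exact k.2
  · intro hs
    refine ⟨⟨s.1, hs⟩, ?_⟩
    rfl

theorem r_Sd {h m : ℕ} {hm : m ≤ h} {q : Fin h × Fin (h + 1)} :
    (.inr q : DD h) ∉ Sd h m hm := by
  simp only [Sd, mem_image, mem_univ, true_and]
  rintro ⟨k, hk⟩
  cases hk

theorem card_Sd {h m : ℕ} (hm : m ≤ h) : (Sd h m hm).card = m := by
  rw [Sd, Finset.card_image_of_injective, Finset.card_univ, Fintype.card_fin]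
  intro k l hkl
  injection hkl with hkl
  exact Fin.castLE_injective hm hkl

/-- the rank of a dominating vertex -/
def rk (h : ℕ) : DD h → ℕ
  | .inl s => s.1
  | .inr (i, p) => h + i.1 * (h + 1) + p.1

theorem rk_inj (h : ℕ) : Function.Injective (rk h) := by
  rintro (s | ⟨i, p⟩) (s' | ⟨i', p'⟩) hh
  · have : s = s' := Fin.ext hh
    rw [this]
  · simp only [rk] at hh
    have := s.2
    omega
  · simp only [rk] at hh
    have := s'.2
    omega
  · simp only [rk] at hh
    have h1 : i.1 * (h + 1) + p.1 = i'.1 * (h + 1) + p'.1 := by omega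
    have h2 : i.1 = i'.1 := by
      have h3 : (i.1 * (h + 1) + p.1) / (h + 1) = (i'.1 * (h + 1) + p'.1) / (h + 1) := by
        rw [h1]
      rw [Nat.mul_comm, Nat.mul_add_div (by omega), Nat.mul_comm, Nat.mul_add_div (by omega),
        Nat.div_eq_of_lt p.2, Nat.div_eq_of_lt p'.2] at h3
      simpa using h3
    have h3 : p.1 = p'.1 := by
      rw [h2] at h1
      omega
    rw [Fin.ext h2, Fin.ext h3]

theorem chain {D : Type} (r : D → ℕ) (hr : Function.Injective r) (g : D → ℕ)
    (hpred : ∀ q', 0 < r q' → ∃ q, r q + 1 = r q' ∧ g q' < g q) :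
    ∀ k q q', r q' = k → r q < r q' → g q' < g q := by
  intro k
  induction k with
  | zero =>
    intro q q' h1 h2
    omega
  | succ k ih =>
    intro q q' h1 h2
    obtain ⟨q'', h3, h4⟩ := hpred q' (by omega)
    rcases Nat.lt_or_ge (r q) (r q'') with h5 | h5
    · exact h4.trans (ih q q'' (by omega) h5)
    · have : r q = r q'' := by omega
      rw [hr this]
      exact h4

theorem chain_inj {D : Type} (r : D → ℕ) (hr : Function.Injective r) (g : D → ℕ)
    (hpred : ∀ q', 0 < r q' → ∃ q, r q + 1 = r q' ∧ g q' < g q) : Function.Injective g := by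
  intro q q' h
  rcases Nat.lt_trichotomy (r q) (r q') with h1 | h1 | h1
  · have := chain r hr g hpred _ q q' rfl h1
    omega
  · exact hr h1
  · have := chain r hr g hpred _ q' q rfl h1
    omega

section main

variable {n : ℕ} (F : SimpleGraph (Fin n)) (y0 : Fin n)

/-- injectivity on the dominating vertices -/
theorem dd_inj (h b m : ℕ) (hm : m ≤ h) (hδ : 2 ≤ (nb F y0).card) (hh : (nb F y0).card ≤ h)
    (hb : n ≤ b)
    (hmin : ∀ a, (nb F y0).card ≤ (nb F a).card)
    (hbound : n.choose ((nb F y0).card + 2) *
      ((Sg : Finset (Vtx (DD h) (OO h) b)).card ^ ((nb F y0).card + 2) *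
        (Fintype.card (Vtx (DD h) (OO h) b)) ^ (n - ((nb F y0).card + 2))) <
      b.descFactorial (n - ((nb F y0).card + 1))) :
    Function.Injective (fun q : DD h => Nf F (VG b (Rd h) (Sd h m hm)) (.d q)) := by
  apply chain_inj (rk h) (rk_inj h)
  have hcl : ∀ x, (nb F y0).card ≤ (Rd h (.inl x)).card := by
    intro x
    rw [card_Rl]
    omega
  have hcr : ∀ x, (nb F y0).card ≤ (Rd h (.inr x)).card := by
    intro x
    rw [card_Rr]
    omega
  rintro (s | ⟨i, p⟩) hq'
  · have hs : 0 < s.1 := hq'
    have hs2 := s.2
    refine ⟨.inl ⟨s.1 - 1, by omega⟩, ?_, ?_⟩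
    · simp only [rk]
      omega
    · apply dd_lt_sup F y0 (by omega) hb _ _ _ _ (.inl ⟨s.1 - 1, by omega⟩) _ _ (hcl _)
      · rintro (x | j) hx
        · rw [ll_mem] at hx ⊢
          exact le_trans (Fin.le_def.2 (Nat.sub_le _ _)) hx
        · exact rl_mem
      · intro hx
        rw [l_Sd] at hx ⊢
        exact lt_of_le_of_lt (Nat.sub_le _ _) hx
      · rw [ll_mem]
      · rw [ll_mem, Fin.le_def]
        simp only
        omega
  · have hi := i.2
    have hp := p.2
    rcases Nat.eq_zero_or_pos p.1 with hp0 | hp0
    · rcases Nat.eq_zero_or_pos i.1 with hi0 | hi0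
      · refine ⟨.inl ⟨h - 1, by omega⟩, ?_, ?_⟩
        · simp only [rk, hp0, hi0]
          omega
        · apply dd_lt_sup F y0 (by omega) hb _ _ _ _ (.inr i) _ _ (hcr _)
          · rintro (x | j) hx
            · rw [lr_mem] at hx
              rw [ll_mem, Fin.le_def]
              simp only
              omega
            · exact rl_mem
          · intro hx
            exact absurd hx r_Sd
          · exact rl_mem
          · rw [rr_mem]
            exact lt_irrefl _
      · refine ⟨.inr (⟨i.1 - 1, by omega⟩, ⟨h, by omega⟩), ?_, ?_⟩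
        · simp only [rk, hp0]
          obtain ⟨k, hk⟩ : ∃ k, i.1 = k + 1 := ⟨i.1 - 1, by omega⟩
          rw [hk]
          simp only [Nat.add_sub_cancel]
          ring
        · apply dd_lt_exch F y0 _ _ (.inl ⟨h - 1, by omega⟩) (.inr i) _ _ _ _ _ _ hδ (hcr _) hmin
            hbound
          · rw [rr_mem, Fin.lt_def]
            simp only
            omega
          · rw [rr_mem]
            exact lt_irrefl _
          · rw [lr_mem]
            simp only
            omega
          · rintro (x | j) hne hx
            · exfalso
              apply hne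
              rw [lr_mem] at hx
              congr 1
              apply Fin.ext
              simp only
              omega
            · rw [rr_mem] at hx ⊢
              refine lt_of_le_of_lt ?_ hx
              rw [Fin.le_def]
              simp only
              omega
          · intro hx
            exact absurd hx r_Sd
          · rw [card_Rl, card_Rr]
            simp only
            obtain ⟨k, hk⟩ : ∃ k, i.1 = k + 1 := ⟨i.1 - 1, by omega⟩
            rw [hk]
            have : (k + 1) * (h + 1) = k * (h + 1) + (h + 1) := by ring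
            rw [this]
            omega
    · refine ⟨.inr (i, ⟨p.1 - 1, by omega⟩), ?_, ?_⟩
      · simp only [rk]
        omega
      · by_cases hph : p.1 = h
        · apply dd_lt_sup F y0 (by omega) hb _ _ _ _ (.inl ⟨0, by omega⟩) _ _ (hcl _)
          · rintro (x | j) hx
            · rw [lr_mem] at hx
              omega
            · rw [rr_mem] at hx ⊢
              exact hx
          · intro hx
            exact absurd hx r_Sd
          · rw [lr_mem]
            simp only
            omega
          · rw [lr_mem]
            simp only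
            omega
        · apply dd_lt_exch F y0 _ _ (.inl ⟨h - 1 - p.1, by omega⟩) (.inl ⟨h - p.1, by omega⟩)
            _ _ _ _ _ _ hδ (hcl _) hmin hbound
          · rw [lr_mem]
            simp only
            omega
          · rw [lr_mem]
            simp only
            omega
          · rw [lr_mem]
            simp only
            omega
          · rintro (x | j) hne hx
            · exfalso
              apply hne
              rw [lr_mem] at hx
              congr 1
              apply Fin.ext
              simp only
              omega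
            · rw [rr_mem] at hx ⊢
              exact hx
          · intro hx
            exact absurd hx r_Sd
          · rw [card_Rl, card_Rl]
            simp only
            omega

end main

end Pool.Agent.Helper517.FIrr
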