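import Mathlib
import Pool.Agent.Helper580.SimonBase

set_option autoImplicit false
set_option linter.unusedSectionVars false

open Classical
open Pool.Agent.Helper580.Simon

namespace Pool.Agent.Helper517.LM

variable {V : Type} [Fintype V]

/-- signed sum over subsets of `U` of a function of the number of components after adding `B` -/
noncomputable def Z (f : ℕ → ℝ) (B U : Finset (Sym2 V)) : ℝ :=
  ∑ A ∈ U.powerset, (-1 : ℝ) ^ A.card * f (kk (A ∪ B))

/-- sign -/
noncomputable def f0 (k : ℕ) : ℝ := (-1 : ℝ) ^ k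
/-- weighted sign -/
noncomputable def f1 (k : ℕ) : ℝ := (k : ℝ) * (-1 : ℝ) ^ k

lemma Z_insert (f : ℕ → ℝ) (B U : Finset (Sym2 V)) (e : Sym2 V) (he : e ∉ U) :
    Z f B (insert e U) = Z f B U - Z f (insert e B) U := by
  unfold Z
  rw [Finset.sum_powerset_insert he, sub_eq_add_neg, ← Finset.sum_neg_distrib]
  congr 1
  apply Finset.sum_congr rfl
  intro A hA
  have h1 : e ∉ A := fun h => he (Finset.mem_powerset.1 hA h)
  rw [Finset.card_insert_of_notMem h1]
  have h2 : insert e A ∪ B = A ∪ insert e B := by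
    ext x; simp only [Finset.mem_union, Finset.mem_insert]; tauto
  rw [h2]; ring

lemma Z_loop (f : ℕ → ℝ) (B U : Finset (Sym2 V)) (a b : V) (h : Rch B a b) :
    Z f (insert s(a, b) B) U = Z f B U := by
  unfold Z
  apply Finset.sum_congr rfl
  intro A _
  have h2 : A ∪ insert s(a, b) B = insert s(a, b) (A ∪ B) := by
    ext x; simp only [Finset.mem_union, Finset.mem_insert]; tauto
  rw [h2, kk_insert_of_rch (h.mono Finset.subset_union_right)]

lemma Z_zero (f : ℕ → ℝ) (B U : Finset (Sym2 V)) (a b : V) (hU : s(a, b) ∈ U) (h : Rch B a b) :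
    Z f B U = 0 := by
  have h1 : U = insert s(a, b) (U.erase s(a, b)) := (Finset.insert_erase hU).symm
  rw [h1, Z_insert _ _ _ _ (Finset.notMem_erase _ _), Z_loop _ _ _ _ _ h, sub_self]

lemma Z_sign (U : Finset (Sym2 V)) : ∀ B : Finset (Sym2 V),
    0 ≤ (-1 : ℝ) ^ kk B * Z f0 B U ∧
    ((∀ a b, s(a, b) ∈ U → ¬ Rch B a b) → 0 < (-1 : ℝ) ^ kk B * Z f0 B U) := by
  induction U using Finset.induction_on with
  | empty =>
    intro B
    have h : (-1 : ℝ) ^ kk B * Z f0 B (∅ : Finset (Sym2 V)) = 1 := by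
      unfold Z f0
      simp [← pow_add, ← two_mul]
    rw [h]
    exact ⟨zero_le_one, fun _ => zero_lt_one⟩
  | @insert e U he ih =>
    intro B
    induction e using Sym2.ind with
    | _ a b =>
    by_cases hab : Rch B a b
    · have h0 : Z f0 B (insert s(a, b) U) = 0 := Z_zero _ _ _ a b (Finset.mem_insert_self _ _) hab
      rw [h0, mul_zero]
      exact ⟨le_refl _, fun h => absurd hab (h a b (Finset.mem_insert_self _ _))⟩
    · have hk := kk_insert_of_not_rch hab
      have h1 := (ih B)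
      have h2 := (ih (insert s(a, b) B)).1
      have h3 : (-1 : ℝ) ^ kk B * Z f0 B (insert s(a, b) U) =
          (-1 : ℝ) ^ kk B * Z f0 B U +
            (-1 : ℝ) ^ kk (insert s(a, b) B) * Z f0 (insert s(a, b) B) U := by
        rw [Z_insert _ _ _ _ he, ← hk, pow_succ]; ring
      rw [h3]
      refine ⟨add_nonneg h1.1 h2, fun h => add_pos_of_pos_of_nonneg (h1.2 ?_) h2⟩
      intro c d hcd
      exact h c d (Finset.mem_insert_of_mem hcd)

/-- the mean-size formula -/
lemma eps_eq (E : Finset (Sym2 V)) :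
    (∑ A ∈ E.powerset,
        ((Fintype.card V : ℝ) -
          (Nat.card (SimpleGraph.fromEdgeSet (A : Set (Sym2 V))).ConnectedComponent : ℝ)) *
        (-1 : ℝ) ^ (A.card + Fintype.card V +
          Nat.card (SimpleGraph.fromEdgeSet (A : Set (Sym2 V))).ConnectedComponent)) /
      (∑ A ∈ E.powerset,
        (-1 : ℝ) ^ (A.card + Fintype.card V +
          Nat.card (SimpleGraph.fromEdgeSet (A : Set (Sym2 V))).ConnectedComponent)) =
    ((Fintype.card V : ℝ) * Z f0 ∅ E - Z f1 ∅ E) / Z f0 ∅ E := by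
  have hs : ((-1 : ℝ) ^ Fintype.card V) ≠ 0 := pow_ne_zero _ (by norm_num)
  have h1 : (∑ A ∈ E.powerset,
        ((Fintype.card V : ℝ) -
          (Nat.card (SimpleGraph.fromEdgeSet (A : Set (Sym2 V))).ConnectedComponent : ℝ)) *
        (-1 : ℝ) ^ (A.card + Fintype.card V +
          Nat.card (SimpleGraph.fromEdgeSet (A : Set (Sym2 V))).ConnectedComponent)) =
      (-1 : ℝ) ^ Fintype.card V * ((Fintype.card V : ℝ) * Z f0 ∅ E - Z f1 ∅ E) := by
    unfold Z f0 f1
    rw [Finset.mul_sum, ← Finset.sum_sub_distrib, Finset.mul_sum]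
    apply Finset.sum_congr rfl
    intro A _
    rw [Finset.union_empty]
    change ((Fintype.card V : ℝ) - (kk A : ℝ)) * (-1 : ℝ) ^ (A.card + Fintype.card V + kk A) = _
    rw [pow_add, pow_add]; ring
  have h2 : (∑ A ∈ E.powerset,
        (-1 : ℝ) ^ (A.card + Fintype.card V +
          Nat.card (SimpleGraph.fromEdgeSet (A : Set (Sym2 V))).ConnectedComponent)) =
      (-1 : ℝ) ^ Fintype.card V * Z f0 ∅ E := by
    unfold Z f0
    rw [Finset.mul_sum]
    apply Finset.sum_congr rfl
    intro A _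
    rw [Finset.union_empty]
    change (-1 : ℝ) ^ (A.card + Fintype.card V + kk A) = _
    rw [pow_add, pow_add]; ring
  rw [h1, h2, mul_div_mul_left _ _ hs]

lemma rch_iso {A : Finset (Sym2 V)} {v x : V} (hv : ∀ e ∈ A, v ∉ e) (h : Rch A v x) : x = v := by
  refine h.induct (fun y => y = v) rfl ?_
  intro c d hcd _ hc
  subst hc
  exact absurd (Sym2.mem_mk_left c d) (hv _ hcd)

lemma kk_pendant {A : Finset (Sym2 V)} {v u : V} (hv : ∀ e ∈ A, v ∉ e) (huv : u ≠ v) :
    kk (insert s(v, u) A) + 1 = kk A := by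
  apply kk_insert_of_not_rch
  intro h
  exact huv (rch_iso hv h)

end Pool.Agent.Helper517.LM
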