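import Mathlib
import Pool.Agent.Helper517.LMBase

set_option autoImplicit false
set_option linter.unusedSectionVars false
set_option linter.unusedVariables false

open Classical
open Pool.Agent.Helper580.Simon

namespace Pool.Agent.Helper517.LM

variable {V : Type} [Fintype V]

/-- signed total weight -/
noncomputable def sg (B U : Finset (Sym2 V)) : ℝ := (-1 : ℝ) ^ kk B * Z f0 B U
/-- signed total rank -/
noncomputable def tg (B U : Finset (Sym2 V)) : ℝ :=
  (-1 : ℝ) ^ kk B * ((kk B : ℝ) * Z f0 B U - Z f1 B U)

lemma sg_nonneg (B U : Finset (Sym2 V)) : 0 ≤ sg B U := (Z_sign U B).1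

lemma sg_empty (B : Finset (Sym2 V)) : sg B ∅ = 1 := by
  unfold sg Z f0
  simp [← pow_add, ← two_mul]

lemma tg_empty (B : Finset (Sym2 V)) : tg B ∅ = 0 := by
  unfold tg Z f0 f1
  simp

lemma sg_zero (B U : Finset (Sym2 V)) (a b : V) (h : Rch B a b) :
    sg B (insert s(a, b) U) = 0 := by
  unfold sg
  rw [Z_zero f0 _ _ a b (Finset.mem_insert_self _ _) h, mul_zero]

lemma tg_zero (B U : Finset (Sym2 V)) (a b : V) (h : Rch B a b) :
    tg B (insert s(a, b) U) = 0 := by
  unfold tg
  rw [Z_zero f0 _ _ a b (Finset.mem_insert_self _ _) h,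
    Z_zero f1 _ _ a b (Finset.mem_insert_self _ _) h]
  simp

lemma sg_rec (B U : Finset (Sym2 V)) (a b : V) (hU : s(a, b) ∉ U) (h : ¬ Rch B a b) :
    sg B (insert s(a, b) U) = sg B U + sg (insert s(a, b) B) U := by
  unfold sg
  rw [Z_insert _ _ _ _ hU, ← kk_insert_of_not_rch h, pow_succ]; ring

lemma tg_rec (B U : Finset (Sym2 V)) (a b : V) (hU : s(a, b) ∉ U) (h : ¬ Rch B a b) :
    tg B (insert s(a, b) U) =
      tg B U + tg (insert s(a, b) B) U + sg (insert s(a, b) B) U := by
  unfold tg sg
  rw [Z_insert _ _ _ _ hU, Z_insert _ _ _ _ hU, ← kk_insert_of_not_rch h, pow_succ]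
  push_cast
  ring

lemma sg_loop (B U : Finset (Sym2 V)) (a b : V) (h : Rch B a b) :
    sg (insert s(a, b) B) U = sg B U := by
  unfold sg
  rw [Z_loop f0 B U a b h, kk_insert_of_rch h]

lemma sg_mono (U : Finset (Sym2 V)) : ∀ (B : Finset (Sym2 V)) (e : Sym2 V),
    sg (insert e B) U ≤ sg B U := by
  induction U using Finset.induction_on with
  | empty => intro B e; rw [sg_empty, sg_empty]
  | @insert g U hg ih =>
    intro B e
    induction g using Sym2.ind with
    | _ a b =>
    by_cases h1 : Rch B a b
    · rw [sg_zero B U a b h1, sg_zero (insert e B) U a b (h1.mono (Finset.subset_insert _ _))]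
    · by_cases h2 : Rch (insert e B) a b
      · rw [sg_zero (insert e B) U a b h2]
        exact sg_nonneg _ _
      · rw [sg_rec B U a b hg h1, sg_rec (insert e B) U a b hg h2, Finset.insert_comm]
        exact add_le_add (ih B e) (ih (insert s(a, b) B) e)

lemma sg_bridge (B U : Finset (Sym2 V)) (a b : V) (h : ¬ Rch (B ∪ U) a b) :
    sg (insert s(a, b) B) U = sg B U := by
  have hB : ¬ Rch B a b := fun h1 => h (h1.mono Finset.subset_union_left)
  unfold sg Z
  rw [Finset.mul_sum, Finset.mul_sum]
  apply Finset.sum_congr rfl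
  intro A hA
  have hA' : ¬ Rch (A ∪ B) a b := fun h1 => h (h1.mono (by
    intro x hx
    rcases Finset.mem_union.1 hx with hx | hx
    · exact Finset.mem_union_right _ (Finset.mem_powerset.1 hA hx)
    · exact Finset.mem_union_left _ hx))
  have h2 : A ∪ insert s(a, b) B = insert s(a, b) (A ∪ B) := by
    ext x; simp only [Finset.mem_union, Finset.mem_insert]; tauto
  rw [h2, ← kk_insert_of_not_rch hB, ← kk_insert_of_not_rch hA']
  unfold f0
  rw [pow_succ, pow_succ]; ring

lemma tg_lower (U : Finset (Sym2 V)) : ∀ B : Finset (Sym2 V),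
    (1 / 2) * ((kk B : ℝ) - kk (B ∪ U)) * sg B U ≤ tg B U := by
  induction U using Finset.induction_on with
  | empty => intro B; rw [tg_empty, Finset.union_empty]; simp
  | @insert g U hg ih =>
    intro B
    induction g using Sym2.ind with
    | _ a b =>
    by_cases h1 : Rch B a b
    · rw [sg_zero B U a b h1, tg_zero B U a b h1, mul_zero]
    · have e1 : B ∪ insert s(a, b) U = insert s(a, b) (B ∪ U) := by
        ext x; simp only [Finset.mem_union, Finset.mem_insert]; tauto
      have e2 : insert s(a, b) B ∪ U = insert s(a, b) (B ∪ U) := by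
        ext x; simp only [Finset.mem_union, Finset.mem_insert]; tauto
      have i1 := ih B
      have i2 := ih (insert s(a, b) B)
      have k1 := kk_insert_of_not_rch h1
      have k1' : (kk (insert s(a, b) B) : ℝ) = kk B - 1 := by
        rw [← k1]; push_cast; ring
      have s1 := sg_nonneg B U
      have s2 := sg_nonneg (insert s(a, b) B) U
      rw [sg_rec B U a b hg h1, tg_rec B U a b hg h1, e1]
      rw [e2, k1'] at i2
      by_cases h2 : Rch (B ∪ U) a b
      · rw [kk_insert_of_rch h2] at i2 ⊢
        nlinarith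
      · have k2 := kk_insert_of_not_rch h2
        have k2' : (kk (insert s(a, b) (B ∪ U)) : ℝ) = kk (B ∪ U) - 1 := by
          rw [← k2]; push_cast; ring
        have hb := sg_bridge B U a b h2
        rw [k2'] at i2 ⊢
        rw [hb] at i2 ⊢
        nlinarith

lemma tg_upper (U : Finset (Sym2 V)) : ∀ B : Finset (Sym2 V),
    tg B U ≤ ((kk B : ℝ) - kk (B ∪ U)) * sg B U := by
  induction U using Finset.induction_on with
  | empty => intro B; rw [tg_empty, Finset.union_empty]; simp
  | @insert g U hg ih =>
    intro B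
    induction g using Sym2.ind with
    | _ a b =>
    by_cases h1 : Rch B a b
    · rw [sg_zero B U a b h1, tg_zero B U a b h1, mul_zero]
    · have e1 : B ∪ insert s(a, b) U = insert s(a, b) (B ∪ U) := by
        ext x; simp only [Finset.mem_union, Finset.mem_insert]; tauto
      have e2 : insert s(a, b) B ∪ U = insert s(a, b) (B ∪ U) := by
        ext x; simp only [Finset.mem_union, Finset.mem_insert]; tauto
      have i1 := ih B
      have i2 := ih (insert s(a, b) B)
      have k1 := kk_insert_of_not_rch h1
      have k1' : (kk (insert s(a, b) B) : ℝ) = kk B - 1 := by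
        rw [← k1]; push_cast; ring
      have s1 := sg_nonneg B U
      have s2 := sg_nonneg (insert s(a, b) B) U
      rw [sg_rec B U a b hg h1, tg_rec B U a b hg h1, e1]
      rw [e2, k1'] at i2
      by_cases h2 : Rch (B ∪ U) a b
      · rw [kk_insert_of_rch h2] at i2 ⊢
        nlinarith
      · have k2 := kk_insert_of_not_rch h2
        have k2' : (kk (insert s(a, b) (B ∪ U)) : ℝ) = kk (B ∪ U) - 1 := by
          rw [← k2]; push_cast; ring
        rw [k2'] at i2 ⊢
        nlinarith

lemma kk_empty_le : kk (∅ : Finset (Sym2 V)) ≤ Fintype.card V := by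
  unfold kk
  rw [← Nat.card_eq_fintype_card]
  exact Nat.card_le_card_of_surjective
    (SimpleGraph.fromEdgeSet ((∅ : Finset (Sym2 V)) : Set (Sym2 V))).connectedComponentMk
    (fun c => by
      induction c using SimpleGraph.ConnectedComponent.ind with
      | _ v => exact ⟨v, rfl⟩)

end Pool.Agent.Helper517.LM
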