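import Mathlib

set_option autoImplicit false
set_option linter.unusedSectionVars false
set_option linter.unusedVariables false

open Classical

namespace Pool.Agent.Helper517.LM

variable {V : Type} [Fintype V]

/-- the graph of edges inside `Q` -/
def gin (G : SimpleGraph V) (Q : Finset V) : SimpleGraph V where
  Adj x y := G.Adj x y ∧ x ∈ Q ∧ y ∈ Q
  symm := ⟨fun x y h => ⟨h.1.symm, h.2.2, h.2.1⟩⟩
  loopless := ⟨fun x h => h.1.ne rfl⟩

lemma exit_walk (G : SimpleGraph V) (Q : Finset V) {u v : V} (w : G.Walk u v) :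
    u ∈ Q → v ∉ Q → ∃ x y, (gin G Q).Reachable u x ∧ x ∈ Q ∧ y ∉ Q ∧ G.Adj x y := by
  induction w with
  | nil => intro h1 h2; exact absurd h1 h2
  | @cons a b c hab w ih =>
    intro h1 h2
    by_cases hb : b ∈ Q
    · obtain ⟨x, y, r, hx, hy, hxy⟩ := ih hb h2
      have : (gin G Q).Adj a b := ⟨hab, h1, hb⟩
      exact ⟨x, y, this.reachable.trans r, hx, hy, hxy⟩
    · exact ⟨a, b, SimpleGraph.Reachable.refl _, h1, hb, hab⟩

lemma long_path (G : SimpleGraph V) (Q : Finset V)
    (hQ : ∀ y ∈ Q, ∀ a b z, G.Adj y a → G.Adj y b → a ≠ b → G.Adj y z → z = a ∨ z = b)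
    (x : V) (hx : x ∈ Q) :
    ∃ (m : ℕ) (p : ℕ → V), (Finset.univ.filter (fun y => (gin G Q).Reachable x y)).card ≤ m + 1 ∧
      (∀ i j, i ≤ m → j ≤ m → p i = p j → i = j) ∧
      (∀ i, i < m → G.Adj (p i) (p (i + 1)) ∧ p i ∈ Q) := by
  set S : Set ℕ := {n | ∃ (u v : V) (P : (gin G Q).Walk u v), P.IsPath ∧ x ∈ P.support ∧
    P.length = n} with hS
  have hne : S.Nonempty := ⟨0, x, x, SimpleGraph.Walk.nil, SimpleGraph.Walk.IsPath.nil,
    by simp, rfl⟩
  have hbd : BddAbove S := by
    refine ⟨Fintype.card V, ?_⟩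
    rintro n ⟨u, v, P, hP, -, rfl⟩
    exact le_of_lt hP.length_lt
  obtain ⟨u, v, P, hP, hxP, hlen⟩ := Nat.sSup_mem hne hbd
  have hmax : ∀ (u' v' : V) (P' : (gin G Q).Walk u' v'), P'.IsPath → x ∈ P'.support →
      P'.length ≤ P.length := by
    intro u' v' P' h1 h2
    rw [hlen]
    exact le_csSup hbd ⟨u', v', P', h1, h2, rfl⟩
  have hclosed : ∀ y z, y ∈ P.support → (gin G Q).Adj y z → z ∈ P.support := by
    intro y z hy hyz
    by_contra hz
    obtain ⟨i, hi, hil⟩ := SimpleGraph.Walk.mem_support_iff_exists_getVert.1 hy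
    by_cases h0 : i = 0
    · subst h0
      rw [SimpleGraph.Walk.getVert_zero] at hi
      subst hi
      have hp' : (SimpleGraph.Walk.cons hyz.symm P).IsPath := by
        rw [SimpleGraph.Walk.cons_isPath_iff]; exact ⟨hP, hz⟩
      have := hmax _ _ _ hp' (by rw [SimpleGraph.Walk.support_cons]; exact List.mem_cons_of_mem _ hxP)
      rw [SimpleGraph.Walk.length_cons] at this
      omega
    · by_cases h1 : i = P.length
      · subst h1
        rw [SimpleGraph.Walk.getVert_length] at hi
        subst hi
        have hp' : (P.concat hyz).IsPath := by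
          rw [SimpleGraph.Walk.concat_isPath_iff]; exact ⟨hP, hz⟩
        have := hmax _ _ _ hp' (by
          rw [SimpleGraph.Walk.support_concat]
          exact List.mem_append_left _ hxP)
        rw [SimpleGraph.Walk.length_concat] at this
        omega
      · have ha := P.adj_getVert_succ (i := i) (by omega)
        have hb := P.adj_getVert_succ (i := i - 1) (by omega)
        have e1 : i - 1 + 1 = i := by omega
        rw [e1] at hb
        have hne' : P.getVert (i - 1) ≠ P.getVert (i + 1) := by
          intro hh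
          have := hP.getVert_injOn (by simp; omega) (by simp; omega) hh
          omega
        have hyQ : P.getVert i ∈ Q := ha.2.1
        rw [← hi] at hyz
        rcases hQ _ hyQ _ _ z hb.1.symm ha.1 hne' hyz.1 with h | h
        · exact hz (h ▸ P.getVert_mem_support _)
        · exact hz (h ▸ P.getVert_mem_support _)
  have hreach : ∀ y, (gin G Q).Reachable x y → y ∈ P.support := by
    rintro y ⟨w⟩
    have key : ∀ (a b : V) (w : (gin G Q).Walk a b), a ∈ P.support → b ∈ P.support := by
      intro a b w
      induction w with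
      | nil => exact fun h => h
      | cons h _ ih => exact fun h1 => ih (hclosed _ _ h1 h)
    exact key _ _ w hxP
  refine ⟨P.length, P.getVert, ?_, ?_, ?_⟩
  · have h1 : Finset.univ.filter (fun y => (gin G Q).Reachable x y) ⊆ P.support.toFinset := by
      intro y hy
      rw [List.mem_toFinset]
      exact hreach y (Finset.mem_filter.1 hy).2
    have h2 := Finset.card_le_card h1
    have h3 := List.toFinset_card_le P.support
    rw [SimpleGraph.Walk.length_support] at h3
    omega
  · intro i j hi hj h
    exact hP.getVert_injOn (by simpa using hi) (by simpa using hj) h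
  · intro i hi
    have ha := P.adj_getVert_succ (i := i) hi
    exact ⟨ha.1, ha.2.1⟩

end Pool.Agent.Helper517.LM
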