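import Mathlib
import Pool.Agent.Helper517.LMComp

set_option autoImplicit false
set_option linter.unusedSectionVars false
set_option linter.unusedVariables false

open Classical

namespace Pool.Agent.Helper517.LM

variable {V : Type} [Fintype V]

lemma has_nbr {W : Type} (H : SimpleGraph W) (hH : H.Connected) (v x : W) (hvx : v ≠ x) :
    ∃ y, H.Adj v y := by
  obtain ⟨w⟩ := hH.preconnected v x
  cases w with
  | nil => exact absurd rfl hvx
  | cons h _ => exact ⟨_, h⟩

lemma two_deg (G : SimpleGraph V) (hc : 3 ≤ Fintype.card V) (hG : G.Connected)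
    (h2 : ∀ v : V, (G.induce {w : V | w ≠ v}).Connected) (v : V) : 2 ≤ G.degree v := by
  have h3 : ∃ x, x ≠ v := by
    by_contra hh
    push Not at hh
    have : Fintype.card V ≤ 1 := Fintype.card_le_one_iff.2 (fun a b => by rw [hh a, hh b])
    omega
  obtain ⟨x, hx⟩ := h3
  obtain ⟨u, hu⟩ := has_nbr G hG v x hx.symm
  have h4 : ∃ z, z ≠ v ∧ z ≠ u := by
    by_contra hh
    push Not at hh
    have h5 : (Finset.univ : Finset V) ⊆ {v, u} := by
      intro z _
      by_cases hz : z = v
      · simp [hz]
      · simp [hh z hz]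
    have h6 := Finset.card_le_card h5
    have h7 : ({v, u} : Finset V).card ≤ 2 := Finset.card_le_two
    rw [Finset.card_univ] at h6
    omega
  obtain ⟨z, hz1, hz2⟩ := h4
  have hvu : v ≠ u := hu.ne
  obtain ⟨y, hy⟩ := has_nbr _ (h2 u) (⟨v, hvu⟩ : {w : V | w ≠ u}) ⟨z, hz2⟩
    (fun hh => hz1 (congrArg Subtype.val hh).symm)
  have hy' : G.Adj v y.1 := hy
  have hyu : y.1 ≠ u := y.2
  have hsub : ({u, y.1} : Finset V) ⊆ G.neighborFinset v := by
    intro t ht
    rw [SimpleGraph.mem_neighborFinset]
    rcases Finset.mem_insert.1 ht with rfl | ht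
    · exact hu
    · rw [Finset.mem_singleton.1 ht]; exact hy'
  have := Finset.card_le_card hsub
  rw [SimpleGraph.card_neighborFinset_eq_degree, Finset.card_pair hyu.symm] at this
  exact this

lemma nbr_two (G : SimpleGraph V) (y : V) (hd : G.degree y = 2) :
    ∀ a b z, G.Adj y a → G.Adj y b → a ≠ b → G.Adj y z → z = a ∨ z = b := by
  intro a b z ha hb hab hz
  have hsub : ({a, b} : Finset V) ⊆ G.neighborFinset y := by
    intro x hx
    rw [SimpleGraph.mem_neighborFinset]
    rcases Finset.mem_insert.1 hx with rfl | hx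
    · exact ha
    · rw [Finset.mem_singleton.1 hx]; exact hb
  have heq := Finset.eq_of_subset_of_card_le hsub (by
    rw [SimpleGraph.card_neighborFinset_eq_degree, hd, Finset.card_pair hab])
  have hw' : z ∈ G.neighborFinset y := by
    rw [SimpleGraph.mem_neighborFinset]; exact hz
  rw [← heq] at hw'
  rcases Finset.mem_insert.1 hw' with h | h
  · exact Or.inl h
  · exact Or.inr (Finset.mem_singleton.1 h)

lemma count_cyc (G : SimpleGraph V) (hG : G.Connected) (c M : ℕ)
    (hdeg : ∀ v, 2 ≤ G.degree v) (E : Finset (Sym2 V)) (hEm : ∀ e, e ∈ E ↔ e ∈ G.edgeSet)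
    (hE0 : E.card ≤ Fintype.card V + c)
    (hn : 2 * c + (6 * c + 1) * M < Fintype.card V) :
    ∃ x ∈ Finset.univ.filter (fun v => G.degree v = 2),
      M < (Finset.univ.filter (fun y =>
        (gin G (Finset.univ.filter (fun v => G.degree v = 2))).Reachable x y)).card := by
  set Q : Finset V := Finset.univ.filter (fun v => G.degree v = 2) with hQ
  set W : Finset V := Finset.univ.filter (fun v => ¬ G.degree v = 2) with hW
  by_contra hcon
  push Not at hcon
  have hEE : G.edgeFinset = E := by
    ext e; rw [SimpleGraph.mem_edgeFinset, hEm]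
  have hE : G.edgeFinset.card ≤ Fintype.card V + c := by rw [hEE]; exact hE0
  have hQW : Q.card + W.card = Fintype.card V := by
    rw [hQ, hW, Finset.card_filter_add_card_filter_not, Finset.card_univ]
  have hsum : ∑ v, G.degree v = 2 * G.edgeFinset.card := G.sum_degrees_eq_twice_card_edges
  have hsplit : ∑ v, G.degree v = ∑ v ∈ Q, G.degree v + ∑ v ∈ W, G.degree v := by
    rw [hQ, hW, Finset.sum_filter_add_sum_filter_not]
  have hsQ : ∑ v ∈ Q, G.degree v = 2 * Q.card := by
    have h2Q : ∀ v ∈ Q, G.degree v = 2 := fun v hv => (Finset.mem_filter.1 hv).2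
    rw [Finset.sum_congr rfl h2Q, Finset.sum_const, smul_eq_mul, mul_comm]
  have hsW : 3 * W.card ≤ ∑ v ∈ W, G.degree v := by
    have : ∑ v ∈ W, 3 ≤ ∑ v ∈ W, G.degree v := by
      apply Finset.sum_le_sum
      intro v hv
      have h1 := (Finset.mem_filter.1 hv).2
      have h2 := hdeg v
      omega
    rw [Finset.sum_const, smul_eq_mul] at this
    omega
  have hWc : W.card ≤ 2 * c := by omega
  have hdW : ∑ v ∈ W, G.degree v ≤ 6 * c := by omega
  by_cases hWe : W = ∅
  · -- all of degree two
    have hQu : ∀ v, v ∈ Q := by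
      intro v
      by_contra hv
      have : v ∈ W := by
        rw [hW, Finset.mem_filter]
        refine ⟨Finset.mem_univ _, fun h => hv ?_⟩
        rw [hQ, Finset.mem_filter]; exact ⟨Finset.mem_univ _, h⟩
      rw [hWe] at this
      exact absurd this (Finset.notMem_empty _)
    obtain ⟨x⟩ := hG.nonempty
    have h1 := hcon x (hQu x)
    have h2 : G ≤ gin G Q := by
      intro a b hab
      exact ⟨hab, hQu a, hQu b⟩
    have h3 : Finset.univ.filter (fun y => (gin G Q).Reachable x y) = Finset.univ := by
      ext y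
      simp only [Finset.mem_filter, Finset.mem_univ, true_and, iff_true]
      exact (hG.preconnected x y).mono h2
    rw [h3, Finset.card_univ] at h1
    have : M ≤ 2 * c + (6 * c + 1) * M := by nlinarith
    omega
  · obtain ⟨w0, hw0⟩ := Finset.nonempty_iff_ne_empty.2 hWe
    have hw0' : w0 ∉ Q := by
      intro h
      exact (Finset.mem_filter.1 hw0).2 (Finset.mem_filter.1 h).2
    have hcov : Q ⊆ W.biUnion (fun w => ((G.neighborFinset w).filter (fun x => x ∈ Q)).biUnion
        (fun x => Finset.univ.filter (fun y => (gin G Q).Reachable x y))) := by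
      intro q hq
      obtain ⟨wk⟩ := hG.preconnected q w0
      obtain ⟨x, y, h1, h2, h3, h4⟩ := exit_walk G Q wk hq hw0'
      rw [Finset.mem_biUnion]
      refine ⟨y, ?_, ?_⟩
      · rw [hW, Finset.mem_filter]
        refine ⟨Finset.mem_univ _, fun h => h3 ?_⟩
        rw [hQ, Finset.mem_filter]; exact ⟨Finset.mem_univ _, h⟩
      · rw [Finset.mem_biUnion]
        refine ⟨x, ?_, ?_⟩
        · rw [Finset.mem_filter, SimpleGraph.mem_neighborFinset]
          exact ⟨h4.symm, h2⟩
        · rw [Finset.mem_filter]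
          exact ⟨Finset.mem_univ _, h1.symm⟩
    have hcard : Q.card ≤ ∑ w ∈ W, G.degree w * M := by
      refine (Finset.card_le_card hcov).trans (Finset.card_biUnion_le.trans ?_)
      apply Finset.sum_le_sum
      intro w _
      refine Finset.card_biUnion_le.trans ?_
      have h5 : ∑ x ∈ (G.neighborFinset w).filter (fun x => x ∈ Q),
          (Finset.univ.filter (fun y => (gin G Q).Reachable x y)).card ≤
          ∑ x ∈ (G.neighborFinset w).filter (fun x => x ∈ Q), M := by
        apply Finset.sum_le_sum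
        intro x hx
        exact hcon x (Finset.mem_filter.1 hx).2
      refine h5.trans ?_
      rw [Finset.sum_const, smul_eq_mul]
      apply Nat.mul_le_mul_right
      refine (Finset.card_filter_le _ _).trans ?_
      rw [SimpleGraph.card_neighborFinset_eq_degree]
    rw [← Finset.sum_mul] at hcard
    have h6 : (∑ w ∈ W, G.degree w) * M ≤ 6 * c * M := Nat.mul_le_mul_right _ hdW
    have h7 : (6 * c + 1) * M = 6 * c * M + M := by ring
    omega

lemma sq_le_two_pow (L : ℕ) (hL : 4 ≤ L) : L * L ≤ 2 ^ L := by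
  induction L, hL using Nat.le_induction with
  | base => norm_num
  | succ k hk ih => rw [pow_succ]; nlinarith

lemma cyc_bound (c n : ℕ) (hn : 2 ^ (8 * c + 8) ≤ n) :
    2 * c + (6 * c + 1) * (Nat.log 2 n + 1) < n := by
  have hn0 : n ≠ 0 := by
    intro h; rw [h] at hn
    have : 0 < 2 ^ (8 * c + 8) := by positivity
    omega
  have h1 : 8 * c + 8 ≤ Nat.log 2 n := Nat.le_log_of_pow_le (by norm_num) hn
  have h2 : 2 ^ Nat.log 2 n ≤ n := Nat.pow_log_le_self 2 hn0
  have h3 := sq_le_two_pow (Nat.log 2 n) (by omega)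
  set L := Nat.log 2 n with hL
  have h4 : (8 * c + 8) * L ≤ L * L := Nat.mul_le_mul_right _ h1
  nlinarith

end Pool.Agent.Helper517.LM
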