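import Mathlib
import Pool.Agent.Helper517.LMBase

set_option autoImplicit false
set_option linter.unusedSectionVars false
set_option linter.unusedVariables false

open Classical
open Pool.Agent.Helper580.Simon

namespace Pool.Agent.Helper517.LM

variable {V : Type} [Fintype V]

lemma Z_pendB0 (B U : Finset (Sym2 V)) (v u : V) (huv : u ≠ v) (hU : ∀ e ∈ U, v ∉ e)
    (hB : ∀ e ∈ B, v ∉ e) :
    Z f0 (insert s(v, u) B) U = - Z f0 B U := by
  unfold Z
  rw [← Finset.sum_neg_distrib]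
  apply Finset.sum_congr rfl
  intro A hA
  have h1 := kk_pendant (A := A ∪ B) (v := v) (u := u)
    (fun e he => (Finset.mem_union.1 he).elim (fun h => hU e (Finset.mem_powerset.1 hA h))
      (fun h => hB e h)) huv
  have h2 : A ∪ insert s(v, u) B = insert s(v, u) (A ∪ B) := by
    ext x; simp only [Finset.mem_union, Finset.mem_insert]; tauto
  rw [h2, ← h1]
  unfold f0
  rw [pow_succ]; ring

lemma Z_pendB1 (B U : Finset (Sym2 V)) (v u : V) (huv : u ≠ v) (hU : ∀ e ∈ U, v ∉ e)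
    (hB : ∀ e ∈ B, v ∉ e) :
    Z f1 (insert s(v, u) B) U = - Z f1 B U + Z f0 B U := by
  unfold Z
  rw [← Finset.sum_neg_distrib, ← Finset.sum_add_distrib]
  apply Finset.sum_congr rfl
  intro A hA
  have h1 := kk_pendant (A := A ∪ B) (v := v) (u := u)
    (fun e he => (Finset.mem_union.1 he).elim (fun h => hU e (Finset.mem_powerset.1 hA h))
      (fun h => hB e h)) huv
  have h2 : A ∪ insert s(v, u) B = insert s(v, u) (A ∪ B) := by
    ext x; simp only [Finset.mem_union, Finset.mem_insert]; tauto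
  rw [h2, ← h1]
  unfold f0 f1
  rw [pow_succ]; push_cast; ring

/-- `U` with the first `j` path edges -/
noncomputable def XX (U : Finset (Sym2 V)) (p : ℕ → V) (j : ℕ) : Finset (Sym2 V) :=
  U ∪ (Finset.range j).image (fun i => s(p i, p (i + 1)))

/-- the path edges from index `j` on -/
noncomputable def BB (p : ℕ → V) (j m : ℕ) : Finset (Sym2 V) :=
  (Finset.Ico j m).image (fun i => s(p i, p (i + 1)))

lemma XX_zero (U : Finset (Sym2 V)) (p : ℕ → V) : XX U p 0 = U := by simp [XX]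

lemma XX_succ (U : Finset (Sym2 V)) (p : ℕ → V) (j : ℕ) :
    XX U p (j + 1) = insert s(p j, p (j + 1)) (XX U p j) := by
  unfold XX
  rw [Finset.range_add_one, Finset.image_insert]
  ext x; simp only [Finset.mem_union, Finset.mem_insert]; tauto

lemma BB_top (p : ℕ → V) (m : ℕ) : BB p m m = ∅ := by simp [BB]

lemma BB_succ (p : ℕ → V) (j m : ℕ) (h : j < m) :
    BB p j m = insert s(p j, p (j + 1)) (BB p (j + 1) m) := by
  unfold BB
  rw [← Finset.insert_Ico_add_one_left_eq_Ico h, Finset.image_insert]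

structure Ear (U : Finset (Sym2 V)) (p : ℕ → V) (m : ℕ) : Prop where
  inj : ∀ i j, i ≤ m → j ≤ m → p i = p j → i = j
  iso : ∀ i, 0 < i → i < m → ∀ e ∈ U, p i ∉ e

lemma ear_isoX {U : Finset (Sym2 V)} {p : ℕ → V} {m : ℕ} (h : Ear U p m) (i j : ℕ)
    (hji : j < i) (him : i < m) : ∀ e ∈ XX U p j, p i ∉ e := by
  intro e he
  unfold XX at he
  rcases Finset.mem_union.1 he with h1 | h1
  · exact h.iso i (by omega) him e h1
  · obtain ⟨a, ha, rfl⟩ := Finset.mem_image.1 h1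
    have ha' := Finset.mem_range.1 ha
    rw [Sym2.mem_iff]
    rintro (h2 | h2)
    · have := h.inj _ _ (by omega) (by omega) h2; omega
    · have := h.inj _ _ (by omega) (by omega) h2; omega

lemma ear_isoB {U : Finset (Sym2 V)} {p : ℕ → V} {m : ℕ} (h : Ear U p m) (i : ℕ)
    (him : i < m) : ∀ e ∈ BB p (i + 1) m, p i ∉ e := by
  intro e he
  unfold BB at he
  obtain ⟨a, ha, rfl⟩ := Finset.mem_image.1 he
  have ha' := Finset.mem_Ico.1 ha
  rw [Sym2.mem_iff]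
  rintro (h2 | h2)
  · have := h.inj _ _ (by omega) (by omega) h2; omega
  · have := h.inj _ _ (by omega) (by omega) h2; omega

lemma ear_notX {U : Finset (Sym2 V)} {p : ℕ → V} {m : ℕ} (h : Ear U p m) (hm : 2 ≤ m) (j : ℕ)
    (hj : j < m) : s(p j, p (j + 1)) ∉ XX U p j := by
  intro he
  by_cases hj1 : j + 1 < m
  · exact ear_isoX h (j + 1) j (by omega) hj1 _ he (Sym2.mem_mk_right _ _)
  · unfold XX at he
    rcases Finset.mem_union.1 he with h1 | h1
    · exact h.iso j (by omega) hj _ h1 (Sym2.mem_mk_left _ _)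
    · obtain ⟨a, ha, hq⟩ := Finset.mem_image.1 h1
      have ha' := Finset.mem_range.1 ha
      rcases Sym2.eq_iff.1 hq with ⟨h3, h4⟩ | ⟨h3, h4⟩
      · have := h.inj _ _ (by omega) (by omega) h3; omega
      · have := h.inj _ _ (by omega) (by omega) h3; omega

/-- values for the pendant path -/
lemma ear_X {U : Finset (Sym2 V)} {p : ℕ → V} {m : ℕ} (h : Ear U p m) (hm : 2 ≤ m) (j : ℕ)
    (hj : j < m) : Z f0 ∅ (XX U p j) = 2 ^ j * Z f0 ∅ U ∧
      Z f1 ∅ (XX U p j) = 2 ^ j * Z f1 ∅ U - (j : ℝ) * (2 ^ j / 2) * Z f0 ∅ U := by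
  induction j with
  | zero => rw [XX_zero]; simp
  | succ j ih =>
    obtain ⟨i0, i1⟩ := ih (by omega)
    have hn := ear_notX h hm j (by omega)
    have hiso := ear_isoX h (j + 1) j (by omega) hj
    have hne : p j ≠ p (j + 1) := fun hh => by
      have := h.inj _ _ (by omega) (by omega) hh; omega
    rw [XX_succ, Z_insert _ _ _ _ hn, Z_insert _ _ _ _ hn]
    have e1 : (insert s(p j, p (j + 1)) ∅ : Finset (Sym2 V)) = insert s(p (j + 1), p j) ∅ := by
      rw [Sym2.eq_swap]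
    rw [e1, Z_pendB0 ∅ _ _ _ hne hiso (by simp), Z_pendB1 ∅ _ _ _ hne hiso (by simp), i0, i1]
    rw [pow_succ]
    push_cast
    constructor <;> ring

lemma ear_B {U : Finset (Sym2 V)} {p : ℕ → V} {m : ℕ} (h : Ear U p m) (hm : 2 ≤ m) (j : ℕ)
    (r : ℕ) (hr : j + r < m) :
    Z f0 (BB p (m - r) m) (XX U p j) = (-1) ^ r * Z f0 ∅ (XX U p j) ∧
      Z f1 (BB p (m - r) m) (XX U p j) =
        (-1) ^ r * (Z f1 ∅ (XX U p j) - r * Z f0 ∅ (XX U p j)) := by
  induction r with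
  | zero => simp [BB_top]
  | succ r ih =>
    obtain ⟨i0, i1⟩ := ih (by omega)
    have e1 : BB p (m - (r + 1)) m =
        insert s(p (m - (r + 1)), p (m - r)) (BB p (m - r) m) := by
      rw [BB_succ p (m - (r + 1)) m (by omega)]
      have : m - (r + 1) + 1 = m - r := by omega
      rw [this]
    have hiso := ear_isoX h (m - (r + 1)) j (by omega) (by omega)
    have hisoB := ear_isoB h (m - (r + 1)) (by omega)
    have e2 : m - (r + 1) + 1 = m - r := by omega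
    rw [e2] at hisoB
    have hne : p (m - r) ≠ p (m - (r + 1)) := fun hh => by
      have := h.inj _ _ (by omega) (by omega) hh; omega
    rw [e1, Z_pendB0 _ _ _ _ hne hiso hisoB, Z_pendB1 _ _ _ _ hne hiso hisoB, i0, i1, pow_succ]
    push_cast
    constructor <;> ring

lemma rch_path {p : ℕ → V} {m : ℕ} (j : ℕ) (hj : j ≤ m) : Rch (BB p 0 m) (p 0) (p j) := by
  induction j with
  | zero => exact Rch.refl _ _
  | succ j ih =>
    refine (ih (by omega)).trans (Rch.edge ?_)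
    unfold BB
    exact Finset.mem_image.2 ⟨j, Finset.mem_Ico.2 ⟨by omega, by omega⟩, rfl⟩

lemma ear_c {U : Finset (Sym2 V)} {p : ℕ → V} {m : ℕ} (h : Ear U p m) (hm : 2 ≤ m)
    (hc : s(p 0, p m) ∈ U) (j : ℕ) (hj : j < m) :
    (-1) ^ j * Z f0 (BB p j m) (XX U p j) = (-1) ^ m * ((2 ^ j - 1) * Z f0 ∅ U) ∧
    (-1) ^ j * Z f1 (BB p j m) (XX U p j) =
      (-1) ^ m * ((2 ^ j - 1) * Z f1 ∅ U - ((2 ^ j / 2) * (2 * m - j) - m) * Z f0 ∅ U) := by
  induction j with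
  | zero =>
    rw [XX_zero, Z_zero f0 _ _ _ _ hc (rch_path m (le_refl m)),
      Z_zero f1 _ _ _ _ hc (rch_path m (le_refl m))]
    constructor
    · simp
    · simp
  | succ j ih =>
    obtain ⟨i0, i1⟩ := ih (by omega)
    have hn := ear_notX h hm j (by omega)
    obtain ⟨x0, x1⟩ := ear_X h hm j (by omega)
    obtain ⟨b0, b1⟩ := ear_B h hm j (m - (j + 1)) (by omega)
    have e3 : m - (m - (j + 1)) = j + 1 := by omega
    rw [e3] at b0 b1
    have hs := BB_succ p j m (by omega)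
    rw [XX_succ, Z_insert _ _ _ _ hn, Z_insert _ _ _ _ hn, ← hs, b0, b1, x0, x1]
    have e4 : ((-1 : ℝ)) ^ (j + 1) * (-1) ^ (m - (j + 1)) = (-1) ^ m := by
      rw [← pow_add]; congr 1; omega
    have e5 : ((m - (j + 1) : ℕ) : ℝ) = (m : ℝ) - (j + 1) := by
      rw [Nat.cast_sub (by omega)]; push_cast; ring
    constructor
    · have : (-1 : ℝ) ^ (j + 1) * ((-1) ^ (m - (j + 1)) * (2 ^ j * Z f0 ∅ U) -
          Z f0 (BB p j m) (XX U p j)) =
          ((-1 : ℝ) ^ (j + 1) * (-1) ^ (m - (j + 1))) * (2 ^ j * Z f0 ∅ U) +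
            (-1) ^ j * Z f0 (BB p j m) (XX U p j) := by
        rw [pow_succ]; ring
      rw [this, e4, i0, pow_succ]; ring
    · have : (-1 : ℝ) ^ (j + 1) * ((-1) ^ (m - (j + 1)) *
          (2 ^ j * Z f1 ∅ U - (j : ℝ) * (2 ^ j / 2) * Z f0 ∅ U -
            ((m - (j + 1) : ℕ) : ℝ) * (2 ^ j * Z f0 ∅ U)) -
          Z f1 (BB p j m) (XX U p j)) =
          ((-1 : ℝ) ^ (j + 1) * (-1) ^ (m - (j + 1))) *
            (2 ^ j * Z f1 ∅ U - (j : ℝ) * (2 ^ j / 2) * Z f0 ∅ U -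
            ((m - (j + 1) : ℕ) : ℝ) * (2 ^ j * Z f0 ∅ U)) +
            (-1) ^ j * Z f1 (BB p j m) (XX U p j) := by
        rw [pow_succ]; ring
      rw [this, e4, i1, e5, pow_succ]; push_cast; ring

lemma ear_full {U : Finset (Sym2 V)} {p : ℕ → V} {m : ℕ} (h : Ear U p (m + 1)) (hm : 1 ≤ m)
    (hc : s(p 0, p (m + 1)) ∈ U) :
    Z f0 ∅ (XX U p (m + 1)) = (2 * 2 ^ m - 1) * Z f0 ∅ U ∧
    Z f1 ∅ (XX U p (m + 1)) = (2 * 2 ^ m - 1) * Z f1 ∅ U -
      ((m + 1) * 2 ^ m - (m + 1)) * Z f0 ∅ U := by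
  have hn := ear_notX h (by omega) m (by omega)
  obtain ⟨x0, x1⟩ := ear_X h (by omega) m (by omega)
  obtain ⟨c0, c1⟩ := ear_c h (by omega) hc m (by omega)
  have hs := BB_succ p m (m + 1) (by omega)
  rw [BB_top] at hs
  rw [XX_succ, Z_insert _ _ _ _ hn, Z_insert _ _ _ _ hn, ← hs, x0, x1]
  have hp : ((-1 : ℝ)) ^ m ≠ 0 := pow_ne_zero _ (by norm_num)
  have c0' : Z f0 (BB p m (m + 1)) (XX U p m) = -((2 ^ m - 1) * Z f0 ∅ U) := by
    apply mul_left_cancel₀ hp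
    rw [c0, pow_succ]; ring
  have c1' : Z f1 (BB p m (m + 1)) (XX U p m) = -((2 ^ m - 1) * Z f1 ∅ U -
      ((2 ^ m / 2) * (2 * ((m + 1 : ℕ) : ℝ) - m) - ((m + 1 : ℕ) : ℝ)) * Z f0 ∅ U) := by
    apply mul_left_cancel₀ hp
    rw [c1, pow_succ]; ring
  rw [c0', c1']
  push_cast
  constructor <;> ring

lemma ear_lt {U : Finset (Sym2 V)} {p : ℕ → V} {m : ℕ} (h : Ear U p (m + 1)) (hm : 1 ≤ m)
    (hc : s(p 0, p (m + 1)) ∈ U) (hpos : Z f0 ∅ U ≠ 0) (n : ℝ) :
    (n * Z f0 ∅ (XX U p m) - Z f1 ∅ (XX U p m)) / Z f0 ∅ (XX U p m) <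
    (n * Z f0 ∅ (XX U p (m + 1)) - Z f1 ∅ (XX U p (m + 1))) / Z f0 ∅ (XX U p (m + 1)) := by
  obtain ⟨x0, x1⟩ := ear_X h (by omega) m (by omega)
  obtain ⟨y0, y1⟩ := ear_full h hm hc
  rw [x0, x1, y0, y1]
  have hm1 : (1 : ℝ) ≤ m := by exact_mod_cast hm
  have hb : (m : ℝ) + 2 < 2 * 2 ^ m := by
    have h1 : m + 1 ≤ 2 ^ m := Nat.lt_two_pow_self
    have h2 : ((m + 1 : ℕ) : ℝ) ≤ ((2 ^ m : ℕ) : ℝ) := by exact_mod_cast h1
    push_cast at h2
    linarith
  have hm0 : (0 : ℝ) ≤ m := Nat.cast_nonneg m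
  have hA : (0 : ℝ) < 2 * 2 ^ m - 1 := by linarith
  have h2p : (2 : ℝ) ^ m ≠ 0 := by positivity
  have e1 : (n * (2 ^ m * Z f0 ∅ U) - (2 ^ m * Z f1 ∅ U - (m : ℝ) * (2 ^ m / 2) * Z f0 ∅ U)) /
      (2 ^ m * Z f0 ∅ U) = n - Z f1 ∅ U / Z f0 ∅ U + (m : ℝ) / 2 := by
    field_simp
    ring
  have e2 : (n * ((2 * 2 ^ m - 1) * Z f0 ∅ U) - ((2 * 2 ^ m - 1) * Z f1 ∅ U -
      ((m + 1) * 2 ^ m - (m + 1)) * Z f0 ∅ U)) / ((2 * 2 ^ m - 1) * Z f0 ∅ U) =
      n - Z f1 ∅ U / Z f0 ∅ U + ((m + 1) * 2 ^ m - (m + 1)) / (2 * 2 ^ m - 1) := by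
    have hA' : (2 * 2 ^ m - 1 : ℝ) ≠ 0 := ne_of_gt hA
    field_simp
    ring
  rw [e1, e2]
  have h4 : (m : ℝ) / 2 < ((m + 1) * 2 ^ m - (m + 1)) / (2 * 2 ^ m - 1) := by
    rw [div_lt_div_iff₀ (by norm_num) hA]
    nlinarith
  linarith

end Pool.Agent.Helper517.LM
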