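import Mathlib
import Pool.Agent.Helper517.LMBound
import Pool.Agent.Helper517.LMEar

set_option autoImplicit false
set_option linter.unusedSectionVars false
set_option linter.unusedVariables false

open Classical
open Pool.Agent.Helper580.Simon

namespace Pool.Agent.Helper517.LM

variable {V : Type} [Fintype V]

lemma ear_cg {U : Finset (Sym2 V)} {p : ℕ → V} {m : ℕ} (h : Ear U p m) (hm : 2 ≤ m)
    (j : ℕ) (hj : j < m) :
    (-1) ^ j * Z f0 (BB p j m) (XX U p j) =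
      (-1) ^ m * ((2 ^ j - 1) * Z f0 ∅ U) + Z f0 (BB p 0 m) U ∧
    (-1) ^ j * Z f1 (BB p j m) (XX U p j) =
      (-1) ^ m * ((2 ^ j - 1) * Z f1 ∅ U - ((2 ^ j / 2) * (2 * m - j) - m) * Z f0 ∅ U) +
        Z f1 (BB p 0 m) U := by
  induction j with
  | zero =>
    rw [XX_zero]
    constructor
    · simp
    · simp
  | succ j ih =>
    obtain ⟨i0, i1⟩ := ih (by omega)
    have hn := ear_notX h hm j (by omega)
    obtain ⟨x0, x1⟩ := ear_X h hm j (by omega)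
    obtain ⟨b0, b1⟩ := ear_B h hm j (m - (j + 1)) (by omega)
    have e3 : m - (m - (j + 1)) = j + 1 := by omega
    rw [e3] at b0 b1
    have hs := BB_succ p j m (by omega)
    rw [XX_succ, Z_insert _ _ _ _ hn, Z_insert _ _ _ _ hn, ← hs, b0, b1, x0, x1]
    have e4 : ((-1 : ℝ)) ^ (j + 1) * (-1) ^ (m - (j + 1)) = (-1) ^ m := by
      rw [← pow_add]; congr 1; omega
    have e5 : ((m - (j + 1) : ℕ) : ℝ) = (m : ℝ) - (j + 1) := by
      rw [Nat.cast_sub (by omega)]; push_cast; ring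
    constructor
    · have : (-1 : ℝ) ^ (j + 1) * ((-1) ^ (m - (j + 1)) * (2 ^ j * Z f0 ∅ U) -
          Z f0 (BB p j m) (XX U p j)) =
          ((-1 : ℝ) ^ (j + 1) * (-1) ^ (m - (j + 1))) * (2 ^ j * Z f0 ∅ U) +
            (-1) ^ j * Z f0 (BB p j m) (XX U p j) := by
        rw [pow_succ]; ring
      rw [this, e4, i0, pow_succ]; ring
    · have : (-1 : ℝ) ^ (j + 1) * ((-1) ^ (m - (j + 1)) *
          (2 ^ j * Z f1 ∅ U - (j : ℝ) * (2 ^ j / 2) * Z f0 ∅ U -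
            ((m - (j + 1) : ℕ) : ℝ) * (2 ^ j * Z f0 ∅ U)) -
          Z f1 (BB p j m) (XX U p j)) =
          ((-1 : ℝ) ^ (j + 1) * (-1) ^ (m - (j + 1))) *
            (2 ^ j * Z f1 ∅ U - (j : ℝ) * (2 ^ j / 2) * Z f0 ∅ U -
            ((m - (j + 1) : ℕ) : ℝ) * (2 ^ j * Z f0 ∅ U)) +
            (-1) ^ j * Z f1 (BB p j m) (XX U p j) := by
        rw [pow_succ]; ring
      rw [this, e4, i1, e5, pow_succ]; push_cast; ring

lemma ear_fullg {U : Finset (Sym2 V)} {p : ℕ → V} {m : ℕ} (h : Ear U p (m + 1)) (hm : 1 ≤ m) :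
    Z f0 ∅ (XX U p (m + 1)) = (2 * 2 ^ m - 1) * Z f0 ∅ U +
      (-1) ^ (m + 1) * Z f0 (BB p 0 (m + 1)) U ∧
    Z f1 ∅ (XX U p (m + 1)) = (2 * 2 ^ m - 1) * Z f1 ∅ U -
      ((m + 1) * 2 ^ m - (m + 1)) * Z f0 ∅ U +
      (-1) ^ (m + 1) * Z f1 (BB p 0 (m + 1)) U := by
  have hn := ear_notX h (by omega) m (by omega)
  obtain ⟨x0, x1⟩ := ear_X h (by omega) m (by omega)
  obtain ⟨c0, c1⟩ := ear_cg h (by omega) m (by omega)
  have hs := BB_succ p m (m + 1) (by omega)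
  rw [BB_top] at hs
  rw [XX_succ, Z_insert _ _ _ _ hn, Z_insert _ _ _ _ hn, ← hs, x0, x1]
  have hp : ((-1 : ℝ)) ^ m ≠ 0 := pow_ne_zero _ (by norm_num)
  have hpp : ((-1 : ℝ)) ^ m * (-1) ^ m = 1 := by
    rw [← pow_add, ← two_mul]; simp
  have c0' : Z f0 (BB p m (m + 1)) (XX U p m) = -((2 ^ m - 1) * Z f0 ∅ U) +
      (-1) ^ m * Z f0 (BB p 0 (m + 1)) U := by
    apply mul_left_cancel₀ hp
    rw [c0, pow_succ, mul_add, ← mul_assoc ((-1 : ℝ) ^ m) ((-1 : ℝ) ^ m), hpp]; ring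
  have c1' : Z f1 (BB p m (m + 1)) (XX U p m) = -((2 ^ m - 1) * Z f1 ∅ U -
      ((2 ^ m / 2) * (2 * ((m + 1 : ℕ) : ℝ) - m) - ((m + 1 : ℕ) : ℝ)) * Z f0 ∅ U) +
      (-1) ^ m * Z f1 (BB p 0 (m + 1)) U := by
    apply mul_left_cancel₀ hp
    rw [c1, pow_succ, mul_add, ← mul_assoc ((-1 : ℝ) ^ m) ((-1 : ℝ) ^ m), hpp]; ring
  rw [c0', c1', pow_succ]
  push_cast
  constructor <;> ring

lemma kk_BB {U : Finset (Sym2 V)} {p : ℕ → V} {m : ℕ} (h : Ear U p m) (r : ℕ) (hr : r ≤ m) :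
    kk (BB p (m - r) m) + r = kk (∅ : Finset (Sym2 V)) := by
  induction r with
  | zero => simp [BB_top]
  | succ r ih =>
    have i0 := ih (by omega)
    have e1 : BB p (m - (r + 1)) m =
        insert s(p (m - (r + 1)), p (m - r)) (BB p (m - r) m) := by
      rw [BB_succ p (m - (r + 1)) m (by omega)]
      have : m - (r + 1) + 1 = m - r := by omega
      rw [this]
    have hisoB := ear_isoB h (m - (r + 1)) (by omega)
    have e2 : m - (r + 1) + 1 = m - r := by omega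
    rw [e2] at hisoB
    have hne : p (m - r) ≠ p (m - (r + 1)) := fun hh => by
      have := h.inj _ _ (by omega) (by omega) hh; omega
    have := kk_pendant hisoB hne
    rw [e1]; omega

lemma kk_XX {U : Finset (Sym2 V)} {p : ℕ → V} {m : ℕ} (h : Ear U p m) (j : ℕ) (hj : j < m) :
    kk (XX U p j) + j = kk U := by
  induction j with
  | zero => rw [XX_zero]; rfl
  | succ j ih =>
    have i0 := ih (by omega)
    have hiso := ear_isoX h (j + 1) j (by omega) hj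
    have hne : p j ≠ p (j + 1) := fun hh => by
      have := h.inj _ _ (by omega) (by omega) hh; omega
    have := kk_pendant hiso hne
    rw [XX_succ, Sym2.eq_swap]; omega

lemma sg_le_empty (B U : Finset (Sym2 V)) : sg B U ≤ sg ∅ U := by
  induction B using Finset.induction_on with
  | empty => exact le_refl _
  | @insert e B _ ih => exact (sg_mono U B e).trans ih

lemma long_key (A B γ δ q κ m : ℝ) (hpos : 0 < A) (t4 : 0 ≤ γ) (t3 : γ ≤ A)
    (hBA : (m + 1) * A ≤ B) (hδ1 : δ ≤ (κ + 1) / 2 * γ) (hk4 : κ + (m + 1) < 2 * q + m)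
    (h2m : m + 1 ≤ q) (hm1 : 1 ≤ m) :
    ((2 * q - 1) * B - ((m + 1) * q - (m + 1)) * A + δ) / ((2 * q - 1) * A + γ) <
      B / A - m / 2 := by
  have hden : 0 < (2 * q - 1) * A + γ := by
    have : 0 < (2 * q - 1) * A := mul_pos (by linarith) hpos
    linarith
  rw [div_lt_iff₀ hden]
  obtain ⟨β, hBβ⟩ : ∃ β, B = β * A := ⟨B / A, by field_simp⟩
  have hβ2 : B / A = β := by rw [hBβ]; field_simp
  have hβ1 : m + 1 ≤ β := by
    rw [← hβ2, le_div_iff₀ hpos]; exact hBA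
  rw [hβ2, hBβ]
  have e1 : (β - m / 2) * ((2 * q - 1) * A + γ) -
      ((2 * q - 1) * (β * A) - ((m + 1) * q - (m + 1)) * A + δ) =
      (β - m / 2) * γ - δ + (2 * q - m - 2) / 2 * A := by ring
  have h6 : (m + 1 - m / 2) * γ ≤ (β - m / 2) * γ :=
    mul_le_mul_of_nonneg_right (by linarith) t4
  have h7 : - ((κ - (m + 1)) / 2 * γ) ≤ (β - m / 2) * γ - δ := by
    have : (m + 1 - m / 2) * γ - (κ + 1) / 2 * γ = - ((κ - (m + 1)) / 2 * γ) := by ring
    linarith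
  have h8 : (κ - (m + 1)) / 2 * γ < (2 * q - m - 2) / 2 * A := by
    rcases le_or_gt (κ - (m + 1)) 0 with h9 | h9
    · have h10 : (κ - (m + 1)) / 2 * γ ≤ 0 :=
        mul_nonpos_of_nonpos_of_nonneg (by linarith) t4
      have h11 : 0 < (2 * q - m - 2) / 2 * A := mul_pos (by linarith) hpos
      linarith
    · have h10 : (κ - (m + 1)) / 2 * γ ≤ (κ - (m + 1)) / 2 * A :=
        mul_le_mul_of_nonneg_left t3 (by linarith)
      have h11 : (κ - (m + 1)) / 2 * A < (2 * q - m - 2) / 2 * A :=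
        mul_lt_mul_of_pos_right (by linarith) hpos
      linarith
  linarith

lemma ear_long_lt {U : Finset (Sym2 V)} {p : ℕ → V} {m : ℕ} (h : Ear U p (m + 1)) (hm : 1 ≤ m)
    (hconn : kk (XX U p (m + 1)) = 1) (hpos : 0 < sg ∅ U)
    (hcard : Fintype.card V < 2 ^ (m + 1) + m) (n : ℝ) :
    (n * Z f0 ∅ (XX U p m) - Z f1 ∅ (XX U p m)) / Z f0 ∅ (XX U p m) <
    (n * Z f0 ∅ (XX U p (m + 1)) - Z f1 ∅ (XX U p (m + 1))) / Z f0 ∅ (XX U p (m + 1)) := by
  obtain ⟨x0, x1⟩ := ear_X h (by omega) m (by omega)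
  obtain ⟨y0, y1⟩ := ear_fullg h hm
  have k1 := kk_BB h (m + 1) (le_refl _)
  rw [Nat.sub_self] at k1
  have k2 := kk_XX h m (by omega)
  have k3 : 1 ≤ kk (XX U p m) := by
    have h1 : kk (XX U p (m + 1)) ≤ kk (XX U p m) := by
      apply kk_anti
      rw [XX_succ]; exact Finset.subset_insert _ _
    omega
  have k4 := kk_empty_le (V := V)
  have hun : BB p 0 (m + 1) ∪ U = XX U p (m + 1) := by
    unfold BB XX
    rw [Finset.union_comm, Finset.range_eq_Ico]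
  have t1 := tg_lower U (BB p 0 (m + 1))
  rw [hun, hconn] at t1
  have t2 := tg_upper U ∅
  rw [Finset.empty_union] at t2
  have t3 := sg_le_empty (BB p 0 (m + 1)) U
  have t4 := sg_nonneg (BB p 0 (m + 1)) U
  have ht : ((-1 : ℝ)) ^ kk (∅ : Finset (Sym2 V)) =
      (-1 : ℝ) ^ kk (BB p 0 (m + 1)) * (-1 : ℝ) ^ (m + 1) := by
    rw [← pow_add, k1]
  set κ : ℕ := kk (BB p 0 (m + 1)) with hκ
  set τ : ℝ := (-1 : ℝ) ^ κ with hτ
  set ρ : ℝ := (-1 : ℝ) ^ (m + 1) with hρ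
  have hττ : τ * τ = 1 := by rw [hτ, ← pow_add, ← two_mul]; simp
  have hρρ : ρ * ρ = 1 := by rw [hρ, ← pow_add, ← two_mul]; simp
  set a := Z f0 ∅ U with ha
  set b := Z f1 ∅ U with hb
  set c0 := Z f0 (BB p 0 (m + 1)) U with hc0
  set c1 := Z f1 (BB p 0 (m + 1)) U with hc1
  -- positive versions
  set A : ℝ := τ * ρ * a with hA
  set B : ℝ := τ * ρ * b with hB
  set γ : ℝ := τ * c0 with hγ
  set δ : ℝ := τ * c1 with hδ
  have sA : sg ∅ U = A := by
    unfold sg; rw [ht]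
  have sγ : sg (BB p 0 (m + 1)) U = γ := by
    unfold sg; rw [← hκ]
  have tA : tg ∅ U = (kk (∅ : Finset (Sym2 V)) : ℝ) * A - B := by
    unfold tg; rw [ht, hA, hB]; ring
  have tγ : tg (BB p 0 (m + 1)) U = (κ : ℝ) * γ - δ := by
    unfold tg; rw [← hκ, hγ, hδ]; ring
  rw [sA] at hpos t2 t3
  rw [sγ] at t1 t3 t4
  rw [tγ] at t1
  rw [tA] at t2
  have hk1 : (kk (∅ : Finset (Sym2 V)) : ℝ) = κ + (m + 1) := by
    rw [← k1]; push_cast; ring
  have hk2 : ((m : ℝ) + 1) ≤ (kk U : ℝ) := by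
    have : m + 1 ≤ kk U := by omega
    exact_mod_cast this
  have hk4 : (κ : ℝ) + (m + 1) < 2 * 2 ^ m + m := by
    have : kk (∅ : Finset (Sym2 V)) < 2 ^ (m + 1) + m := lt_of_le_of_lt k4 hcard
    have h5 : ((kk (∅ : Finset (Sym2 V)) : ℕ) : ℝ) < ((2 ^ (m + 1) + m : ℕ) : ℝ) := by
      exact_mod_cast this
    rw [hk1] at h5
    push_cast at h5
    rw [pow_succ] at h5
    linarith
  have hBA : ((m : ℝ) + 1) * A ≤ B := by nlinarith
  have hδ1 : δ ≤ ((κ : ℝ) + 1) / 2 * γ := by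
    push_cast at t1
    nlinarith
  have hm1 : (1 : ℝ) ≤ m := by exact_mod_cast hm
  have h2m : (m : ℝ) + 1 ≤ 2 ^ m := by
    have h1 : m + 1 ≤ 2 ^ m := Nat.lt_two_pow_self
    have h2 : ((m + 1 : ℕ) : ℝ) ≤ ((2 ^ m : ℕ) : ℝ) := by exact_mod_cast h1
    push_cast at h2
    exact h2
  set q : ℝ := (2 : ℝ) ^ m with hq
  have hτρ : τ * ρ * (τ * ρ) = 1 := by
    have : τ * ρ * (τ * ρ) = (τ * τ) * (ρ * ρ) := by ring
    rw [this, hττ, hρρ, one_mul]
  have hane : a ≠ 0 := by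
    intro h0; rw [hA, h0, mul_zero] at hpos; exact lt_irrefl _ hpos
  have hτρ0 : τ * ρ ≠ 0 := by
    intro h0; rw [h0, zero_mul] at hτρ; norm_num at hτρ
  -- left side
  have L : (n * Z f0 ∅ (XX U p m) - Z f1 ∅ (XX U p m)) / Z f0 ∅ (XX U p m) =
      n - B / A + (m : ℝ) / 2 := by
    have hBA' : B / A = b / a := by
      rw [hA, hB, mul_div_mul_left _ _ hτρ0]
    rw [x0, x1, hBA']
    have hq0 : q ≠ 0 := by positivity
    field_simp
    ring
  have hden : 0 < (2 * q - 1) * A + γ := by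
    have : 0 < (2 * q - 1) * A := mul_pos (by linarith) hpos
    linarith
  have hY0 : Z f0 ∅ (XX U p (m + 1)) = τ * ρ * ((2 * q - 1) * A + γ) := by
    rw [y0, hA, hγ]
    have e1 : τ * ρ * ((2 * q - 1) * (τ * ρ * a) + τ * c0) =
      (τ * ρ * (τ * ρ)) * ((2 * q - 1) * a) + (τ * τ) * (ρ * c0) := by ring
    rw [e1, hτρ, hττ]; ring
  have hY1 : Z f1 ∅ (XX U p (m + 1)) = τ * ρ * ((2 * q - 1) * B -
      ((m + 1) * q - (m + 1)) * A + δ) := by
    rw [y1, hA, hB, hδ]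
    have e1 : τ * ρ * ((2 * q - 1) * (τ * ρ * b) - ((m + 1) * q - (m + 1)) * (τ * ρ * a) +
      τ * c1) = (τ * ρ * (τ * ρ)) * ((2 * q - 1) * b - ((m + 1) * q - (m + 1)) * a) +
        (τ * τ) * (ρ * c1) := by ring
    rw [e1, hτρ, hττ]; ring
  have R : (n * Z f0 ∅ (XX U p (m + 1)) - Z f1 ∅ (XX U p (m + 1))) / Z f0 ∅ (XX U p (m + 1)) =
      n - ((2 * q - 1) * B - ((m + 1) * q - (m + 1)) * A + δ) / ((2 * q - 1) * A + γ) := by
    rw [hY0, hY1]
    have e1 : n * (τ * ρ * ((2 * q - 1) * A + γ)) - τ * ρ * ((2 * q - 1) * B -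
      ((m + 1) * q - (m + 1)) * A + δ) = τ * ρ * (n * ((2 * q - 1) * A + γ) -
        ((2 * q - 1) * B - ((m + 1) * q - (m + 1)) * A + δ)) := by ring
    rw [e1, mul_div_mul_left _ _ hτρ0, sub_div, mul_div_assoc, div_self (ne_of_gt hden), mul_one]
  rw [L, R]
  have key := long_key A B γ δ q κ m hpos t4 t3 hBA hδ1 (by linarith) h2m hm1
  linarith

end Pool.Agent.Helper517.LM
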