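import Mathlib
import Pool.Agent.Helper517.LMBase

set_option autoImplicit false
set_option linter.unusedSectionVars false

open Classical
open Pool.Agent.Helper580.Simon

namespace Pool.Agent.Helper517.LM

variable {V : Type} [Fintype V]

/-- the star edges at `v` towards `N` together with `U` -/
noncomputable def St (U : Finset (Sym2 V)) (v : V) (N : Finset V) : Finset (Sym2 V) :=
  U ∪ N.image (fun u => s(v, u))

lemma St_insert (U : Finset (Sym2 V)) (v u : V) (N : Finset V) :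
    St U v (insert u N) = insert s(v, u) (St U v N) := by
  unfold St
  rw [Finset.image_insert]
  ext x; simp only [Finset.mem_union, Finset.mem_insert]; tauto

lemma St_empty (U : Finset (Sym2 V)) (v : V) : St U v ∅ = U := by simp [St]

lemma St_not (U : Finset (Sym2 V)) (v u : V) (N : Finset V) (hU : ∀ e ∈ U, v ∉ e)
    (hu : u ∉ N) (huv : u ≠ v) : s(v, u) ∉ St U v N := by
  unfold St
  rw [Finset.mem_union, Finset.mem_image]
  rintro (h | ⟨w, hw, h⟩)
  · exact hU _ h (Sym2.mem_mk_left v u)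
  · rcases Sym2.eq_iff.1 h with ⟨_, h2⟩ | ⟨h1, h2⟩
    · subst h2; exact hu hw
    · exact huv h1.symm

lemma St_par (f : ℕ → ℝ) (U : Finset (Sym2 V)) (v u : V) (huv : u ≠ v) (hU : ∀ e ∈ U, v ∉ e)
    (N : Finset V) (hN : v ∉ N) (hu : u ∉ N) (hc : ∀ w ∈ N, s(u, w) ∈ U) :
    Z f {s(v, u)} (St U v N) = Z f {s(v, u)} U := by
  induction N using Finset.induction_on with
  | empty => rw [St_empty]
  | @insert w N hw ih =>
    have hwv : w ≠ v := fun h => hN (h ▸ Finset.mem_insert_self _ _)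
    rw [St_insert, Z_insert _ _ _ _ (St_not U v w N hU hw hwv),
      ih (fun h => hN (Finset.mem_insert_of_mem h)) (fun h => hu (Finset.mem_insert_of_mem h))
        (fun x hx => hc x (Finset.mem_insert_of_mem hx))]
    have hz : Z f (insert s(v, w) {s(v, u)}) (St U v N) = 0 := by
      apply Z_zero f _ _ u w
      · unfold St
        exact Finset.mem_union_left _ (hc w (Finset.mem_insert_self _ _))
      · have h1 : Rch (insert s(v, w) {s(v, u)} : Finset (Sym2 V)) v w :=
          Rch.edge (Finset.mem_insert_self _ _)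
        have h2 : Rch (insert s(v, w) {s(v, u)} : Finset (Sym2 V)) v u :=
          Rch.edge (Finset.mem_insert_of_mem (Finset.mem_singleton_self _))
        exact h2.symm.trans h1
    rw [hz, sub_zero]

lemma Z_pend0 (U : Finset (Sym2 V)) (v u : V) (huv : u ≠ v) (hU : ∀ e ∈ U, v ∉ e) :
    Z f0 {s(v, u)} U = - Z f0 ∅ U := by
  unfold Z
  rw [← Finset.sum_neg_distrib]
  apply Finset.sum_congr rfl
  intro A hA
  have h1 := kk_pendant (A := A) (v := v) (u := u)
    (fun e he => hU e (Finset.mem_powerset.1 hA he)) huv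
  have h2 : A ∪ {s(v, u)} = insert s(v, u) A := by
    ext x; simp only [Finset.mem_union, Finset.mem_insert, Finset.mem_singleton]; tauto
  rw [h2, Finset.union_empty, ← h1]
  unfold f0
  rw [pow_succ]; ring

lemma Z_pend1 (U : Finset (Sym2 V)) (v u : V) (huv : u ≠ v) (hU : ∀ e ∈ U, v ∉ e) :
    Z f1 {s(v, u)} U = - Z f1 ∅ U + Z f0 ∅ U := by
  unfold Z
  rw [← Finset.sum_neg_distrib, ← Finset.sum_add_distrib]
  apply Finset.sum_congr rfl
  intro A hA
  have h1 := kk_pendant (A := A) (v := v) (u := u)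
    (fun e he => hU e (Finset.mem_powerset.1 hA he)) huv
  have h2 : A ∪ {s(v, u)} = insert s(v, u) A := by
    ext x; simp only [Finset.mem_union, Finset.mem_insert, Finset.mem_singleton]; tauto
  rw [h2, Finset.union_empty, ← h1]
  unfold f0 f1
  rw [pow_succ]; push_cast; ring

lemma St_val (U : Finset (Sym2 V)) (v : V) (hU : ∀ e ∈ U, v ∉ e)
    (N : Finset V) (hN : v ∉ N) (hc : ∀ u ∈ N, ∀ w ∈ N, u ≠ w → s(u, w) ∈ U) :
    Z f0 ∅ (St U v N) = (1 + N.card) * Z f0 ∅ U ∧
    Z f1 ∅ (St U v N) = (1 + N.card) * Z f1 ∅ U - N.card * Z f0 ∅ U := by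
  induction N using Finset.induction_on with
  | empty => rw [St_empty]; simp
  | @insert w N hw ih =>
    have hwv : w ≠ v := fun h => hN (h ▸ Finset.mem_insert_self _ _)
    have hN' : v ∉ N := fun h => hN (Finset.mem_insert_of_mem h)
    obtain ⟨i0, i1⟩ := ih hN' (fun x hx y hy hxy =>
      hc x (Finset.mem_insert_of_mem hx) y (Finset.mem_insert_of_mem hy) hxy)
    have hcw : ∀ x ∈ N, s(w, x) ∈ U := fun x hx =>
      hc w (Finset.mem_insert_self _ _) x (Finset.mem_insert_of_mem hx)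
        (fun h => hw (h ▸ hx))
    have hn := St_not U v w N hU hw hwv
    rw [St_insert, Z_insert _ _ _ _ hn, Z_insert _ _ _ _ hn]
    simp only [insert_empty_eq]
    rw [St_par f0 U v w hwv hU N hN' hw hcw, St_par f1 U v w hwv hU N hN' hw hcw,
      Z_pend0 U v w hwv hU, Z_pend1 U v w hwv hU, i0, i1, Finset.card_insert_of_notMem hw]
    push_cast
    constructor <;> ring

lemma St_lt (U : Finset (Sym2 V)) (v : V) (hU : ∀ e ∈ U, v ∉ e) (hpos : Z f0 ∅ U ≠ 0)
    (N : Finset V) (hN : v ∉ N) (w : V) (hw : w ∉ N) (hwv : w ≠ v)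
    (hc : ∀ u ∈ insert w N, ∀ x ∈ insert w N, u ≠ x → s(u, x) ∈ U) (n : ℝ) :
    (n * Z f0 ∅ (St U v N) - Z f1 ∅ (St U v N)) / Z f0 ∅ (St U v N) <
    (n * Z f0 ∅ (St U v (insert w N)) - Z f1 ∅ (St U v (insert w N))) /
      Z f0 ∅ (St U v (insert w N)) := by
  have hN2 : v ∉ insert w N := by
    rw [Finset.mem_insert]; rintro (h | h)
    · exact hwv h.symm
    · exact hN h
  obtain ⟨a0, a1⟩ := St_val U v hU N hN (fun x hx y hy hxy =>
      hc x (Finset.mem_insert_of_mem hx) y (Finset.mem_insert_of_mem hy) hxy)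
  obtain ⟨b0, b1⟩ := St_val U v hU (insert w N) hN2 hc
  rw [a0, a1, b0, b1, Finset.card_insert_of_notMem hw]
  set d : ℝ := (N.card : ℝ) with hd
  have hd0 : 0 ≤ d := Nat.cast_nonneg _
  have e1 : (n * ((1 + d) * Z f0 ∅ U) - ((1 + d) * Z f1 ∅ U - d * Z f0 ∅ U)) /
      ((1 + d) * Z f0 ∅ U) = n - Z f1 ∅ U / Z f0 ∅ U + d / (1 + d) := by
    field_simp
    ring
  have e2 : (n * ((1 + ((N.card + 1 : ℕ) : ℝ)) * Z f0 ∅ U) -
      ((1 + ((N.card + 1 : ℕ) : ℝ)) * Z f1 ∅ U - ((N.card + 1 : ℕ) : ℝ) * Z f0 ∅ U)) /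
      ((1 + ((N.card + 1 : ℕ) : ℝ)) * Z f0 ∅ U) =
      n - Z f1 ∅ U / Z f0 ∅ U + (d + 1) / (2 + d) := by
    have h2 : (1 + ((N.card + 1 : ℕ) : ℝ)) = 2 + d := by push_cast; rw [hd]; ring
    have h3 : ((N.card + 1 : ℕ) : ℝ) = d + 1 := by push_cast; rw [hd]
    rw [h2, h3]
    have h5 : (2 + d) ≠ 0 := by linarith
    field_simp
    ring
  rw [e1, e2]
  have h4 : d / (1 + d) < (d + 1) / (2 + d) := by
    rw [div_lt_div_iff₀ (by linarith) (by linarith)]; nlinarith
  linarith

lemma pos_of_noloop (U : Finset (Sym2 V)) (hU : ∀ e ∈ U, ¬ e.IsDiag) : Z f0 ∅ U ≠ 0 := by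
  have h := (Z_sign U ∅).2 (by
    intro a b hab hr
    have h1 : a = b := by
      refine (hr.induct (fun y => y = a) rfl ?_).symm
      intro c d hcd
      exact absurd hcd (Finset.notMem_empty _)
    exact hU _ hab (by rw [Sym2.mk_isDiag_iff]; exact h1))
  intro h0
  rw [h0, mul_zero] at h
  exact lt_irrefl _ h

end Pool.Agent.Helper517.LM
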