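import Mathlib
import Pool.Agent.Helper517.LMLong
import Pool.Agent.Helper517.LMSimp

set_option autoImplicit false
set_option linter.unusedSectionVars false
set_option linter.unusedVariables false

open Classical
open Pool.Agent.Helper580.Simon

namespace Pool.Agent.Helper517.LM

variable {V : Type} [Fintype V]

lemma kk_graph (G : SimpleGraph V) (E : Finset (Sym2 V)) (hE : ∀ e, e ∈ E ↔ e ∈ G.edgeSet)
    (hG : G.Connected) : kk E = 1 := by
  unfold kk
  have h1 : SimpleGraph.fromEdgeSet (E : Set (Sym2 V)) = G := by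
    have : (E : Set (Sym2 V)) = G.edgeSet := by
      ext e; rw [Finset.mem_coe]; exact hE e
    rw [this, SimpleGraph.fromEdgeSet_edgeSet]
  rw [h1, Nat.card_eq_one_iff_unique]
  refine ⟨hG.preconnected.subsingleton_connectedComponent, ?_⟩
  obtain ⟨v⟩ := hG.nonempty
  exact ⟨G.connectedComponentMk v⟩

/-- the edges outside the path -/
noncomputable def rest (E : Finset (Sym2 V)) (p : ℕ → V) (m : ℕ) : Finset (Sym2 V) :=
  E.filter (fun e => ∀ i, i < m → e ≠ s(p i, p (i + 1)))

lemma rest_XX (E : Finset (Sym2 V)) (p : ℕ → V) (m : ℕ)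
    (hE : ∀ i, i < m → s(p i, p (i + 1)) ∈ E) : XX (rest E p m) p m = E := by
  ext e
  unfold XX rest
  rw [Finset.mem_union, Finset.mem_filter, Finset.mem_image]
  constructor
  · rintro (h | ⟨i, hi, rfl⟩)
    · exact h.1
    · exact hE i (Finset.mem_range.1 hi)
  · intro h
    by_cases h2 : ∃ i, i < m ∧ e = s(p i, p (i + 1))
    · obtain ⟨i, hi, h3⟩ := h2
      exact Or.inr ⟨i, Finset.mem_range.2 hi, h3.symm⟩
    · left
      refine ⟨h, fun i hi h3 => h2 ⟨i, hi, h3⟩⟩

lemma rest_ear (G : SimpleGraph V) (E : Finset (Sym2 V)) (hE : ∀ e, e ∈ E ↔ e ∈ G.edgeSet)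
    (p : ℕ → V) (m : ℕ) (hinj : ∀ i j, i ≤ m → j ≤ m → p i = p j → i = j)
    (hadj : ∀ i, i < m → G.Adj (p i) (p (i + 1)))
    (hdeg : ∀ i, 0 < i → i < m → ∀ w, G.Adj (p i) w → w = p (i - 1) ∨ w = p (i + 1)) :
    Ear (rest E p m) p m := by
  refine ⟨hinj, ?_⟩
  intro i hi him e he hp
  unfold rest at he
  rw [Finset.mem_filter] at he
  obtain ⟨w, rfl⟩ := hp
  have h1 : G.Adj (p i) w := by
    have := (hE _).1 he.1
    exact this
  rcases hdeg i hi him w h1 with h2 | h2
  · apply he.2 (i - 1) (by omega)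
    rw [h2, Sym2.eq_swap]
    have : i - 1 + 1 = i := by omega
    rw [this]
  · apply he.2 i him
    rw [h2]

lemma rest_pos (G : SimpleGraph V) (E : Finset (Sym2 V)) (hE : ∀ e, e ∈ E ↔ e ∈ G.edgeSet)
    (p : ℕ → V) (m : ℕ) : 0 < sg ∅ (rest E p m) := by
  have h := (Z_sign (rest E p m) ∅).2 (by
    intro a b hab hr
    have h1 : b = a := by
      refine (hr.induct (fun y => y = a) rfl ?_)
      intro c d hcd
      exact absurd hcd (Finset.notMem_empty _)
    unfold rest at hab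
    rw [Finset.mem_filter] at hab
    have h2 : G.Adj a b := (hE _).1 hab.1
    exact h2.ne h1.symm)
  exact h

lemma mem_XX_succ (U : Finset (Sym2 V)) (p : ℕ → V) (j : ℕ) (x : Sym2 V) :
    x ∈ XX U p (j + 1) ↔ x = s(p j, p (j + 1)) ∨ x ∈ XX U p j := by
  rw [XX_succ, Finset.mem_insert]

lemma mem_St_insert (U : Finset (Sym2 V)) (v w : V) (N : Finset V) (x : Sym2 V) :
    x ∈ St U v (insert w N) ↔ x = s(v, w) ∨ x ∈ St U v N := by
  rw [St_insert, Finset.mem_insert]

end Pool.Agent.Helper517.LM
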