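import Mathlib
import Pool.Agent.Helper517.LMGraph

set_option autoImplicit false

namespace Pool.Agent.Helper517.LM

theorem long_ear :
  ∀ (V : Type) [Fintype V] [DecidableEq V] (G : SimpleGraph V) [DecidableRel G.Adj],
    G.Connected →
    ∀ (m : ℕ) (p : ℕ → V), 2 ≤ m →
      (∀ i j, i ≤ m → j ≤ m → p i = p j → i = j) →
      (∀ i, i < m → G.Adj (p i) (p (i + 1))) →
      (∀ i, 0 < i → i < m → ∀ w, G.Adj (p i) w → w = p (i - 1) ∨ w = p (i + 1)) →
      Fintype.card V < 2 ^ m + m - 1 →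
    ∀ ε : Finset (Sym2 V) → ℝ,
      (∀ E : Finset (Sym2 V), ε E =
        (∑ A ∈ E.powerset,
            ((Fintype.card V : ℝ) -
              (Nat.card (SimpleGraph.fromEdgeSet (A : Set (Sym2 V))).ConnectedComponent : ℝ)) *
            (-1 : ℝ) ^ (A.card + Fintype.card V +
              Nat.card (SimpleGraph.fromEdgeSet (A : Set (Sym2 V))).ConnectedComponent)) /
        (∑ A ∈ E.powerset,
            (-1 : ℝ) ^ (A.card + Fintype.card V +
              Nat.card (SimpleGraph.fromEdgeSet (A : Set (Sym2 V))).ConnectedComponent))) →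
      s(p (m - 1), p m) ∈ G.edgeFinset ∧
        ε (G.edgeFinset.erase s(p (m - 1), p m)) < ε G.edgeFinset := by
  intro V _ _ G _ hconn m p hm hinj hadj hdeg' hcard ε hε
  obtain ⟨m', rfl⟩ : ∃ m', m = m' + 1 := ⟨m - 1, by omega⟩
  have hE : ∀ e, e ∈ G.edgeFinset ↔ e ∈ G.edgeSet := fun e => SimpleGraph.mem_edgeFinset
  have hear := rest_ear G G.edgeFinset hE p (m' + 1) hinj hadj hdeg'
  have hXX := rest_XX G.edgeFinset p (m' + 1) (fun i hi => (hE _).2 (hadj i hi))
  have hm1 : m' + 1 - 1 = m' := by omega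
  rw [hm1]
  refine ⟨(hE _).2 (hadj m' (by omega)), ?_⟩
  have hconn' : Pool.Agent.Helper580.Simon.kk (XX (rest G.edgeFinset p (m' + 1)) p (m' + 1)) = 1 := by
    rw [hXX]; exact kk_graph G _ hE hconn
  have hpos := rest_pos G G.edgeFinset hE p (m' + 1)
  have hlt := ear_long_lt hear (by omega) hconn' hpos (by omega) (Fintype.card V : ℝ)
  have hnot := ear_notX hear hm m' (by omega)
  have hsucc := mem_XX_succ (rest G.edgeFinset p (m' + 1)) p m'
  have her : G.edgeFinset.erase s(p m', p (m' + 1)) =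
      XX (rest G.edgeFinset p (m' + 1)) p m' := by
    ext x
    rw [Finset.mem_erase]
    rw [hXX] at hsucc
    constructor
    · rintro ⟨h1, h2⟩
      rcases (hsucc x).1 h2 with h3 | h3
      · exact absurd h3 h1
      · exact h3
    · intro h1
      refine ⟨fun h2 => hnot (h2 ▸ h1), (hsucc x).2 (Or.inr h1)⟩
  rw [hXX] at hlt
  rw [hε, hε, eps_eq, eps_eq, her]
  exact hlt

end Pool.Agent.Helper517.LM
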