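import Mathlib
import Pool.Agent.Helper517.LMGraph

set_option autoImplicit false
set_option linter.unusedSectionVars false
set_option linter.unusedVariables false

open Classical
open Pool.Agent.Helper580.Simon

namespace Pool.Agent.Helper517.LM

variable {V : Type} [Fintype V]

lemma simp_core (G : SimpleGraph V) (E : Finset (Sym2 V)) (hE : ∀ e, e ∈ E ↔ e ∈ G.edgeSet)
    (v w : V) (hvw : G.Adj v w) (hcl : ∀ a b, G.Adj v a → G.Adj v b → a ≠ b → G.Adj a b)
    (E' : Finset (Sym2 V)) (hE' : ∀ e, e ∈ E' ↔ e ≠ s(v, w) ∧ e ∈ E) (n : ℝ) :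
    (n * Z f0 ∅ E' - Z f1 ∅ E') / Z f0 ∅ E' < (n * Z f0 ∅ E - Z f1 ∅ E) / Z f0 ∅ E := by
  set U : Finset (Sym2 V) := E.filter (fun e => v ∉ e) with hU
  set N : Finset V := Finset.univ.filter (fun x => G.Adj v x ∧ x ≠ w) with hN
  have h1 : ∀ e ∈ U, v ∉ e := fun e he => (Finset.mem_filter.1 he).2
  have hpos : Z f0 ∅ U ≠ 0 := by
    apply pos_of_noloop
    intro e he hd
    have h2 := (hE e).1 (Finset.mem_filter.1 he).1
    exact G.not_isDiag_of_mem_edgeSet h2 hd
  have hvN : v ∉ N := by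
    intro h
    exact (Finset.mem_filter.1 h).2.1.ne rfl
  have hwN : w ∉ N := by
    intro h
    exact (Finset.mem_filter.1 h).2.2 rfl
  have hmem : ∀ x ∈ insert w N, G.Adj v x := by
    intro x hx
    rcases Finset.mem_insert.1 hx with rfl | hx
    · exact hvw
    · exact (Finset.mem_filter.1 hx).2.1
  have hc : ∀ u ∈ insert w N, ∀ x ∈ insert w N, u ≠ x → s(u, x) ∈ U := by
    intro u hu x hx hux
    have hu' := hmem u hu
    have hx' := hmem x hx
    rw [hU, Finset.mem_filter]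
    refine ⟨(hE _).2 (hcl u x hu' hx' hux), ?_⟩
    rw [Sym2.mem_iff]
    rintro (h | h)
    · exact hu'.ne h
    · exact hx'.ne h
  have hlt := St_lt U v h1 hpos N hvN w hwN hvw.ne' hc n
  have e1 : St U v N = E' := by
    ext e
    rw [hE']
    unfold St
    rw [Finset.mem_union, Finset.mem_image]
    constructor
    · rintro (h | ⟨x, hx, rfl⟩)
      · refine ⟨fun h2 => h1 e h (h2 ▸ Sym2.mem_mk_left v w), (Finset.mem_filter.1 h).1⟩
      · have hx' := (Finset.mem_filter.1 hx).2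
        refine ⟨fun h2 => ?_, (hE _).2 hx'.1⟩
        rcases Sym2.eq_iff.1 h2 with ⟨_, h3⟩ | ⟨h3, h4⟩
        · exact hx'.2 h3
        · exact hx'.1.ne h4.symm
    · rintro ⟨h2, h3⟩
      by_cases hv : v ∈ e
      · right
        obtain ⟨x, rfl⟩ := hv
        have h4 : G.Adj v x := (hE _).1 h3
        refine ⟨x, ?_, rfl⟩
        rw [hN, Finset.mem_filter]
        exact ⟨Finset.mem_univ _, h4, fun h5 => h2 (by rw [h5])⟩
      · left
        rw [hU, Finset.mem_filter]
        exact ⟨h3, hv⟩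
  have e2 : St U v (insert w N) = E := by
    ext e
    rw [mem_St_insert, e1, hE']
    constructor
    · rintro (rfl | h)
      · exact (hE _).2 hvw
      · exact h.2
    · intro h
      by_cases h2 : e = s(v, w)
      · exact Or.inl h2
      · exact Or.inr ⟨h2, h⟩
  rw [e1, e2] at hlt
  exact hlt

lemma ear_core (G : SimpleGraph V) (E : Finset (Sym2 V)) (hE : ∀ e, e ∈ E ↔ e ∈ G.edgeSet)
    (m : ℕ) (hm : 1 ≤ m) (p : ℕ → V) (hinj : ∀ i j, i ≤ m + 1 → j ≤ m + 1 → p i = p j → i = j)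
    (hadj : ∀ i, i < m + 1 → G.Adj (p i) (p (i + 1)))
    (hdeg : ∀ i, 0 < i → i < m + 1 → ∀ w, G.Adj (p i) w → w = p (i - 1) ∨ w = p (i + 1))
    (hcl : G.Adj (p 0) (p (m + 1)))
    (E' : Finset (Sym2 V)) (hE' : ∀ e, e ∈ E' ↔ e ≠ s(p m, p (m + 1)) ∧ e ∈ E) (n : ℝ) :
    (n * Z f0 ∅ E' - Z f1 ∅ E') / Z f0 ∅ E' < (n * Z f0 ∅ E - Z f1 ∅ E) / Z f0 ∅ E := by
  have hear := rest_ear G E hE p (m + 1) hinj hadj hdeg
  have hXX := rest_XX E p (m + 1) (fun i hi => (hE _).2 (hadj i hi))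
  have hpos := rest_pos G E hE p (m + 1)
  have hpos' : Z f0 ∅ (rest E p (m + 1)) ≠ 0 := by
    intro h0
    unfold sg at hpos
    rw [h0, mul_zero] at hpos
    exact lt_irrefl _ hpos
  have hc : s(p 0, p (m + 1)) ∈ rest E p (m + 1) := by
    unfold rest
    rw [Finset.mem_filter]
    refine ⟨(hE _).2 hcl, ?_⟩
    intro i hi h
    rcases Sym2.eq_iff.1 h with ⟨h1, h2⟩ | ⟨h1, h2⟩
    · have a1 := hinj _ _ (by omega) (by omega) h1
      have a2 := hinj _ _ (by omega) (by omega) h2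
      omega
    · have a1 := hinj _ _ (by omega) (by omega) h1
      have a2 := hinj _ _ (by omega) (by omega) h2
      omega
  have hlt := ear_lt hear hm hc hpos' n
  have hnot := ear_notX hear (by omega) m (by omega)
  have her : E' = XX (rest E p (m + 1)) p m := by
    ext x
    rw [hE']
    have hsucc := mem_XX_succ (rest E p (m + 1)) p m x
    rw [hXX] at hsucc
    constructor
    · rintro ⟨h1, h2⟩
      rcases hsucc.1 h2 with h3 | h3
      · exact absurd h3 h1
      · exact h3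
    · intro h1
      exact ⟨fun h2 => hnot (h2 ▸ h1), hsucc.2 (Or.inr h1)⟩
  rw [hXX, ← her] at hlt
  exact hlt

end Pool.Agent.Helper517.LM
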